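import Pool.Agent.Lib.MP_ac5134_an.KH.Rnd

/-!
# KH-Cond: conditional form of `RI`, and elementary facts on `RI`

PROOF of `RI.cond`: apply `h` to the index set `I × Ω` with the weights `w i * (S i).p ω₀` and the
systems with the law `SD.fib (S i).p (Cf i) ω₀` (`SD.isPr_fib`) and the same `A`, `B`.  The averages of
entropies are conditional entropies by `SD.cent_eq_fib` (see `Ineq.cavg` in `SD/Fib.lean`), and
`∑ ω₀, p ω₀ * cent (fib p C ω₀) A B = cent p A (B, C) ≤ cent p A B` (`cent_anti`).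
-/

open RFold Finset

namespace Pool.Agent.MPac5134.KH

/-- averages over the fibres of the conditioning -/
theorem cond_sum {Ω : Type*} [Fintype Ω] {β γ : Type*} {I : Type*} [Fintype I] {w : I → ℝ}
    {p : I → Ω → ℝ} (hp : ∀ i, IsPr (p i)) (f : I → Ω → β) (C : I → Ω → γ) :
    ∑ x : I × Ω, (w x.1 * p x.1 x.2) * ent (SD.fib (p x.1) (C x.1) x.2) (f x.1) =
      ∑ i, w i * cent (p i) (f i) (C i) := by
  rw [Fintype.sum_prod_type]
  refine sum_congr rfl fun i _ => ?_
  rw [SD.cent_eq_fib (hp i), mul_sum]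
  exact sum_congr rfl fun ω _ => by ring

theorem RI.cond {d N : ℕ} {α C : ℝ} {F : Finset ℕ} (h : RI d N α C F) {I Ω : Type} [Fintype I]
    [Fintype Ω] {w : I → ℝ} (hw : ∀ i, 0 ≤ w i) (hw1 : ∑ i, w i = 1) (S : I → LS d Ω)
    (hB : ∀ i ω j, |((S i).B ω j : ℝ)| ≤ N) {γ : Type*} (Cf : I → Ω → γ) {k s : ℝ}
    (hk : ∑ i, w i * (S i).kap ≤ k)
    (hs : ∀ t ∈ F, ∑ i, w i * cent (S i).p ((S i).P ((t : ℝ) / N)) (Cf i) ≤ s) :
    ∑ i, w i * cent (S i).p (S i).B (Cf i) ≤ α * s + C * (1 + k) := by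
  obtain ⟨_, H⟩ := h
  have hp : ∀ i, IsPr (S i).p := fun i => (S i).hp
  rw [← cond_sum (w := w) hp (fun i => (S i).B) Cf]
  refine H (I × Ω) Ω (fun x => w x.1 * (S x.1).p x.2)
    (fun x => ⟨SD.fib (S x.1).p (Cf x.1) x.2, (S x.1).A, (S x.1).B,
      SD.isPr_fib (hp x.1) (Cf x.1) x.2⟩) k s
    (fun x => mul_nonneg (hw x.1) ((hp x.1).nonneg x.2)) ?_ (fun x ω j => hB x.1 ω j) ?_ ?_
  · rw [Fintype.sum_prod_type, ← hw1]
    refine sum_congr rfl fun i _ => ?_
    change ∑ y, w i * (S i).p y = w i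
    rw [← mul_sum, (hp i).sum_eq, mul_one]
  · refine le_trans ?_ hk
    have e : ∑ x : I × Ω, (w x.1 * (S x.1).p x.2) *
        cent (SD.fib (S x.1).p (Cf x.1) x.2) (S x.1).A (S x.1).B =
        ∑ i, w i * cent (S i).p (fun ω => ((S i).A ω, (S i).B ω)) (Cf i) -
          ∑ i, w i * cent (S i).p (S i).B (Cf i) := by
      rw [← cond_sum (w := w) hp (fun i ω => ((S i).A ω, (S i).B ω)) Cf,
        ← cond_sum (w := w) hp (fun i => (S i).B) Cf, ← sum_sub_distrib]
      refine sum_congr rfl fun x _ => ?_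
      unfold cent
      ring
    refine le_trans (le_of_eq e) ?_
    rw [← sum_sub_distrib]
    refine sum_le_sum fun i _ => ?_
    rw [← mul_sub]
    refine mul_le_mul_of_nonneg_left ?_ (hw i)
    have c1 : cent (S i).p (fun ω => ((S i).A ω, (S i).B ω)) (Cf i) -
        cent (S i).p (S i).B (Cf i) =
        cent (S i).p (S i).A (fun ω => ((S i).B ω, Cf i ω)) := by
      have c2 : cent (S i).p (fun ω => ((S i).A ω, (S i).B ω)) (Cf i) =
          cent (S i).p (fun ω => ((S i).B ω, (S i).A ω)) (Cf i) := by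
        refine cent_congr (hp i) (Det.refl _) (Det.refl _) ?_ ?_ <;>
        · intro ω ω' _ _ e
          simp only [Prod.mk.injEq] at e ⊢
          tauto
      rw [c2, cent_chain (hp i)]
      ring
    rw [c1]
    exact cent_anti (hp i) _ (Det.fst (Det.refl _))
  · intro t ht
    refine le_trans (le_of_eq ?_) (hs t ht)
    exact cond_sum (w := w) hp (fun i => (S i).P ((t : ℝ) / N)) Cf

theorem kap_sum_nonneg {d : ℕ} {I Ω : Type} [Fintype I] [Fintype Ω] {w : I → ℝ}
    (hw : ∀ i, 0 ≤ w i) (S : I → LS d Ω) : 0 ≤ ∑ i, w i * (S i).kap :=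
  sum_nonneg fun i _ => mul_nonneg (hw i) (cent_nonneg (S i).hp _ _)

theorem H_sum_nonneg {d : ℕ} {I Ω : Type} [Fintype I] [Fintype Ω] {w : I → ℝ}
    (hw : ∀ i, 0 ≤ w i) (S : I → LS d Ω) (t : ℝ) : 0 ≤ ∑ i, w i * (S i).H t :=
  sum_nonneg fun i _ => mul_nonneg (hw i) (ent_nonneg (S i).hp _)

/-- `s` and `k` are automatically nonnegative, so the inequality is monotone in `α` and `C` -/
theorem RI.mono {d N : ℕ} {α α' C C' : ℝ} {F : Finset ℕ} (h : RI d N α C F) (hα : α ≤ α')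
    (hC : C ≤ C') : RI d N α' C' F := by
  obtain ⟨⟨t, ht⟩, H⟩ := h
  refine ⟨⟨t, ht⟩, fun I Ω _ _ w S k s hw hw1 hB hk hs => ?_⟩
  have h1 := H I Ω w S k s hw hw1 hB hk hs
  have k0 : 0 ≤ k := (kap_sum_nonneg hw S).trans hk
  have s0 : 0 ≤ s := (H_sum_nonneg hw S _).trans (hs t ht)
  have h2 : α * s ≤ α' * s := mul_le_mul_of_nonneg_right hα s0
  have h3 : C * (1 + k) ≤ C' * (1 + k) := mul_le_mul_of_nonneg_right hC (by linarith)
  linarith

/-- two heights: `B` is determined by the two slices up to `2/η` -/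
theorem RI_two {d N : ℕ} (hN : 1 ≤ N) {t u : ℕ} {η : ℝ} (hη : 0 < η) (h1 : η ≤ 1)
    (ht : sep N η t u) : RI d N 2 (cst d η) {t, u} := by
  have hN0 : (0 : ℝ) < N := by exact_mod_cast hN
  refine ⟨⟨t, by simp⟩, fun I Ω _ _ w S k s hw hw1 hB hk hs => ?_⟩
  have k0 : 0 ≤ k := (kap_sum_nonneg hw S).trans hk
  have e1 := hs t (by simp)
  have e2 := hs u (by simp)
  have key : ∀ i, ent (S i).p (S i).B ≤
      (S i).H ((t : ℝ) / N) + (S i).H ((u : ℝ) / N) + cst d η := by
    intro i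
    have hp := (S i).hp
    have a1 := ent_le_add hp (fun ω => ((S i).P ((t : ℝ) / N) ω, (S i).P ((u : ℝ) / N) ω)) (S i).B
    have a2 := ent_pair_le hp ((S i).P ((t : ℝ) / N)) ((S i).P ((u : ℝ) / N))
    have a3 : cent (S i).p (S i).B
        (fun ω => ((S i).P ((t : ℝ) / N) ω, (S i).P ((u : ℝ) / N) ω)) ≤ cst d η := by
      refine cent_near_cst hp _ _ hη ?_
      intro ω ω' _ _ e j
      simp only [Prod.mk.injEq] at e
      have b1 := fl_eq e.1 j
      have b2 := fl_eq e.2 j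
      have c1 : (((t : ℝ) - u) / N) * (((S i).B ω j : ℝ) - (S i).B ω' j) =
          (pt ((S i).A ω) ((S i).B ω) ((t : ℝ) / N) j -
            pt ((S i).A ω') ((S i).B ω') ((t : ℝ) / N) j) -
          (pt ((S i).A ω) ((S i).B ω) ((u : ℝ) / N) j -
            pt ((S i).A ω') ((S i).B ω') ((u : ℝ) / N) j) := by
        unfold pt
        field_simp
        ring
      have c2 : |(((t : ℝ) - u) / N) * (((S i).B ω j : ℝ) - (S i).B ω' j)| ≤ 2 := by
        rw [c1]
        refine (abs_sub _ _).trans ?_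
        linarith
      rw [abs_mul, abs_div, abs_of_pos hN0] at c2
      have c3 : η ≤ |(t : ℝ) - u| / N := by
        rw [le_div_iff₀ hN0]
        exact ht
      have c4 : η * |((S i).B ω j : ℝ) - (S i).B ω' j| ≤ 2 :=
        (mul_le_mul_of_nonneg_right c3 (abs_nonneg _)).trans c2
      rw [le_div_iff₀ (by positivity)]
      have c5 : |((S i).B ω j : ℝ) - (S i).B ω' j| * η ^ 2 =
          η * (η * |((S i).B ω j : ℝ) - (S i).B ω' j|) := by ring
      rw [c5]
      calc η * (η * |((S i).B ω j : ℝ) - (S i).B ω' j|) ≤ 1 * 2 :=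
            mul_le_mul h1 c4 (by positivity) zero_le_one
        _ ≤ 10 := by norm_num
    have a4 : (S i).H ((t : ℝ) / N) = ent (S i).p ((S i).P ((t : ℝ) / N)) := rfl
    have a5 : (S i).H ((u : ℝ) / N) = ent (S i).p ((S i).P ((u : ℝ) / N)) := rfl
    rw [a4, a5]
    linarith
  have key2 : ∑ i, w i * ent (S i).p (S i).B ≤
      ∑ i, w i * (S i).H ((t : ℝ) / N) + ∑ i, w i * (S i).H ((u : ℝ) / N) + cst d η := by
    calc ∑ i, w i * ent (S i).p (S i).B
        ≤ ∑ i, (w i * (S i).H ((t : ℝ) / N) + w i * (S i).H ((u : ℝ) / N) + w i * cst d η) := by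
          refine sum_le_sum fun i _ => ?_
          have := mul_le_mul_of_nonneg_left (key i) (hw i)
          linarith
      _ = _ := by
          rw [sum_add_distrib, sum_add_distrib, ← sum_mul, hw1, one_mul]
  have c0 := cst_nonneg d hη
  have : cst d η ≤ cst d η * (1 + k) := by nlinarith
  linarith

/-- the trivial inequality (`H(B) ≤ d log (2N + 1)` as `|B| ≤ N`) -/
theorem RI_triv {d N : ℕ} {α C : ℝ} (hα : 0 ≤ α) (hC : d * Real.log (2 * N + 1) ≤ C)
    {F : Finset ℕ} (hF : F.Nonempty) : RI d N α C F := by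
  refine ⟨hF, fun I Ω _ _ w S k s hw hw1 hB hk hs => ?_⟩
  obtain ⟨t, ht⟩ := hF
  have k0 : 0 ≤ k := (kap_sum_nonneg hw S).trans hk
  have s0 : 0 ≤ s := (H_sum_nonneg hw S _).trans (hs t ht)
  have key : ∀ i, ent (S i).p (S i).B ≤ d * Real.log (2 * N + 1) := by
    intro i
    refine (ent_le_log_card (S i).hp _
      (Fintype.piFinset fun _ : Fin d => Icc (-(N : ℤ)) N) ?_).trans (le_of_eq ?_)
    · intro ω _
      rw [Fintype.mem_piFinset]
      intro j
      rw [mem_Icc]
      have := abs_le.mp (hB i ω j)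
      constructor
      · have h1 : ((-(N : ℤ) : ℤ) : ℝ) ≤ ((S i).B ω j : ℝ) := by push_cast; exact this.1
        exact_mod_cast h1
      · have h1 : ((S i).B ω j : ℝ) ≤ ((N : ℤ) : ℝ) := by push_cast; exact this.2
        exact_mod_cast h1
    · have c1 : (Fintype.piFinset fun _ : Fin d => Icc (-(N : ℤ)) N).card = (2 * N + 1) ^ d := by
        rw [Fintype.card_piFinset, prod_const, card_univ, Fintype.card_fin, Int.card_Icc]
        congr 1
        omega
      rw [c1]
      push_cast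
      rw [Real.log_pow]
  have hl : 0 ≤ (d : ℝ) * Real.log (2 * N + 1) := by
    refine mul_nonneg (Nat.cast_nonneg d) (Real.log_nonneg ?_)
    have : (0 : ℝ) ≤ N := Nat.cast_nonneg N
    linarith
  calc ∑ i, w i * ent (S i).p (S i).B ≤ ∑ i, w i * (d * Real.log (2 * N + 1)) :=
        sum_le_sum fun i _ => mul_le_mul_of_nonneg_left (key i) (hw i)
    _ = d * Real.log (2 * N + 1) := by rw [← sum_mul, hw1, one_mul]
    _ ≤ C := hC
    _ ≤ α * s + C * (1 + k) := by
        have : 0 ≤ C * k := mul_nonneg (hl.trans hC) k0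
        have := mul_nonneg hα s0
        linarith

end Pool.Agent.MPac5134.KH
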