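import Pool.Agent.Lib.MP_ac5134_an.KH.Defs

/-!
# KH-Conf: the configurations `v` (two lines) and `w3` (path of three lines)

The same statements as in `SD/Sys.lean` and `SD/P3.lean`, with the same proofs (`SD.gl_ne_zero`,
`SD.isPr_gl`, `SD.ent_gl_fst`, `SD.ent_gl_snd`, `SD.ent_gl`, `SD.law_gl_snd`, `SD.ent_gl_assoc`,
`SD.sum_gl_assoc`): there the random line is `(A, B)` with `B` determining `A`, here `L = (A, B)`.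
-/

open RFold Finset

namespace Pool.Agent.MPac5134.KH.LS

variable {d : ℕ} {Ω : Type} [Fintype Ω] (S : LS d Ω)

theorem det_P (t : ℝ) : Det S.p S.L (S.P t) := by
  intro ω ω' _ _ e
  unfold L at e
  simp only [Prod.mk.injEq] at e
  unfold P
  rw [e.1, e.2]

theorem kap_nonneg : 0 ≤ S.kap := by
  exact cent_nonneg S.hp _ _

theorem H_nonneg (t : ℝ) : 0 ≤ S.H t := by
  exact ent_nonneg S.hp _

/-- `h = H(B) + H(A | B)` -/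
theorem h_eq : S.h = ent S.p S.B + S.kap := by
  exact ent_pair S.A S.B

theorem isPr_v (τ : ℝ) : IsPr (S.v τ) := by
  exact SD.isPr_gl S.hp S.hp fun _ => rfl

theorem v_ne_zero {τ : ℝ} {x : Ω × Ω} (h : S.v τ x ≠ 0) :
    S.p x.1 ≠ 0 ∧ S.p x.2 ≠ 0 ∧ S.P τ x.1 = S.P τ x.2 := by
  exact SD.gl_ne_zero h

theorem ent_v_fst {α : Type*} (τ : ℝ) (φ : Ω → α) :
    ent (S.v τ) (fun x => φ x.1) = ent S.p φ := by
  exact SD.ent_gl_fst S.hp (fun _ => rfl) φ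

theorem ent_v_snd {α : Type*} (τ : ℝ) (φ : Ω → α) :
    ent (S.v τ) (fun x => φ x.2) = ent S.p φ := by
  exact SD.ent_gl_snd S.hp S.hp (fun _ => rfl) φ

/-- conditional entropies of functions of one of the two lines -/
theorem cent_v_fst {α β : Type*} (τ : ℝ) (φ : Ω → α) (ψ : Ω → β) :
    cent (S.v τ) (fun x => φ x.1) (fun x => ψ x.1) = cent S.p φ ψ := by
  unfold cent
  rw [S.ent_v_fst τ (fun ω => (φ ω, ψ ω)), S.ent_v_fst τ ψ]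

theorem cent_v_snd {α β : Type*} (τ : ℝ) (φ : Ω → α) (ψ : Ω → β) :
    cent (S.v τ) (fun x => φ x.2) (fun x => ψ x.2) = cent S.p φ ψ := by
  unfold cent
  rw [S.ent_v_snd τ (fun ω => (φ ω, ψ ω)), S.ent_v_snd τ ψ]

theorem ent_v (τ : ℝ) : ent (S.v τ) (fun x => (S.L x.1, S.L x.2)) = 2 * S.h - S.H τ := by
  have := SD.ent_gl S.hp S.hp (fun _ => rfl) (S.det_P τ) (S.det_P τ)
  unfold v
  rw [this]
  unfold h H
  ring

theorem G_nonneg (τ x y : ℝ) : 0 ≤ S.G τ x y := by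
  exact ent_nonneg (S.isPr_v τ) _

theorem G_le (τ x y : ℝ) : S.G τ x y ≤ S.H x + S.H y := by
  have h1 := ent_pair_le (S.isPr_v τ) (fun z => S.P x z.1) (fun z => S.P y z.2)
  rw [S.ent_v_fst τ (S.P x), S.ent_v_snd τ (S.P y)] at h1
  exact h1

theorem law_w3 (t₀ t₁ : ℝ) (b : Fin d → ℤ) :
    law (S.v t₀) (fun x => S.P t₁ x.2) b = law S.p (S.P t₁) b := by
  exact SD.law_gl_snd S.hp S.hp (fun _ => rfl) (S.P t₁) b

theorem isPr_w3 (t₀ t₁ : ℝ) : IsPr (S.w3 t₀ t₁) := by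
  exact SD.isPr_gl (S.isPr_v t₀) S.hp (S.law_w3 t₀ t₁)

theorem w3_ne_zero {t₀ t₁ : ℝ} {x : (Ω × Ω) × Ω} (h : S.w3 t₀ t₁ x ≠ 0) :
    S.p x.1.1 ≠ 0 ∧ S.p x.1.2 ≠ 0 ∧ S.p x.2 ≠ 0 ∧ S.P t₀ x.1.1 = S.P t₀ x.1.2 ∧
      S.P t₁ x.1.2 = S.P t₁ x.2 := by
  obtain ⟨h1, h2, h3⟩ := SD.gl_ne_zero h
  obtain ⟨h4, h5, h6⟩ := S.v_ne_zero h1
  exact ⟨h4, h5, h2, h6, h3⟩

theorem ent_w3_12 {α : Type*} (t₀ t₁ : ℝ) (φ : Ω × Ω → α) :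
    ent (S.w3 t₀ t₁) (fun x => φ x.1) = ent (S.v t₀) φ := by
  exact SD.ent_gl_fst (S.isPr_v t₀) (S.law_w3 t₀ t₁) φ

theorem ent_w3_23 {α : Type*} (t₀ t₁ : ℝ) (φ : Ω × Ω → α) :
    ent (S.w3 t₀ t₁) (fun x => φ (x.1.2, x.2)) = ent (S.v t₁) φ := by
  exact SD.ent_gl_assoc (r := S.p) (g' := S.P t₁) (k := S.P t₁) S.hp S.hp (fun _ => rfl) φ

theorem ent_w3_3 {α : Type*} (t₀ t₁ : ℝ) (φ : Ω → α) :
    ent (S.w3 t₀ t₁) (fun x => φ x.2) = ent S.p φ := by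
  exact SD.ent_gl_snd (S.isPr_v t₀) S.hp (S.law_w3 t₀ t₁) φ

theorem ent_w3_1 {α : Type*} (t₀ t₁ : ℝ) (φ : Ω → α) :
    ent (S.w3 t₀ t₁) (fun x => φ x.1.1) = ent S.p φ := by
  rw [S.ent_w3_12 t₀ t₁ (fun x => φ x.1), S.ent_v_fst]

theorem cent_w3_1 {α β : Type*} (t₀ t₁ : ℝ) (φ : Ω → α) (ψ : Ω → β) :
    cent (S.w3 t₀ t₁) (fun x => φ x.1.1) (fun x => ψ x.1.1) = cent S.p φ ψ := by
  unfold cent
  rw [S.ent_w3_1 t₀ t₁ (fun ω => (φ ω, ψ ω)), S.ent_w3_1 t₀ t₁ ψ]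

theorem cent_w3_3 {α β : Type*} (t₀ t₁ : ℝ) (φ : Ω → α) (ψ : Ω → β) :
    cent (S.w3 t₀ t₁) (fun x => φ x.2) (fun x => ψ x.2) = cent S.p φ ψ := by
  unfold cent
  rw [S.ent_w3_3 t₀ t₁ (fun ω => (φ ω, ψ ω)), S.ent_w3_3 t₀ t₁ ψ]

/-- The entropy of the whole path. -/
theorem ent_w3 (t₀ t₁ : ℝ) :
    ent (S.w3 t₀ t₁) (fun x => ((S.L x.1.1, S.L x.1.2), S.L x.2)) =
      3 * S.h - S.H t₀ - S.H t₁ := by
  have h1 := SD.ent_gl (S.isPr_v t₀) S.hp (S.law_w3 t₀ t₁) (F := fun x => (S.L x.1, S.L x.2))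
    (G := S.L) (f := fun x => S.P t₁ x.2) (g := S.P t₁) ?_ (S.det_P t₁)
  · unfold w3
    rw [h1, S.ent_v, S.ent_v_snd t₀ (S.P t₁)]
    unfold h H
    ring
  · intro x y hx hy e
    simp only [Prod.mk.injEq] at e
    obtain ⟨_, hx2, _⟩ := S.v_ne_zero hx
    obtain ⟨_, hy2, _⟩ := S.v_ne_zero hy
    exact S.det_P t₁ _ _ hx2 hy2 e.2

end Pool.Agent.MPac5134.KH.LS
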