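import Pool.Agent.Lib.MP_ac5134_an.KH.Defs

/-!
# KH-DT: the discrete theorem

PROOF.  `k, C₀` from `Flex`.  Let `M j` be the number of cells at height `j`, `Σ = ∑ M j`.  If `ι` is empty
the left side is `0` (`1/α > 0`).  The heights `j < N` with `M j > (4/lam) Σ/N` are at most `lam N/4` many; remove
them from the `A i`: sets `A' i` with at least `(lam/2) N` elements.  `Flex` with `lam/2`, `I = univ` gives `F`,
`J`, `|J| ≥ (lam/4)^C₀ |ι|`.  Choose `J' ⊆ J` with `b` injective on `J'` and `|J'| ≥ |J|/K`.  Apply `RI` to the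
family with one member (`I = Unit`, `w = 1`), `Ω = J'` (as a subtype), `p = uni`, `A = a`, `B = b`, `k = 0`
(`kap = 0` as `b` determines everything: `cent_zero_of_det`), `ent B = log |J'|` (`ent_uni_inj`), and for
`t ∈ F`: `H (t/N) ≤ log M t ≤ log ((4/lam) Σ/N)` (`ent_le_log_card`; all lines of `J'` have `t` in `A' i`).
So `log |J'| ≤ α log (4 Σ/(lam N)) + C₀ (1 + log (2/lam))`; exponentiate and take the power `1/α ≤ 1`.
-/

open Finset

namespace Pool.Agent.MPac5134.KH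

/-- few heights carry many cells -/
private theorem dt_heavy (M : ℕ → ℝ) (hM : ∀ j, 0 ≤ M j) (N : ℕ) (T : ℝ) :
    (((range N).filter fun j => T < M j).card : ℝ) * T ≤ ∑ j ∈ range N, M j := by
  calc (((range N).filter fun j => T < M j).card : ℝ) * T
      = ∑ j ∈ (range N).filter (fun j => T < M j), T := by rw [sum_const, nsmul_eq_mul]
    _ ≤ ∑ j ∈ (range N).filter (fun j => T < M j), M j :=
        sum_le_sum fun j hj => (mem_filter.mp hj).2.le
    _ ≤ ∑ j ∈ range N, M j :=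
        sum_le_sum_of_subset_of_nonneg (filter_subset _ _) fun j _ _ => hM j

/-- the entropy step: a set of lines with distinct directions -/
private theorem dt_ri {d N : ℕ} {α C : ℝ} {F : Finset ℕ} (hRI : RI d N α C F)
    {ι : Type} (a b : ι → Fin d → ℤ) (J : Finset ι) (hJ : J.Nonempty)
    (hb : ∀ i k, |(b i k : ℝ)| ≤ N) (T : ℝ) (Y : ℕ → Finset (Fin d → ℤ))
    (hY : ∀ t ∈ F, ∀ i ∈ J, fl (pt (a i) (b i) ((t : ℝ) / N)) ∈ Y t)
    (hT : ∀ t ∈ F, ((Y t).card : ℝ) ≤ T) :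
    Real.log ((J.image b).card) ≤ α * Real.log T + C := by
  classical
  have hsec : ∀ ω : {v // v ∈ J.image b}, ∃ i ∈ J, b i = ω.1 := fun ω => mem_image.mp ω.2
  choose sec hsJ hsb using hsec
  have hne : Nonempty {v // v ∈ J.image b} := by
    obtain ⟨i, hi⟩ := hJ
    exact ⟨⟨b i, mem_image_of_mem b hi⟩⟩
  let S : LS d {v // v ∈ J.image b} :=
    { p := RFold.uni _
      A := fun ω => a (sec ω)
      B := fun ω => b (sec ω)
      hp := RFold.isPr_uni }
  have hinj : Function.Injective S.B := by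
    intro ω ω' h
    have h' : b (sec ω) = b (sec ω') := h
    rw [hsb, hsb] at h'
    exact Subtype.ext h'
  have h1 := hRI.2 Unit {v // v ∈ J.image b} (fun _ => 1) (fun _ => S) 0 (Real.log T)
    (fun _ => zero_le_one) (by simp) (fun _ ω j => hb (sec ω) j)
    (by
      have : S.kap = 0 := by
        unfold LS.kap
        exact RFold.cent_zero_of_det S.hp fun ω ω' _ _ h => by rw [hinj h]
      simp [this])
    (by
      intro t ht
      have h2 : S.H ((t : ℝ) / N) ≤ Real.log T := by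
        unfold LS.H
        have hm : ∀ ω, S.P ((t : ℝ) / N) ω ∈ Y t := fun ω => hY t ht (sec ω) (hsJ ω)
        have hpos : (0 : ℝ) < (Y t).card := by
          obtain ⟨ω⟩ := hne
          exact_mod_cast card_pos.mpr ⟨_, hm ω⟩
        exact (RFold.ent_le_log_card S.hp _ (Y t) (fun ω _ => hm ω)).trans
          (Real.log_le_log hpos (hT t ht))
      simpa using h2)
  have h3 : RFold.ent S.p S.B = Real.log ((J.image b).card) := by
    have h4 : RFold.ent (RFold.uni {v // v ∈ J.image b}) S.B =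
        Real.log (Fintype.card {v // v ∈ J.image b}) := RFold.ent_uni_inj hinj
    rw [Fintype.card_coe] at h4
    exact h4
  simp only [univ_unique, sum_const, card_singleton, one_smul, one_mul, add_zero, mul_one] at h1
  rw [h3] at h1
  exact h1

private theorem dt_cancel {lam N : ℝ} (hl : 0 < lam) (hN : 0 < N) (S : ℝ) :
    lam / 4 * N * (4 / lam * S / N) = S := by
  field_simp

/-- the numbers -/
private theorem dt_num {α lam T n S : ℝ} {N K C : ℕ} (hα : 1 ≤ α) (hN : 1 ≤ N) (hl0 : 0 < lam)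
    (hl1 : lam ≤ 1) (hK : 1 ≤ K) (hn : 0 < n) (hT : T = 4 / lam * S / N) (hS : 0 < S)
    (m : ℝ) (hm : 0 < m) (h1 : Real.log m ≤ α * Real.log T + C * (1 + Real.log (1 / (lam / 2))))
    (h2 : (lam / 2 / 2) ^ C * n ≤ K * m) :
    (lam / (2 * K)) ^ (5 * C + 2) * N * n ^ (1 / α) ≤ S := by
  have hN0 : (0 : ℝ) < N := by exact_mod_cast hN
  have hK0 : (1 : ℝ) ≤ K := by exact_mod_cast hK
  have hT0 : 0 < T := by rw [hT]; positivity
  set x : ℝ := 2 / lam with hx
  have hx2 : 2 ≤ x := by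
    rw [hx, le_div_iff₀ hl0]; linarith
  have hx0 : 0 < x := by linarith
  have hlx : 1 / (lam / 2) = x := by rw [hx]; field_simp
  rw [hlx] at h1
  have he : Real.exp 1 ≤ x ^ 2 := by
    have := Real.exp_one_lt_d9
    nlinarith
  -- m ≤ T^α (e x)^C
  have h3 : m ≤ T ^ α * (Real.exp 1 * x) ^ C := by
    have h4 : (Real.exp 1 * x) ^ C = Real.exp (C * (1 + Real.log x)) := by
      rw [mul_comm (C : ℝ), Real.exp_mul, Real.exp_add, Real.exp_log hx0, Real.rpow_natCast]
    rw [h4, Real.rpow_def_of_pos hT0, ← Real.exp_add, ← Real.exp_log hm]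
    exact Real.exp_le_exp.mpr (by linarith)
  have h5 : lam / 2 / 2 = (2 * x)⁻¹ := by
    rw [hx]; field_simp
  rw [h5] at h2
  have h6 : n ≤ (2 * x) ^ C * (K * m) := by
    have h7 : (0 : ℝ) < (2 * x) ^ C := by positivity
    rw [inv_pow, inv_mul_le_iff₀ h7] at h2
    exact h2
  -- n ≤ W T^α
  set W : ℝ := (2 * x) ^ C * (K * (Real.exp 1 * x) ^ C) with hW
  have hW1 : 1 ≤ W := by
    have e1 : 1 ≤ Real.exp 1 * x := by
      have := Real.add_one_le_exp (1 : ℝ)
      nlinarith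
    have e2 : (1 : ℝ) ≤ (2 * x) ^ C := one_le_pow₀ (by linarith)
    have e3 : (1 : ℝ) ≤ (Real.exp 1 * x) ^ C := one_le_pow₀ e1
    have e4 : (1 : ℝ) ≤ K * (Real.exp 1 * x) ^ C := one_le_mul_of_one_le_of_one_le hK0 e3
    exact one_le_mul_of_one_le_of_one_le e2 e4
  have h8 : n ≤ W * T ^ α := by
    calc n ≤ (2 * x) ^ C * (K * m) := h6
      _ ≤ (2 * x) ^ C * (K * (T ^ α * (Real.exp 1 * x) ^ C)) := by gcongr
      _ = W * T ^ α := by rw [hW]; ring
  have hα0 : 0 < α := by linarith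
  have h9 : n ^ (1 / α) ≤ W * T := by
    calc n ^ (1 / α) ≤ (W * T ^ α) ^ (1 / α) := Real.rpow_le_rpow hn.le h8 (by positivity)
      _ = W ^ (1 / α) * T := by
          rw [Real.mul_rpow (by linarith) (by positivity), ← Real.rpow_mul hT0.le,
            mul_one_div_cancel hα0.ne', Real.rpow_one]
      _ ≤ W * T := by
          refine mul_le_mul_of_nonneg_right ?_ hT0.le
          calc W ^ (1 / α) ≤ W ^ (1 : ℝ) :=
                Real.rpow_le_rpow_of_exponent_le hW1 (by rw [div_le_one hα0]; exact hα)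
            _ = W := Real.rpow_one W
  have h10 : W * (2 * x) ≤ (K * x) ^ (5 * C + 2) := by
    have e1 : 2 * x ≤ x ^ 2 := by nlinarith
    have e2 : Real.exp 1 * x ≤ x ^ 3 := by nlinarith
    calc W * (2 * x) ≤ ((x ^ 2) ^ C * (K * (x ^ 3) ^ C)) * x ^ 2 := by
          rw [hW]
          have := Real.exp_pos 1
          gcongr
      _ = K * x ^ (5 * C + 2) := by
          rw [← pow_mul, ← pow_mul]; ring
      _ ≤ K ^ (5 * C + 2) * x ^ (5 * C + 2) := by
          refine mul_le_mul_of_nonneg_right ?_ (by positivity)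
          calc (K : ℝ) = K ^ 1 := (pow_one _).symm
            _ ≤ K ^ (5 * C + 2) := pow_le_pow_right₀ hK0 (by omega)
      _ = (K * x) ^ (5 * C + 2) := (mul_pow _ _ _).symm
  have h11 : (N : ℝ) * n ^ (1 / α) ≤ (K * x) ^ (5 * C + 2) * S := by
    calc (N : ℝ) * n ^ (1 / α) ≤ N * (W * T) := by gcongr
      _ = W * (2 * x) * S := by
          rw [hT, hx]; field_simp; ring
      _ ≤ (K * x) ^ (5 * C + 2) * S := by gcongr
  have h12 : lam / (2 * K) = (K * x)⁻¹ := by
    rw [hx]; field_simp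
  have h13 : (0 : ℝ) < (K * x) ^ (5 * C + 2) := by positivity
  rw [h12, inv_pow, mul_assoc, inv_mul_le_iff₀ h13]
  exact h11

/-- the theorem for fixed data -/
private theorem dt_core {d : ℕ} {α : ℝ} (hα : 1 ≤ α) (k C : ℕ)
    (hflex : ∀ (N : ℕ) (lam : ℝ) (ι : Type) (I : Finset ι) (A : ι → Finset ℕ), 1 ≤ N → 0 < lam →
      lam ≤ 1 → I.Nonempty → (∀ i ∈ I, A i ⊆ range N) → (∀ i ∈ I, lam * N ≤ (A i).card) →
      ∃ (F : Finset ℕ) (J : Finset ι), J ⊆ I ∧ (lam / 2) ^ C * I.card ≤ J.card ∧ F.card ≤ k ∧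
        (∀ i ∈ J, F ⊆ A i) ∧ RI d N α (C * (1 + Real.log (1 / lam))) F)
    (N : ℕ) (lam : ℝ) (K : ℕ)
    (ι : Type) [Fintype ι] [Nonempty ι] (a b : ι → Fin d → ℤ) (A : ι → Finset ℕ) (hN : 1 ≤ N)
    (hl0 : 0 < lam) (hl1 : lam ≤ 1) (hK : 1 ≤ K) (hb : ∀ i k, |(b i k : ℝ)| ≤ N)
    (hmul : ∀ (v : Fin d → ℤ) (s : Finset ι), (∀ i ∈ s, b i = v) → s.card ≤ K)
    (hA : ∀ i, A i ⊆ range N) (hAc : ∀ i, lam * N ≤ (A i).card)
    (Y : ℕ → Finset (Fin d → ℤ)) (hY : ∀ i, ∀ j ∈ A i, fl (pt (a i) (b i) ((j : ℝ) / N)) ∈ Y j)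
    (S : ℝ) (hS : S = ∑ j ∈ range N, ((Y j).card : ℝ)) :
    (lam / (2 * K)) ^ (5 * C + 2) * N * (Fintype.card ι : ℝ) ^ (1 / α) ≤ S := by
  classical
  have hN0 : (0 : ℝ) < N := by exact_mod_cast hN
  have hY1 : ∀ i, ∀ j ∈ A i, (1 : ℝ) ≤ (Y j).card := by
    intro i j hj
    have : 0 < (Y j).card := card_pos.mpr ⟨_, hY i j hj⟩
    exact_mod_cast this
  have hS0 : 0 < S := by
    obtain ⟨i⟩ := (inferInstance : Nonempty ι)
    have h1 : lam * N ≤ S := by
      rw [hS]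
      calc lam * N ≤ (A i).card := hAc i
        _ = ∑ j ∈ A i, (1 : ℝ) := by simp
        _ ≤ ∑ j ∈ A i, ((Y j).card : ℝ) := sum_le_sum fun j hj => hY1 i j hj
        _ ≤ ∑ j ∈ range N, ((Y j).card : ℝ) :=
            sum_le_sum_of_subset_of_nonneg (hA i) fun j _ _ => Nat.cast_nonneg _
    exact lt_of_lt_of_le (by positivity) h1
  obtain ⟨T, hT⟩ : ∃ T : ℝ, T = 4 / lam * S / N := ⟨_, rfl⟩
  have hT0 : 0 < T := by
    rw [hT]; exact div_pos (mul_pos (div_pos four_pos hl0) hS0) hN0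
  obtain ⟨Hv, hHv⟩ : ∃ Hv : Finset ℕ, Hv = (range N).filter fun j => T < ((Y j).card : ℝ) :=
    ⟨_, rfl⟩
  have hHv1 : (Hv.card : ℝ) ≤ lam / 4 * N := by
    have h1 := dt_heavy (fun j => ((Y j).card : ℝ)) (fun j => Nat.cast_nonneg _) N T
    rw [← hS, ← hHv] at h1
    have h3 : lam / 4 * N * T = S := by
      rw [hT]; exact dt_cancel hl0 hN0 S
    exact le_of_mul_le_mul_right (h1.trans h3.ge) hT0
  have hA' : ∀ i, lam / 2 * N ≤ ((A i \ Hv).card : ℝ) := by
    intro i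
    have h1 : (A i).card ≤ (A i \ Hv).card + Hv.card := by
      have := card_le_card_sdiff_add_card (s := A i) (t := Hv)
      exact this
    have h2 : ((A i).card : ℝ) ≤ (A i \ Hv).card + Hv.card := by exact_mod_cast h1
    have h3 := hAc i
    have h4 : 0 < lam * N := by positivity
    linarith
  obtain ⟨F, J, -, hJc, -, hFJ, hRI⟩ := hflex N (lam / 2) ι univ (fun i => A i \ Hv) hN
    (by linarith) (by linarith) univ_nonempty (fun i _ => sdiff_subset.trans (hA i))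
    (fun i _ => hA' i)
  have hn : (0 : ℝ) < Fintype.card ι := by exact_mod_cast Fintype.card_pos
  rw [card_univ] at hJc
  have hJ : J.Nonempty := by
    rw [nonempty_iff_ne_empty]
    rintro rfl
    rw [card_empty, Nat.cast_zero] at hJc
    have : (0 : ℝ) < (lam / 2 / 2) ^ C * Fintype.card ι := by positivity
    linarith
  have h1 := dt_ri hRI a b J hJ hb T Y
    (fun t ht i hi => hY i t (mem_sdiff.mp (hFJ i hi ht)).1)
    (fun t ht => by
      obtain ⟨i, hi⟩ := hJ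
      have h2 := mem_sdiff.mp (hFJ i hi ht)
      by_contra hc
      push Not at hc
      refine h2.2 ?_
      rw [hHv]
      exact mem_filter.mpr ⟨hA i h2.1, hc⟩)
  have h2 : J.card ≤ K * (J.image b).card :=
    card_le_mul_card_image J K fun v _ => hmul v _ fun i hi => (mem_filter.mp hi).2
  have h3 : (lam / 2 / 2) ^ C * (Fintype.card ι : ℝ) ≤ K * ((J.image b).card : ℝ) := by
    refine hJc.trans ?_
    exact_mod_cast h2
  have h4 : (0 : ℝ) < (J.image b).card := by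
    exact_mod_cast card_pos.mpr (hJ.image b)
  exact dt_num hα hN hl0 hl1 hK hn hT hS0 _ h4 h1 h3

theorem DT {d : ℕ} {α : ℝ} (hα : 1 ≤ α) (hF : Flex d α) : ∃ C : ℕ, ∀ (N : ℕ) (lam : ℝ) (K : ℕ)
    (ι : Type) [Fintype ι] (a b : ι → Fin d → ℤ) (A : ι → Finset ℕ), 1 ≤ N → 0 < lam → lam ≤ 1 →
    1 ≤ K → (∀ i k, |(b i k : ℝ)| ≤ N) →
    (∀ (v : Fin d → ℤ) (s : Finset ι), (∀ i ∈ s, b i = v) → s.card ≤ K) →
    (∀ i, A i ⊆ range N) → (∀ i, lam * N ≤ (A i).card) →
    (lam / (2 * K)) ^ C * N * (Fintype.card ι : ℝ) ^ (1 / α) ≤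
      ∑ j ∈ range N, (((univ.filter fun i => j ∈ A i).image
        fun i => fl (pt (a i) (b i) ((j : ℝ) / N))).card : ℝ) := by
  obtain ⟨k, C, hflex⟩ := hF
  refine ⟨5 * C + 2, ?_⟩
  intro N lam K ι _ a b A hN hl0 hl1 hK hb hmul hA hAc
  have hα0 : 0 < α := by linarith
  rcases isEmpty_or_nonempty ι with hι | hι
  · rw [Fintype.card_eq_zero, Nat.cast_zero, Real.zero_rpow (one_div_ne_zero hα0.ne'), mul_zero]
    exact sum_nonneg fun j _ => Nat.cast_nonneg _
  exact dt_core hα k C hflex N lam K ι a b A hN hl0 hl1 hK hb hmul hA hAc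
    (fun j => (univ.filter fun i => j ∈ A i).image
      fun i => fl (pt (a i) (b i) ((j : ℝ) / N)))
    (fun i j hj => mem_image_of_mem _ (mem_filter.mpr ⟨mem_univ i, hj⟩)) _ rfl

end Pool.Agent.MPac5134.KH
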