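import Pool.Agent.Lib.MP_ac5134_an.SD.Fib
import Pool.Agent.Lib.MP_ac5134_an.SD.P3

/-!
# KH: lines at real heights (definitions)

A line of `R^d × R` in units of the small scale: `t ↦ a + t b`, `a, b` integer vectors, `|b| ≤ N`,
heights `t ∈ [0, 1]`.  `fl x` is the cell (floor) of a point `x`.  The entropy inequalities are the
ones of Katz and Tao (path of three lines, pair of lines), with rounding errors.
-/

open RFold Finset

namespace Pool.Agent.MPac5134.KH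

/-- the cell of a point -/
noncomputable def fl {d : ℕ} (x : Fin d → ℝ) : Fin d → ℤ := fun k => ⌊x k⌋

/-- the point at height `t` of the line `(a, b)` -/
noncomputable def pt {d : ℕ} (a b : Fin d → ℤ) (t : ℝ) : Fin d → ℝ := fun k => (a k : ℝ) + t * (b k : ℝ)

/-- all rounding costs are at most this -/
noncomputable def cst (d : ℕ) (η : ℝ) : ℝ := d * Real.log (20 / η ^ 2 + 1)

/-- a finite random line with integer data -/
structure LS (d : ℕ) (Ω : Type) [Fintype Ω] where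
  p : Ω → ℝ
  A : Ω → Fin d → ℤ
  B : Ω → Fin d → ℤ
  hp : IsPr p

namespace LS

variable {d : ℕ} {Ω : Type} [Fintype Ω] (S : LS d Ω)

/-- the cell of the point at height `t` -/
noncomputable def P (t : ℝ) (ω : Ω) : Fin d → ℤ := fl (pt (S.A ω) (S.B ω) t)

/-- the line -/
def L (ω : Ω) : (Fin d → ℤ) × (Fin d → ℤ) := (S.A ω, S.B ω)

/-- entropy of the slice at height `t` -/
noncomputable def H (t : ℝ) : ℝ := ent S.p (S.P t)

/-- entropy of the line -/
noncomputable def h : ℝ := ent S.p S.L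

/-- entropy of the line given its direction -/
noncomputable def kap : ℝ := cent S.p S.A S.B

/-- two lines through a common cell at height `τ` -/
noncomputable def v (τ : ℝ) : Ω × Ω → ℝ := SD.gl S.p S.p (S.P τ) (S.P τ)

/-- a path of three lines: 1 and 2 meet at height `t₀`, 2 and 3 meet at height `t₁` -/
noncomputable def w3 (t₀ t₁ : ℝ) : (Ω × Ω) × Ω → ℝ :=
  SD.gl (S.v t₀) S.p (fun x => S.P t₁ x.2) (S.P t₁)

/-- two lines meeting at height `τ`: entropy of the points at height `x` on the first and at height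
`y` on the second line -/
noncomputable def G (τ x y : ℝ) : ℝ := ent (S.v τ) (fun z => (S.P x z.1, S.P y z.2))

/-- the functional `P t₀ (first line) + κ B (second line)` -/
noncomputable def F (t₀ κ : ℝ) (x : Ω × Ω) : Fin d → ℤ :=
  fl (fun k => pt (S.A x.1) (S.B x.1) t₀ k + κ * (S.B x.2 k : ℝ))

/-- its entropy for two lines meeting at height `t₁` -/
noncomputable def sig (t₁ t₀ κ : ℝ) : ℝ := ent (S.v t₁) (S.F t₀ κ)

/-- the functional `P u (line 1) + c B (line 3)` of a path -/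
noncomputable def M (u c : ℝ) (x : (Ω × Ω) × Ω) : Fin d → ℤ :=
  fl (fun k => pt (S.A x.1.1) (S.B x.1.1) u k + c * (S.B x.2 k : ℝ))

end LS

/-- The inequality `H(B) ≤ α s + C (1 + k)` for all (families of) random lines whose slices at the
heights `j / N`, `j ∈ F`, have (average) entropy at most `s`; `k` bounds the entropy of the line
given the direction. -/
def RI (d N : ℕ) (α C : ℝ) (F : Finset ℕ) : Prop :=
  F.Nonempty ∧ ∀ (I Ω : Type) [Fintype I] [Fintype Ω] (w : I → ℝ) (S : I → LS d Ω) (k s : ℝ),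
    (∀ i, 0 ≤ w i) → ∑ i, w i = 1 → (∀ i ω j, |((S i).B ω j : ℝ)| ≤ N) →
    ∑ i, w i * (S i).kap ≤ k → (∀ t ∈ F, ∑ i, w i * (S i).H ((t : ℝ) / N) ≤ s) →
    ∑ i, w i * ent (S i).p (S i).B ≤ α * s + C * (1 + k)

/-- the heights `a / N` and `b / N` have distance at least `η` -/
def sep (N : ℕ) (η : ℝ) (a b : ℕ) : Prop := η * N ≤ |(a : ℝ) - b|

/-- The relation of the heights (in units `1/N`):
`(z - t₀) (q - t₁) / (z - t₁)` is close to `c (p - t₀) / (p - u)`. -/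
def Rel (η : ℝ) (t₀ u t₁ : ℕ) (c : ℝ) (p q z : ℕ) : Prop :=
  |((z : ℝ) - t₀) * (q - t₁) / (z - t₁) - c * (p - t₀) / (p - u)| ≤ 1 / η

/-- Trees of heights. -/
def Tree (d N : ℕ) (α C η : ℝ) (H : Finset ℕ) : ℕ → ℕ → ℕ → ℕ → Prop
  | 0, t₀, u, t₁ => t₀ ∈ H ∧ u ∈ H ∧ t₁ ∈ H
  | n + 1, t₀, u, t₁ => (t₀ ∈ H ∧ u ∈ H ∧ t₁ ∈ H) ∧ sep N η t₀ t₁ ∧ sep N η t₀ u ∧
      ∃ (c : ℝ) (P : Finset ℕ), η * N ≤ |c| ∧ P ⊆ H ∧ RI d N α C P ∧
        ∀ p ∈ P, sep N η p t₀ ∧ sep N η p u ∧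
          ∃ Q : Finset ℕ, Q ⊆ H ∧ RI d N α C Q ∧
            ∀ q ∈ Q, ∃ z ∈ H, sep N η q t₁ ∧ sep N η z t₁ ∧ sep N η z t₀ ∧
              Rel η t₀ u t₁ c p q z ∧ Tree d N α C η H n t₁ z q

/-- the improvement map of Katz and Tao -/
noncomputable def Psi (α : ℝ) : ℝ := (3 * α ^ 2 + 2 * α - 2) / (α ^ 2 + 3 * α - 2)

/-- Every family of dense sets of heights has a large subfamily with a common finite set of heights
for which the inequality with exponent `α` holds. -/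
def Flex (d : ℕ) (α : ℝ) : Prop :=
  ∃ k C : ℕ, ∀ (N : ℕ) (lam : ℝ) (ι : Type) (I : Finset ι) (A : ι → Finset ℕ), 1 ≤ N → 0 < lam →
    lam ≤ 1 → I.Nonempty → (∀ i ∈ I, A i ⊆ range N) → (∀ i ∈ I, lam * N ≤ (A i).card) →
    ∃ (F : Finset ℕ) (J : Finset ι), J ⊆ I ∧ (lam / 2) ^ C * I.card ≤ J.card ∧ F.card ≤ k ∧
      (∀ i ∈ J, F ⊆ A i) ∧ RI d N α (C * (1 + Real.log (1 / lam))) F

/-- the good parameters `c` are searched in this set -/
noncomputable def cr (N : ℕ) (η : ℝ) : Finset ℤ := Icc (-⌈N / η ^ 2⌉) ⌈N / η ^ 2⌉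

open Classical in
/-- The good triples `(t₀, u, t₁)` of a set `A` of heights. -/
def GG (N : ℕ) (η : ℝ) (A : Finset ℕ) : ℕ → ℕ → ℕ → ℕ → Prop
  | 0, t₀, u, t₁ => t₀ ∈ A ∧ u ∈ A ∧ t₁ ∈ A
  | n + 1, t₀, u, t₁ => (t₀ ∈ A ∧ u ∈ A ∧ t₁ ∈ A) ∧ sep N η t₀ t₁ ∧ sep N η t₀ u ∧
      η * N ≤ ((cr N η).filter fun c => η * N ≤ |(c : ℝ)| ∧
        η * N ≤ (A.filter fun p => sep N η p t₀ ∧ sep N η p u ∧
          η * N ≤ (A.filter fun q => sep N η q t₁ ∧ ∃ z ∈ A, sep N η z t₁ ∧ sep N η z t₀ ∧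
            Rel η t₀ u t₁ c p q z ∧ GG N η A n t₁ z q).card).card).card

end Pool.Agent.MPac5134.KH
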