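import Pool.Agent.Lib.MP_ac5134_an.KH.FlexS

/-!
# KH-FlexF: `Flex d 2` and the fixed point `Flex d 1.67514`

PROOF of `flex_two`: small `N` by `flex_small`.  Otherwise the pairs `(t, u) ∈ (A i)²` with
`sep N (lam/8) t u` are at least `lam² N² - (lam N/4 + 1) N ≥ lam² N²/8...` many (`card_near`; count), so some
pair is popular (`popular` over `range N ×ˢ range N`); `RI_two` with `η = lam/8`, `cst_le`, `RI.mono`.

PROOF of `flex_mono`: `RI.mono`.

PROOF of `flex_kt`: the set `S` of `α ∈ [1.67514, 2]` with `Flex d α` contains `2` (`flex_two`); let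
`a = sInf S`.  `Psi x ≤ x - 10⁻⁶` for `1.67514 ≤ x ≤ 2` (`Psi 1.67514 = 1.6751331..`; polynomial inequality
`3x² + 2x - 2 ≤ (x - 10⁻⁶)(x² + 3x - 2)`, put `x = 1.67514 + t`).  Take `x ∈ S` with `x < a + 10⁻⁷`; then
`Flex d (x - 10⁻⁶ + 10⁻⁷)`; if this exponent is `≥ 1.67514` it is in `S` and smaller than `a`, impossible; so it
is `< 1.67514` and `flex_mono` gives the claim.  (See `exists_F_of_step` in `SD/Fix.lean`.)
-/

open Finset

namespace Pool.Agent.MPac5134.KH

open Classical in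
/-- a dense set has many well separated pairs -/
theorem many_pairs {N : ℕ} {lam : ℝ} (h0 : 0 < lam) (h1 : lam ≤ 1) (hN : 4 ≤ lam * N)
    {A : Finset ℕ} (hA : A ⊆ range N) (hc : lam * N ≤ A.card) :
    lam ^ 2 / 2 * (N : ℝ) ^ 2 ≤ (((range N ×ˢ range N).filter fun y : ℕ × ℕ =>
      y.1 ∈ A ∧ y.2 ∈ A ∧ sep N (lam / 8) y.1 y.2).card : ℝ) := by
  have hsub : (A.sigma fun u => A.filter fun t => sep N (lam / 8) t u).card ≤
      ((range N ×ˢ range N).filter fun y : ℕ × ℕ =>
        y.1 ∈ A ∧ y.2 ∈ A ∧ sep N (lam / 8) y.1 y.2).card := by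
    apply card_le_card_of_injOn (fun z => ((z.2 : ℕ), z.1))
    · rintro ⟨u, t⟩ hz
      simp only [coe_sigma, coe_filter, Set.mem_sigma_iff, mem_coe, Set.mem_setOf_eq] at hz
      simp only [coe_filter, Set.mem_setOf_eq, mem_product]
      exact ⟨⟨hA hz.2.1, hA hz.1⟩, hz.2.1, hz.1, hz.2.2⟩
    · rintro ⟨u, t⟩ _ ⟨u', t'⟩ _ h
      simp only [Prod.mk.injEq] at h
      obtain ⟨h1, h2⟩ := h
      subst h1; subst h2; rfl
  have hsum : (A.sigma fun u => A.filter fun t => sep N (lam / 8) t u).card =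
      ∑ u ∈ A, (A.filter fun t => sep N (lam / 8) t u).card := card_sigma _ _
  have hone : ∀ u ∈ A, lam * N / 2 ≤ ((A.filter fun t => sep N (lam / 8) t u).card : ℝ) := by
    intro u hu
    have h2 : ((A.filter fun t => ¬ sep N (lam / 8) t u).card : ℝ) ≤ 2 * (lam / 8) * N + 1 := by
      apply card_near (by positivity) u
      intro x hx
      exact (mem_filter.1 hx).2
    have h3 : (A.filter fun t => sep N (lam / 8) t u).card +
        (A.filter fun t => ¬ sep N (lam / 8) t u).card = A.card :=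
      card_filter_add_card_filter_not _
    have h4 : ((A.filter fun t => sep N (lam / 8) t u).card : ℝ) +
        ((A.filter fun t => ¬ sep N (lam / 8) t u).card : ℝ) = A.card := by
      exact_mod_cast h3
    linarith
  have h5 : (A.card : ℝ) * (lam * N / 2) ≤
      ∑ u ∈ A, ((A.filter fun t => sep N (lam / 8) t u).card : ℝ) := by
    have := card_nsmul_le_sum A (fun u => ((A.filter fun t => sep N (lam / 8) t u).card : ℝ))
      (lam * N / 2) hone
    simpa [nsmul_eq_mul] using this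
  have h6 : (∑ u ∈ A, ((A.filter fun t => sep N (lam / 8) t u).card : ℝ)) ≤
      (((range N ×ˢ range N).filter fun y : ℕ × ℕ =>
        y.1 ∈ A ∧ y.2 ∈ A ∧ sep N (lam / 8) y.1 y.2).card : ℝ) := by
    have := hsum ▸ hsub
    exact_mod_cast this
  have h7 : lam * N * (lam * N / 2) ≤ (A.card : ℝ) * (lam * N / 2) :=
    mul_le_mul_of_nonneg_right hc (by linarith)
  calc lam ^ 2 / 2 * (N : ℝ) ^ 2 = lam * N * (lam * N / 2) := by ring
    _ ≤ _ := h7
    _ ≤ _ := h5
    _ ≤ _ := h6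

theorem flex_two (d : ℕ) : Flex d 2 := by
  classical
  obtain ⟨Cs, hCs⟩ := flex_small (d := d) (α := 2) (by norm_num) 2
  refine ⟨2, Cs + 9 * d + 2, ?_⟩
  intro N lam ι I A hN h0 h1 hI hA hc
  have hlog : 0 ≤ Real.log (1 / lam) := Real.log_nonneg (by rw [le_div_iff₀ h0]; linarith)
  have hl2 : 0 < lam / 2 := by positivity
  have hl2' : lam / 2 ≤ 1 := by linarith
  have hIc : (0 : ℝ) ≤ I.card := Nat.cast_nonneg _
  rcases le_or_gt (N : ℝ) ((2 / lam) ^ 2) with hs | hs
  · obtain ⟨F, J, hJ, hJc, hF, hFA, hRI⟩ := hCs N lam ι I A hN h0 h1 hs hI hA hc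
    refine ⟨F, J, hJ, ?_, by omega, hFA, hRI.mono le_rfl ?_⟩
    · refine le_trans (mul_le_mul_of_nonneg_right ?_ hIc) hJc
      exact pow_le_pow_of_le_one hl2.le hl2' (by omega)
    · refine mul_le_mul_of_nonneg_right ?_ (by linarith)
      push_cast
      have : (0 : ℝ) ≤ d := Nat.cast_nonneg _
      linarith
  · have hN4 : 4 ≤ lam * N := by
      have e : (2 / lam) ^ 2 = 4 / lam ^ 2 := by
        rw [div_pow]; norm_num
      rw [e, div_lt_iff₀ (by positivity)] at hs
      have hNn : (0 : ℝ) ≤ N := Nat.cast_nonneg _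
      have : (N : ℝ) * lam ^ 2 ≤ N * lam := by
        apply mul_le_mul_of_nonneg_left _ hNn
        nlinarith
      linarith
    have hNpos : (0 : ℝ) < N := by
      have : (1 : ℝ) ≤ N := by exact_mod_cast hN
      linarith
    obtain ⟨⟨t, u⟩, hy, hyc⟩ := popular I hI (range N ×ˢ range N)
      (fun i (y : ℕ × ℕ) => y.1 ∈ A i ∧ y.2 ∈ A i ∧ sep N (lam / 8) y.1 y.2)
      (a := lam ^ 2 / 2 * (N : ℝ) ^ 2) (K := (N : ℝ) ^ 2) (by positivity) (by positivity)
      (by
        rw [card_product, card_range]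
        push_cast
        exact le_of_eq (by ring))
      (fun i hi => by
        have := many_pairs h0 h1 hN4 (hA i hi) (hc i hi)
        refine this.trans (le_of_eq ?_)
        congr!)
    have hyc' : lam ^ 2 / 2 * (N : ℝ) ^ 2 / (N : ℝ) ^ 2 * I.card ≤
        ((I.filter fun i => t ∈ A i ∧ u ∈ A i ∧ sep N (lam / 8) t u).card : ℝ) := by
      refine hyc.trans (le_of_eq ?_)
      congr!
    have hJne : (I.filter fun i => t ∈ A i ∧ u ∈ A i ∧ sep N (lam / 8) t u).Nonempty := by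
      rw [← card_pos]
      have h3 : 0 < lam ^ 2 / 2 * (N : ℝ) ^ 2 / (N : ℝ) ^ 2 * I.card := by
        have : (0 : ℝ) < I.card := by exact_mod_cast card_pos.2 hI
        positivity
      have h4 := lt_of_lt_of_le h3 hyc'
      exact_mod_cast h4
    obtain ⟨i₀, hi₀⟩ := hJne
    have hsep : sep N (lam / 8) t u := (mem_filter.1 hi₀).2.2.2
    refine ⟨{t, u}, I.filter fun i => t ∈ A i ∧ u ∈ A i ∧ sep N (lam / 8) t u,
      filter_subset _ _, ?_, ?_, ?_, ?_⟩
    · refine le_trans (mul_le_mul_of_nonneg_right ?_ hIc) hyc'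
      have e : lam ^ 2 / 2 * (N : ℝ) ^ 2 / (N : ℝ) ^ 2 = lam ^ 2 / 2 := by
        field_simp
      rw [e]
      calc (lam / 2) ^ (Cs + 9 * d + 2) ≤ (lam / 2) ^ 2 :=
            pow_le_pow_of_le_one hl2.le hl2' (by omega)
        _ = lam ^ 2 / 4 := by ring
        _ ≤ lam ^ 2 / 2 := by
            have : 0 ≤ lam ^ 2 := by positivity
            linarith
    · exact card_le_two
    · intro i hi x hx
      have h2 := (mem_filter.1 hi).2
      rw [mem_insert, mem_singleton] at hx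
      rcases hx with rfl | rfl
      · exact h2.1
      · exact h2.2.1
    · refine (RI_two hN (η := lam / 8) (by positivity) (by linarith) hsep).mono le_rfl ?_
      refine (cst_le d (η := lam / 8) (by positivity) (by linarith)).trans ?_
      have e : Real.log (1 / (lam / 8)) = Real.log 8 + Real.log (1 / lam) := by
        rw [← Real.log_mul (by norm_num) (by positivity)]
        congr 1
        field_simp
      have e8 : Real.log 8 = 3 * Real.log 2 := by
        rw [show (8 : ℝ) = 2 ^ 3 by norm_num, Real.log_pow]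
        norm_num
      have hlt := Real.log_two_lt_d9
      have hd : (0 : ℝ) ≤ d := Nat.cast_nonneg _
      have hCs0 : (0 : ℝ) ≤ Cs := Nat.cast_nonneg _
      rw [e, e8]
      push_cast
      have hA1 : (d : ℝ) * (4 + 2 * (3 * Real.log 2 + Real.log (1 / lam))) ≤
          d * (9 * (1 + Real.log (1 / lam))) := by
        apply mul_le_mul_of_nonneg_left _ hd
        linarith
      have hA2 : 0 ≤ ((Cs : ℝ) + 2) * (1 + Real.log (1 / lam)) := by positivity
      nlinarith [hA1, hA2]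

theorem flex_mono {d : ℕ} {α β : ℝ} (h : Flex d α) (hαβ : α ≤ β) : Flex d β := by
  obtain ⟨k, C, h⟩ := h
  refine ⟨k, C, ?_⟩
  intro N lam ι I A hN h0 h1 hI hA hc
  obtain ⟨F, J, hJ, hJc, hF, hFA, hRI⟩ := h N lam ι I A hN h0 h1 hI hA hc
  exact ⟨F, J, hJ, hJc, hF, hFA, hRI.mono hαβ le_rfl⟩

/-- the improvement is at least `10⁻⁶` above `1.67514` -/
theorem psi_le_sub {x : ℝ} (h1 : 1.67514 ≤ x) : Psi x ≤ x - 1 / 10 ^ 6 := by
  have hD : 0 < x ^ 2 + 3 * x - 2 := by nlinarith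
  unfold Psi
  rw [div_le_iff₀ hD]
  obtain ⟨t, ht⟩ : ∃ t : ℝ, t = x - 1.67514 := ⟨_, rfl⟩
  have ht0 : 0 ≤ t := by linarith
  have hx : x = 1.67514 + t := by linarith
  rw [hx]
  have h2 : 0 ≤ t ^ 2 := by positivity
  have h3 : 0 ≤ t ^ 3 := by positivity
  nlinarith

theorem flex_kt (d : ℕ) : Flex d 1.67514 := by
  obtain ⟨S, hS⟩ : ∃ S : Set ℝ, S = {α | 1.67514 ≤ α ∧ α ≤ 2 ∧ Flex d α} := ⟨_, rfl⟩
  have h2S : (2 : ℝ) ∈ S := by
    rw [hS]
    exact ⟨by norm_num, le_rfl, flex_two d⟩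
  have hbdd : BddBelow S := ⟨1.67514, by rw [hS]; exact fun x hx => hx.1⟩
  obtain ⟨α, hαS, hα⟩ := exists_lt_of_csInf_lt (b := sInf S + 1 / (2 * 10 ^ 6)) ⟨2, h2S⟩
    (by norm_num)
  have hαS' := hαS
  rw [hS] at hαS'
  obtain ⟨hα1, hα2, hF⟩ := hαS'
  have hF' := flex_step (ε := 1 / 10 ^ 7) (by linarith) hα2 (by norm_num) hF
  have hpsi := psi_le_sub hα1
  rcases le_or_gt (Psi α + 1 / 10 ^ 7) 1.67514 with h | h
  · exact flex_mono hF' h
  · exfalso
    have : Psi α + 1 / 10 ^ 7 ∈ S := by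
      rw [hS]
      exact ⟨h.le, by linarith, hF'⟩
    have h3 := csInf_le hbdd this
    have : (1 : ℝ) / (2 * 10 ^ 6) + 1 / 10 ^ 7 < 1 / 10 ^ 6 := by norm_num
    linarith

end Pool.Agent.MPac5134.KH
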