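import Pool.Agent.Lib.MP_ac5134_an.KH.GStA

/-!
# KH-GDens: a dense set of heights has many good triples

PROOF of `GG_step`: by `pig` (over `t₁ ∈ range N`, `a = θ N³`, `B = N²`, `K = N`) at least `(θ/2) N` of the
`t₁` have at least `(θ/2) N²` pairs `(z, q)` with `GG N θ A n t₁ z q`; these `t₁` are in `A` (`GG.mem`, the
number of pairs is positive).  For such a `t₁` all `(t₀, u) ∈ A²` with `sep N (θ^5)` for `(t₀, t₁)` and
`(t₀, u)` are good (`good_of_many`); there are at least `θ² N² - 2 (2 θ^5 N + 1) N ≥ (θ²/4) N²` of them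
(`card_near`).  So `(θ³/8) N³ ≥ θ^40 N³` good triples.

PROOF of `GG_dense`: induction on `n`; `n = 0`: `A³`, `C = 3`.  `n + 1`: `C' = 40 C + 3`... any
`C' ≥ 40 C` with `(lam/2)^C' ≤ ((lam/2)^C)^40` works (`GG.mono`); use `GG_step` with `θ = (lam/2)^C`
(if `C = 0` take `C = 1` first).
-/

open Finset

namespace Pool.Agent.MPac5134.KH

private theorem gd_sep_comm {N : ℕ} {η : ℝ} {a b : ℕ} (h : sep N η a b) : sep N η b a := by
  unfold sep at *
  rw [abs_sub_comm]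
  exact h

private theorem gd_card_sep {N : ℕ} {θ : ℝ} (h0 : 0 < θ) (h1 : θ ≤ 1 / 2) {A : Finset ℕ}
    (hcard : θ * N ≤ A.card) (hN : 1 ≤ θ ^ 40 * N) (a : ℕ)
    [DecidablePred fun x => sep N (θ ^ 5) x a] :
    θ / 2 * N ≤ ((A.filter fun x => sep N (θ ^ 5) x a).card : ℝ) := by
  have h2 := card_near (θ := θ ^ 5) (N := N) (by positivity) a
    (A.filter fun x => ¬ sep N (θ ^ 5) x a) (fun x hx => (Finset.mem_filter.mp hx).2)
  have h3' : (A.filter fun x => sep N (θ ^ (5 : ℕ)) x a).card +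
      (A.filter fun x => ¬ sep N (θ ^ (5 : ℕ)) x a).card = A.card :=
    Finset.card_filter_add_card_filter_not _
  have h3 : ((A.filter fun x => sep N (θ ^ 5) x a).card : ℝ) +
      ((A.filter fun x => ¬ sep N (θ ^ 5) x a).card : ℝ) = A.card := by
    exact_mod_cast h3'
  have hN0 : (0 : ℝ) ≤ N := Nat.cast_nonneg N
  have h4 : θ ^ 5 ≤ θ / 16 := by
    have : θ ^ 4 ≤ (1 / 2) ^ 4 := pow_le_pow_left₀ h0.le h1 4
    have h5 : θ ^ 5 = θ * θ ^ 4 := by ring
    rw [h5]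
    nlinarith
  have h5 : θ ^ 40 ≤ θ / 16 := by
    have h6 : θ ^ 40 ≤ θ ^ 5 := pow_le_pow_of_le_one h0.le (by linarith) (by norm_num)
    linarith
  have h6 : θ ^ 5 * N ≤ θ / 16 * N := mul_le_mul_of_nonneg_right h4 hN0
  have h7 : θ ^ 40 * N ≤ θ / 16 * N := mul_le_mul_of_nonneg_right h5 hN0
  nlinarith [mul_nonneg h0.le hN0]

open Classical in
theorem GG_step {N n : ℕ} {θ : ℝ} (h0 : 0 < θ) (h1 : θ ≤ 1 / 2) {A : Finset ℕ}
    (hA : A ⊆ range N) (hcard : θ * N ≤ A.card) (hN : (1 / θ) ^ 40 ≤ N)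
    (hG : θ * (N : ℝ) ^ 3 ≤ ((range N ×ˢ range N ×ˢ range N).filter
      fun x => GG N θ A n x.1 x.2.1 x.2.2).card) :
    θ ^ 40 * (N : ℝ) ^ 3 ≤ ((range N ×ˢ range N ×ˢ range N).filter
      fun x => GG N (θ ^ 40) A (n + 1) x.1 x.2.1 x.2.2).card := by
  have hN1 : 1 ≤ θ ^ 40 * N := by
    have h2 : θ ^ 40 * (1 / θ) ^ 40 = 1 := by
      rw [← mul_pow, mul_one_div_cancel h0.ne', one_pow]
    calc (1 : ℝ) = θ ^ 40 * (1 / θ) ^ 40 := h2.symm
      _ ≤ θ ^ 40 * N := mul_le_mul_of_nonneg_left hN (by positivity)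
  have hNpos : (0 : ℝ) < N := by
    by_contra h
    have : (N : ℝ) = 0 := le_antisymm (not_lt.mp h) (Nat.cast_nonneg N)
    rw [this, mul_zero] at hN1
    linarith
  -- step 1
  set f : ℕ → ℝ := fun t₁ =>
    (((range N ×ˢ range N).filter fun x => GG N θ A n t₁ x.1 x.2).card : ℝ) with hf
  have hsum : θ * (N : ℝ) ^ 3 ≤ ∑ t₁ ∈ range N, f t₁ := by
    refine hG.trans (le_of_eq ?_)
    rw [Finset.card_filter, Finset.sum_product, Nat.cast_sum]
    refine Finset.sum_congr rfl fun t₁ _ => ?_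
    simp only [hf]
    rw [Finset.card_filter]
  have hfB : ∀ x ∈ range N, f x ≤ (N : ℝ) ^ 2 := by
    intro x _
    simp only [hf]
    have h2 : ((range N ×ˢ range N).filter fun y => GG N θ A n x y.1 y.2).card ≤ N ^ 2 := by
      refine (Finset.card_filter_le _ _).trans ?_
      rw [Finset.card_product, Finset.card_range, sq]
    exact_mod_cast h2
  have hp := pig (range N) f (a := θ * (N : ℝ) ^ 3) (B := (N : ℝ) ^ 2) (K := N) (by positivity)
    hNpos (by positivity) hfB (by rw [Finset.card_range]) hsum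
  have e1 : θ * (N : ℝ) ^ 3 / (2 * (N : ℝ) ^ 2) = θ / 2 * N := by
    field_simp
  have e2 : θ * (N : ℝ) ^ 3 / (2 * (N : ℝ)) = θ / 2 * (N : ℝ) ^ 2 := by
    field_simp
  simp only [e1, e2] at hp
  set T : Finset ℕ := (range N).filter fun x => θ / 2 * (N : ℝ) ^ 2 ≤ f x with hT
  have hTA : ∀ t₁ ∈ T, t₁ ∈ A := by
    intro t₁ ht
    rw [hT, Finset.mem_filter] at ht
    have h2 : (0 : ℝ) < f t₁ := lt_of_lt_of_le (by positivity) ht.2
    simp only [hf] at h2
    have h3 : 0 < ((range N ×ˢ range N).filter fun x => GG N θ A n t₁ x.1 x.2).card := by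
      exact_mod_cast h2
    obtain ⟨x, hx⟩ := Finset.card_pos.mp h3
    exact (Finset.mem_filter.mp hx).2.mem.1
  -- step 2
  set U : Finset (Σ _ : ℕ, Σ _ : ℕ, ℕ) := T.sigma fun t₁ =>
    (A.filter fun t₀ => sep N (θ ^ 5) t₀ t₁).sigma fun t₀ =>
      A.filter fun u => sep N (θ ^ 5) u t₀ with hU
  have hcardU : U.card ≤ ((range N ×ˢ range N ×ˢ range N).filter
      fun x => GG N (θ ^ 40) A (n + 1) x.1 x.2.1 x.2.2).card := by
    refine Finset.card_le_card_of_injOn (fun y => (y.2.1, y.2.2, y.1)) ?_ ?_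
    · intro y hy
      rw [Finset.mem_coe] at hy
      obtain ⟨hy1, hy'⟩ := Finset.mem_sigma.mp hy
      obtain ⟨hy2', hy4'⟩ := Finset.mem_sigma.mp hy'
      obtain ⟨hy2, hy3⟩ := Finset.mem_filter.mp hy2'
      obtain ⟨hy4, hy5⟩ := Finset.mem_filter.mp hy4'
      have hy6 := hTA _ hy1
      rw [hT, Finset.mem_filter] at hy1
      simp only [Finset.coe_filter, Set.mem_ofPred_eq, Finset.mem_product]
      refine ⟨⟨hA hy2, hA hy4, hA hy6⟩, ?_⟩
      exact good_of_many h0 h1 hA hcard hN hy2 hy4 hy6 hy3 (gd_sep_comm hy5) hy1.2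
    · rintro ⟨a, b, c⟩ _ ⟨a', b', c'⟩ _ h
      simp only [Prod.mk.injEq] at h
      obtain ⟨rfl, rfl, rfl⟩ := h
      rfl
  have hlow : θ / 2 * N * (θ / 2 * N * (θ / 2 * N)) ≤ (U.card : ℝ) := by
    rw [hU, Finset.card_sigma, Nat.cast_sum]
    have h2 : ∀ t₁ ∈ T, θ / 2 * N * (θ / 2 * N) ≤
        ((((A.filter fun t₀ => sep N (θ ^ 5) t₀ t₁).sigma fun t₀ =>
          A.filter fun u => sep N (θ ^ 5) u t₀).card : ℕ) : ℝ) := by
      intro t₁ _
      rw [Finset.card_sigma, Nat.cast_sum]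
      have h3 : ∀ t₀ ∈ (A.filter fun t₀ => sep N (θ ^ 5) t₀ t₁), θ / 2 * N ≤
          (((A.filter fun u => sep N (θ ^ 5) u t₀).card : ℕ) : ℝ) := fun t₀ _ =>
        gd_card_sep h0 h1 hcard hN1 t₀
      have h4 := Finset.card_nsmul_le_sum _ _ _ h3
      rw [nsmul_eq_mul] at h4
      refine le_trans ?_ h4
      exact mul_le_mul_of_nonneg_right (gd_card_sep h0 h1 hcard hN1 t₁) (by positivity)
    have h4 := Finset.card_nsmul_le_sum _ _ _ h2
    rw [nsmul_eq_mul] at h4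
    refine le_trans ?_ h4
    exact mul_le_mul_of_nonneg_right hp (by positivity)
  have hfin : θ ^ 40 * (N : ℝ) ^ 3 ≤ θ / 2 * N * (θ / 2 * N * (θ / 2 * N)) := by
    have h2 : θ ^ 40 ≤ θ ^ 3 / 8 := by
      have h3 : θ ^ 37 ≤ (1 / 2) ^ 37 := pow_le_pow_left₀ h0.le h1 37
      have h4 : ((1 : ℝ) / 2) ^ 37 ≤ 1 / 8 := by norm_num
      have h5 : θ ^ 40 = θ ^ 3 * θ ^ 37 := by ring
      rw [h5]
      have h6 : (0 : ℝ) < θ ^ 3 := by positivity
      nlinarith
    have h3 : θ ^ 40 * (N : ℝ) ^ 3 ≤ θ ^ 3 / 8 * (N : ℝ) ^ 3 :=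
      mul_le_mul_of_nonneg_right h2 (by positivity)
    refine h3.trans (le_of_eq ?_)
    ring
  exact hfin.trans (hlow.trans (by exact_mod_cast hcardU))

open Classical in
theorem GG_dense (n : ℕ) : ∃ C : ℕ, ∀ (N : ℕ) (lam : ℝ) (A : Finset ℕ), 0 < lam → lam ≤ 1 →
    (2 / lam) ^ C ≤ N → A ⊆ range N → lam * N ≤ A.card →
    (lam / 2) ^ C * (N : ℝ) ^ 3 ≤ ((range N ×ˢ range N ×ˢ range N).filter
      fun x => GG N ((lam / 2) ^ C) A n x.1 x.2.1 x.2.2).card := by
  induction n with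
  | zero =>
    refine ⟨3, fun N lam A h0 h1 _ hA hcard => ?_⟩
    have h2 : A.card ^ 3 ≤ ((range N ×ˢ range N ×ˢ range N).filter
        fun x => GG N ((lam / 2) ^ 3) A 0 x.1 x.2.1 x.2.2).card := by
      have h3 : (A ×ˢ A ×ˢ A).card = A.card ^ 3 := by
        rw [Finset.card_product, Finset.card_product]
        ring
      rw [← h3]
      refine Finset.card_le_card fun x hx => ?_
      rw [Finset.mem_product, Finset.mem_product] at hx
      rw [Finset.mem_filter, Finset.mem_product, Finset.mem_product]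
      exact ⟨⟨hA hx.1, hA hx.2.1, hA hx.2.2⟩, hx.1, hx.2.1, hx.2.2⟩
    have h3 : (lam / 2) ^ 3 * (N : ℝ) ^ 3 ≤ (A.card : ℝ) ^ 3 := by
      rw [← mul_pow]
      refine pow_le_pow_left₀ (by positivity) ?_ 3
      have : (0 : ℝ) ≤ N := Nat.cast_nonneg N
      nlinarith [mul_nonneg h0.le this]
    refine h3.trans ?_
    exact_mod_cast h2
  | succ n ih =>
    obtain ⟨C, hC⟩ := ih
    refine ⟨40 * (C + 1), fun N lam A h0 h1 hN hA hcard => ?_⟩
    have hl0 : (0 : ℝ) < lam / 2 := by positivity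
    have hl1 : lam / 2 ≤ 1 / 2 := by linarith
    have hl2 : (1 : ℝ) ≤ 2 / lam := by
      rw [le_div_iff₀ h0]
      linarith
    have hN0 : (0 : ℝ) ≤ N := Nat.cast_nonneg N
    set θ : ℝ := (lam / 2) ^ (C + 1) with hθ
    have hθ0 : 0 < θ := by positivity
    have hθ1 : θ ≤ lam / 2 := by
      rw [hθ]
      calc (lam / 2) ^ (C + 1) ≤ (lam / 2) ^ 1 :=
            pow_le_pow_of_le_one hl0.le (by linarith) (by omega)
        _ = lam / 2 := pow_one _
    have hθC : θ ≤ (lam / 2) ^ C := by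
      rw [hθ]
      exact pow_le_pow_of_le_one hl0.le (by linarith) (by omega)
    have h2 := hC N lam A h0 h1 ((pow_le_pow_right₀ hl2 (by omega)).trans hN) hA hcard
    have h3 : θ * (N : ℝ) ^ 3 ≤ ((range N ×ˢ range N ×ˢ range N).filter
        fun x => GG N θ A n x.1 x.2.1 x.2.2).card := by
      refine (mul_le_mul_of_nonneg_right hθC (by positivity)).trans (h2.trans ?_)
      have h4 : ((range N ×ˢ range N ×ˢ range N).filter
          fun x => GG N ((lam / 2) ^ C) A n x.1 x.2.1 x.2.2).card ≤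
          ((range N ×ˢ range N ×ˢ range N).filter
            fun x => GG N θ A n x.1 x.2.1 x.2.2).card := by
        refine Finset.card_le_card fun x hx => ?_
        rw [Finset.mem_filter] at hx ⊢
        exact ⟨hx.1, GG.mono hθ0 hθC hx.2⟩
      exact_mod_cast h4
    have h4 : θ * N ≤ A.card := by
      refine le_trans (mul_le_mul_of_nonneg_right ?_ hN0) hcard
      linarith
    have h5 : (1 / θ) ^ 40 ≤ N := by
      refine le_trans (le_of_eq ?_) hN
      rw [hθ, one_div, ← inv_pow, ← pow_mul, inv_div, mul_comm (C + 1) 40]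
    have h6 := GG_step hθ0 (by linarith) hA h4 h5 h3
    have e : θ ^ 40 = (lam / 2) ^ (40 * (C + 1)) := by
      rw [hθ, ← pow_mul, mul_comm (C + 1) 40]
    rw [e] at h6
    exact h6

end Pool.Agent.MPac5134.KH
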