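import Pool.Agent.Lib.MP_ac5134_an.KH.Rnd

/-!
# KH-Lad: monotonicity of trees, and the ladder

PROOF of `ladder`: induction on `n`, for all roots.  `n = 0`: `g t₀ u t₁ ≤ Bd` contradicts `hBd`.
`n + 1`: if all children `(t₁, z, q)` of the root satisfy `g t₁ z q ≤ g t₀ u t₁ + δ`, the root is the
wanted node.  Otherwise some child has `g t₁ z q > g t₀ u t₁ + δ`, so
`Bd < g t₀ u t₁ + (n + 1) δ ≤ g t₁ z q + n δ`, and the child is the root of a tree of height `n`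
(`by_cases` / `push Not` on the statement for the `Q, z` given by the tree).
-/

open RFold Finset

namespace Pool.Agent.MPac5134.KH

theorem Tree.mem {d N : ℕ} {α C η : ℝ} {H : Finset ℕ} {n t₀ u t₁ : ℕ}
    (h : Tree d N α C η H n t₀ u t₁) : t₀ ∈ H ∧ u ∈ H ∧ t₁ ∈ H := by
  cases n with
  | zero => exact h
  | succ n => exact h.1

/-- trees are monotone in `H` and `C` -/
theorem Tree.mono {d N : ℕ} {α C C' η : ℝ} {H H' : Finset ℕ} (hH : H ⊆ H')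
    (hC : ∀ F, RI d N α C F → RI d N α C' F) {n : ℕ} :
    ∀ {t₀ u t₁ : ℕ}, Tree d N α C η H n t₀ u t₁ → Tree d N α C' η H' n t₀ u t₁ := by
  induction n with
  | zero =>
    intro t₀ u t₁ h
    have h' : t₀ ∈ H ∧ u ∈ H ∧ t₁ ∈ H := h
    have h2 : t₀ ∈ H' ∧ u ∈ H' ∧ t₁ ∈ H' := ⟨hH h'.1, hH h'.2.1, hH h'.2.2⟩
    exact h2
  | succ n ih =>
    intro t₀ u t₁ h
    obtain ⟨hm, h1, h2, c, P, hc, hP, hRP, h3⟩ := h
    refine ⟨⟨hH hm.1, hH hm.2.1, hH hm.2.2⟩, h1, h2, c, P, hc, hP.trans hH, hC P hRP, ?_⟩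
    intro p hp
    obtain ⟨h4, h5, Q, hQ, hRQ, h6⟩ := h3 p hp
    refine ⟨h4, h5, Q, hQ.trans hH, hC Q hRQ, ?_⟩
    intro q hq
    obtain ⟨z, hz, h7, h8, h9, h10, h11⟩ := h6 q hq
    exact ⟨z, hH hz, h7, h8, h9, h10, ih h11⟩

theorem ladder {d N : ℕ} {α C η : ℝ} {H : Finset ℕ} (g : ℕ → ℕ → ℕ → ℝ) {Bd δ : ℝ}
    (hg : ∀ x ∈ H, ∀ y ∈ H, ∀ z ∈ H, g x y z ≤ Bd) (n : ℕ) : ∀ {t₀ u t₁ : ℕ},
    Tree d N α C η H n t₀ u t₁ → Bd < g t₀ u t₁ + n * δ →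
    ∃ t₀ u t₁ : ℕ, (t₀ ∈ H ∧ u ∈ H ∧ t₁ ∈ H) ∧ sep N η t₀ t₁ ∧ sep N η t₀ u ∧
      ∃ (c : ℝ) (P : Finset ℕ), η * N ≤ |c| ∧ P ⊆ H ∧ RI d N α C P ∧
        ∀ p ∈ P, sep N η p t₀ ∧ sep N η p u ∧ ∃ Q : Finset ℕ, Q ⊆ H ∧ RI d N α C Q ∧
          ∀ q ∈ Q, ∃ z ∈ H, sep N η z t₁ ∧ Rel η t₀ u t₁ c p q z ∧
            g t₁ z q ≤ g t₀ u t₁ + δ := by
  induction n with
  | zero =>
    intro t₀ u t₁ h hB
    have hm := h.mem
    have h1 := hg t₀ hm.1 u hm.2.1 t₁ hm.2.2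
    have h2 : Bd < g t₀ u t₁ := by simpa using hB
    exact absurd h1 (not_le.mpr h2)
  | succ n ih =>
    intro t₀ u t₁ h hB
    obtain ⟨hm, h1, h2, c, P, hc, hP, hRP, h3⟩ := h
    by_cases hbad : ∃ z q : ℕ, Tree d N α C η H n t₁ z q ∧ g t₀ u t₁ + δ < g t₁ z q
    · obtain ⟨z, q, hT, hlt⟩ := hbad
      refine ih hT ?_
      have h4 : Bd < g t₀ u t₁ + ((n : ℝ) + 1) * δ := by
        have := hB
        push_cast at this
        exact this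
      nlinarith [h4, hlt]
    · push Not at hbad
      refine ⟨t₀, u, t₁, hm, h1, h2, c, P, hc, hP, hRP, ?_⟩
      intro p hp
      obtain ⟨h4, h5, Q, hQ, hRQ, h6⟩ := h3 p hp
      refine ⟨h4, h5, Q, hQ, hRQ, ?_⟩
      intro q hq
      obtain ⟨z, hz, _, h8, _, h10, h11⟩ := h6 q hq
      exact ⟨z, hz, h8, h10, hbad z q h11⟩

end Pool.Agent.MPac5134.KH
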