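import Pool.Agent.Lib.MP_ac5134_an.KH.Node
import Pool.Agent.Lib.MP_ac5134_an.KH.Lad

/-!
# KH-TreeRI: trees of heights give the exponent `Ψ(α) + ε`

PROOF.  Choose `n` with `n * ε ≥ 16` (say `n = ⌈16/ε⌉₊ + 1`).  Let `H` carry a tree, and let `(w, S)` be a
family with slices at most `s` at the heights of `H`.  Put `g t₀ u t₁ = E G(t₀/N, u/N, t₁/N) ∈ [0, 2 s]`
(`G_nonneg`, `G_le`; `s ≥ 0`).  `ladder` with `Bd = 2 s`, `δ = (2 s + e)/n` for an `e > 0` (`e = 1` is fine,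
it goes into the constant) gives a node with `Gs ≤ g + δ`; `node` gives
`(α² + 3α - 2) E h + (α - 1)² g ≤ (3α² - 2α) s + α² (g + δ) + Err`, and with `g ≤ 2 s`
(`α² - (α-1)² = 2α - 1 ≥ 0`): `(α² + 3α - 2) E h ≤ (3α² + 2α - 2) s + 4 δ + Err`,
`α² + 3α - 2 ≥ 2`, `4 δ / 2 ≤ ε s + 1`.  `Err ≤ (5 + 11 cst + 3 C) (1 + k)` for `1 < α ≤ 2`, `k ≥ 0`
(`kap_nonneg`), and `cst ≤ d (4 + 2 log (1/η))` (`cst_le`).  Finally `ent B ≤ h` (`h_eq`, `kap_nonneg`).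
`Γ` may be any constant such as `60 (d + 1)`.
-/

open RFold Finset

namespace Pool.Agent.MPac5134.KH

private theorem err_le {α k c C : ℝ} (h1 : 1 < α) (h2 : α ≤ 2) (hk : 0 ≤ k) (hc : 0 ≤ c)
    (hC : 0 ≤ C) :
    (α - 1) * ((α + 1) * k + (2 * α + 1) * c + C * (1 + k)) +
        α * (k + (1 + α) * c + C * (1 + k)) ≤ 5 * k + 11 * c + 3 * (C * (1 + k)) := by
  have hCk : 0 ≤ C * (1 + k) := mul_nonneg hC (by linarith)
  have e1 : (α - 1) * ((α + 1) * k + (2 * α + 1) * c + C * (1 + k)) ≤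
      1 * (3 * k + 5 * c + C * (1 + k)) := by
    refine mul_le_mul (by linarith) ?_ ?_ zero_le_one
    · have e2 : (α + 1) * k ≤ 3 * k := mul_le_mul_of_nonneg_right (by linarith) hk
      have e3 : (2 * α + 1) * c ≤ 5 * c := mul_le_mul_of_nonneg_right (by linarith) hc
      linarith
    · have e2 : 0 ≤ (α + 1) * k := mul_nonneg (by linarith) hk
      have e3 : 0 ≤ (2 * α + 1) * c := mul_nonneg (by linarith) hc
      linarith
  have e4 : α * (k + (1 + α) * c + C * (1 + k)) ≤ 2 * (k + 3 * c + C * (1 + k)) := by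
    refine mul_le_mul h2 ?_ ?_ zero_le_two
    · have e3 : (1 + α) * c ≤ 3 * c := mul_le_mul_of_nonneg_right (by linarith) hc
      linarith
    · have e3 : 0 ≤ (1 + α) * c := mul_nonneg (by linarith) hc
      linarith
  linarith

private theorem err_nonneg {α k c C : ℝ} (h1 : 1 < α) (hk : 0 ≤ k) (hc : 0 ≤ c) (hC : 0 ≤ C) :
    0 ≤ (α - 1) * ((α + 1) * k + (2 * α + 1) * c + C * (1 + k)) +
        α * (k + (1 + α) * c + C * (1 + k)) := by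
  have hCk : 0 ≤ C * (1 + k) := mul_nonneg hC (by linarith)
  have e2 : 0 ≤ (α + 1) * k := mul_nonneg (by linarith) hk
  have e3 : 0 ≤ (2 * α + 1) * c := mul_nonneg (by linarith) hc
  have e4 : 0 ≤ (1 + α) * c := mul_nonneg (by linarith) hc
  exact add_nonneg (mul_nonneg (by linarith) (by linarith)) (mul_nonneg (by linarith) (by linarith))

private theorem final_bd {d : ℕ} {α ε h g s k c C L δ Er : ℝ} (h1 : 1 < α) (hk : 0 ≤ k)
    (hL : 0 ≤ L) (hC : 0 ≤ C) (hδ : 2 * δ ≤ ε * s + 2) (hδ0 : 0 ≤ δ) (hα : α ≤ 2)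
    (hg : g ≤ 2 * s) (hc : c ≤ d * (4 + 2 * L)) (hEr : Er ≤ 5 * k + 11 * c + 3 * (C * (1 + k)))
    (hEr0 : 0 ≤ Er)
    (hn : (α ^ 2 + 3 * α - 2) * h + (α - 1) ^ 2 * g ≤
      (3 * α ^ 2 - 2 * α) * s + α ^ 2 * (g + δ) + Er) :
    h ≤ (Psi α + ε) * s + 60 * ((d : ℝ) + 1) * (1 + L + C) * (1 + k) := by
  have hD : 2 ≤ α ^ 2 + 3 * α - 2 := by nlinarith
  have hD0 : 0 < α ^ 2 + 3 * α - 2 := by linarith
  have e1 : (2 * α - 1) * g ≤ (2 * α - 1) * (2 * s) :=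
    mul_le_mul_of_nonneg_left hg (by linarith)
  have e2 : α ^ 2 * δ ≤ 4 * δ := by
    refine mul_le_mul_of_nonneg_right ?_ hδ0
    nlinarith
  have e3 : (α ^ 2 + 3 * α - 2) * h ≤ (3 * α ^ 2 + 2 * α - 2) * s + (4 * δ + Er) := by
    nlinarith
  have e4 : (3 * α ^ 2 + 2 * α - 2) * s = (α ^ 2 + 3 * α - 2) * (Psi α * s) := by
    unfold Psi
    rw [← mul_assoc, mul_div_cancel₀ _ hD0.ne']
  have e5 : (4 * δ + Er) ≤ (α ^ 2 + 3 * α - 2) * ((4 * δ + Er) / 2) := by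
    have : 0 ≤ (4 * δ + Er) / 2 := by linarith
    nlinarith
  have e6 : h ≤ Psi α * s + (4 * δ + Er) / 2 := by
    have e7 : (α ^ 2 + 3 * α - 2) * h ≤ (α ^ 2 + 3 * α - 2) * (Psi α * s + (4 * δ + Er) / 2) := by
      rw [mul_add, ← e4]
      linarith
    exact le_of_mul_le_mul_left e7 hD0
  have hd : (0 : ℝ) ≤ d := Nat.cast_nonneg d
  have e8 : 2 + 5 / 2 * k + 11 / 2 * (d * (4 + 2 * L)) + 3 / 2 * (C * (1 + k)) ≤
      60 * ((d : ℝ) + 1) * (1 + L + C) * (1 + k) := by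
    have a1 : 0 ≤ (d : ℝ) * k := mul_nonneg hd hk
    have a2 : 0 ≤ (d : ℝ) * L := mul_nonneg hd hL
    have a3 : 0 ≤ (d : ℝ) * L * k := mul_nonneg a2 hk
    have a4 : 0 ≤ L * k := mul_nonneg hL hk
    have a5 : 0 ≤ C * k := mul_nonneg hC hk
    have a6 : 0 ≤ (d : ℝ) * C := mul_nonneg hd hC
    have a7 : 0 ≤ (d : ℝ) * C * k := mul_nonneg a6 hk
    have : 60 * ((d : ℝ) + 1) * (1 + L + C) * (1 + k) = 60 * (d + 1 + d * L + L + d * C + C +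
      d * k + k + d * L * k + L * k + d * C * k + C * k) := by ring
    rw [this]
    nlinarith
  linarith

theorem tree_RI (d : ℕ) {α ε : ℝ} (h1 : 1 < α) (h2 : α ≤ 2) (hε : 0 < ε) :
    ∃ (n : ℕ) (Γ : ℝ), 0 ≤ Γ ∧ ∀ (N : ℕ) (C η : ℝ) (H : Finset ℕ) (t₀ u t₁ : ℕ), 1 ≤ N → 0 ≤ C →
      0 < η → η ≤ 1 → (∀ j ∈ H, j ≤ N) → Tree d N α C η H n t₀ u t₁ →
      RI d N (Psi α + ε) (Γ * (1 + Real.log (1 / η) + C)) H := by
  refine ⟨⌈16 / ε⌉₊ + 1, 60 * ((d : ℝ) + 1), by positivity, ?_⟩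
  intro N C η H t₀ u t₁ hN hC hη hη1 hH hT
  obtain ⟨ht0, hu, ht1⟩ := hT.mem
  refine ⟨⟨t₀, ht0⟩, ?_⟩
  intro I Ω _ _ w S k s hw hw1 hB hk hs
  set n : ℕ := ⌈16 / ε⌉₊ + 1 with hn
  have hn0 : (0 : ℝ) < n := by
    rw [hn]; positivity
  have hn1 : (1 : ℝ) ≤ n := by
    rw [hn]; push_cast
    have : (0 : ℝ) ≤ (⌈16 / ε⌉₊ : ℝ) := Nat.cast_nonneg _
    linarith
  have hnε : 16 ≤ ε * n := by
    have h3 : 16 / ε ≤ n := by
      rw [hn]; push_cast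
      have := Nat.le_ceil (16 / ε)
      linarith
    rw [div_le_iff₀ hε] at h3
    linarith
  have hk0 : 0 ≤ k := le_trans (Finset.sum_nonneg fun i _ =>
    mul_nonneg (hw i) (LS.kap_nonneg (S i))) hk
  have hs0 : 0 ≤ s := le_trans (Finset.sum_nonneg fun i _ =>
    mul_nonneg (hw i) (LS.H_nonneg (S i) ((t₀ : ℝ) / N))) (hs t₀ ht0)
  have hL : 0 ≤ Real.log (1 / η) := Real.log_nonneg (by rw [le_div_iff₀ hη]; linarith)
  set g : ℕ → ℕ → ℕ → ℝ := fun a b c => ∑ i, w i * (S i).G ((a : ℝ) / N) ((b : ℝ) / N) ((c : ℝ) / N)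
    with hg
  have hg2 : ∀ x ∈ H, ∀ y ∈ H, ∀ z ∈ H, g x y z ≤ 2 * s := by
    intro x _ y hy z hz
    have e1 : g x y z ≤ ∑ i, (w i * (S i).H ((y : ℝ) / N) + w i * (S i).H ((z : ℝ) / N)) := by
      rw [hg]
      refine Finset.sum_le_sum fun i _ => ?_
      rw [← mul_add]
      exact mul_le_mul_of_nonneg_left (LS.G_le (S i) _ _ _) (hw i)
    rw [Finset.sum_add_distrib] at e1
    have e2 := hs y hy
    have e3 := hs z hz
    linarith
  have hg0 : ∀ x y z, 0 ≤ g x y z := fun x y z =>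
    Finset.sum_nonneg fun i _ => mul_nonneg (hw i) (LS.G_nonneg (S i) _ _ _)
  set δ : ℝ := (2 * s + 1) / n with hδd
  have hδ0 : 0 ≤ δ := div_nonneg (by linarith) hn0.le
  have hδ : 2 * δ ≤ ε * s + 2 := by
    rw [hδd, mul_div_assoc', div_le_iff₀ hn0]
    have e1 : 16 * s ≤ (ε * n) * s := mul_le_mul_of_nonneg_right hnε hs0
    nlinarith
  obtain ⟨a, b, c, ⟨ha, hb, hc⟩, hs1, hs2, cc, P, hcc, hPH, hRI, hP⟩ :=
    ladder (Bd := 2 * s) (δ := δ) g hg2 n hT (by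
      have e1 : (n : ℝ) * δ = 2 * s + 1 := by
        rw [hδd]; field_simp
      have e2 := hg0 t₀ u t₁
      rw [e1]
      linarith)
  have hnode := node hN h1 hη hη1 hH ha hb hc hs1 hcc hPH hRI hw hw1 S hB hk hs
    (Gs := g a b c + δ) (by
      intro p hp
      obtain ⟨q1, q2, Q, _, hQ2, hQ⟩ := hP p hp
      exact ⟨q1, q2, Q, hQ2, hQ⟩)
  have hcst := cst_le d hη hη1
  have hcst0 := cst_nonneg d hη
  have hfin := final_bd (d := d) (ε := ε) h1 hk0 hL hC hδ hδ0 h2 (hg2 a ha b hb c hc) hcst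
    (err_le h1 h2 hk0 hcst0 hC) (err_nonneg h1 hk0 hcst0 hC) hnode
  refine le_trans (Finset.sum_le_sum fun i _ => ?_) hfin
  refine mul_le_mul_of_nonneg_left ?_ (hw i)
  have e1 := LS.h_eq (S i)
  have e2 := LS.kap_nonneg (S i)
  linarith

end Pool.Agent.MPac5134.KH
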