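import Pool.Agent.Lib.MP_ac5134_an.KH.Sel
import Pool.Agent.Lib.MP_ac5134_an.KH.GDens
import Pool.Agent.Lib.MP_ac5134_an.KH.TreeRI

/-!
# KH-FlexS: the improvement step `α → Ψ(α) + ε` for `Flex`

PROOF.  `n`, `Γ` from `tree_RI`; `C₁` from `GG_dense n`; `k₂, C₂` from `select hF n`.  Given `N, lam, ι, I, A`.
If `N < (2/lam)^C₁`: there is `j < N` in at least `lam |I|` of the sets `A i` (`popular`, `K = N`, `a = lam N`);
take `F = {j}` and `RI_triv`: `d log (2N + 1) ≤ C (1 + log (1/lam))`.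
Otherwise `η = (lam/2)^C₁`; by `GG_dense` and `popular` (over the `N³` triples) some triple is good for at
least `η |I|` of the `i`; `select` gives `H`, `J`, `tree_RI` gives `RI` for `H` with the constant
`Γ (1 + log (1/η) + C₂ (1 + log (1/η)))`, which is at most `C (1 + log (1/lam))` for a suitable natural `C`
(`log (1/η) = C₁ (log 2 + log (1/lam))`).  Use `RI.mono`.
-/

open Finset

namespace Pool.Agent.MPac5134.KH

private theorem popular' {ι Y : Type} (I : Finset ι) (hI : I.Nonempty) (S : Finset Y)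
    (r : ι → Y → Prop) {a K : ℝ} (ha : 0 < a) (hK : 0 < K) (hS : (S.card : ℝ) ≤ K)
    (h : ∀ i ∈ I, ∃ T : Finset Y, T ⊆ S ∧ (∀ y ∈ T, r i y) ∧ a ≤ (T.card : ℝ)) :
    ∃ y ∈ S, ∃ J ⊆ I, a / K * I.card ≤ (J.card : ℝ) ∧ ∀ i ∈ J, r i y := by
  classical
  obtain ⟨y, hy, hc⟩ := popular I hI S r ha hK hS (by
    intro i hi
    obtain ⟨T, hT, hr, hT2⟩ := h i hi
    refine le_trans hT2 ?_
    have h1 : T.card ≤ (S.filter fun y => r i y).card :=
      card_le_card fun z hz => mem_filter.2 ⟨hT hz, hr z hz⟩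
    exact_mod_cast h1)
  exact ⟨y, hy, _, filter_subset _ _, hc, fun i hi => (mem_filter.1 hi).2⟩

/-- small `N` -/
theorem flex_small {d : ℕ} {α : ℝ} (hα : 0 ≤ α) (C₁ : ℕ) : ∃ C : ℕ, ∀ (N : ℕ) (lam : ℝ) (ι : Type)
    (I : Finset ι) (A : ι → Finset ℕ), 1 ≤ N → 0 < lam → lam ≤ 1 → (N : ℝ) ≤ (2 / lam) ^ C₁ →
    I.Nonempty → (∀ i ∈ I, A i ⊆ range N) → (∀ i ∈ I, lam * N ≤ (A i).card) →
    ∃ (F : Finset ℕ) (J : Finset ι), J ⊆ I ∧ (lam / 2) ^ C * I.card ≤ J.card ∧ F.card ≤ 1 ∧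
      (∀ i ∈ J, F ⊆ A i) ∧ RI d N α (C * (1 + Real.log (1 / lam))) F := by
  classical
  refine ⟨d * (2 + C₁) + 1, ?_⟩
  intro N lam ι I A hN hl0 hl1 hNl hI hA hcard
  have hN0 : (0 : ℝ) < N := by exact_mod_cast hN
  have hN1 : (1 : ℝ) ≤ N := by exact_mod_cast hN
  obtain ⟨y, hy, J, hJI, hyc, hJy⟩ := popular' I hI (range N) (fun i j => j ∈ A i)
    (a := lam * N) (K := N) (mul_pos hl0 hN0) hN0 (by rw [card_range])
    (fun i hi => ⟨A i, hA i hi, fun _ h => h, hcard i hi⟩)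
  rw [mul_div_assoc, div_self hN0.ne', mul_one] at hyc
  have hL : 0 ≤ Real.log (1 / lam) := Real.log_nonneg (by rw [le_div_iff₀ hl0]; linarith)
  refine ⟨{y}, J, hJI, ?_, by rw [card_singleton], ?_, ?_⟩
  · refine le_trans (mul_le_mul_of_nonneg_right ?_ (Nat.cast_nonneg _)) hyc
    calc (lam / 2) ^ (d * (2 + C₁) + 1) ≤ (lam / 2) ^ 1 :=
          pow_le_pow_of_le_one (by linarith) (by linarith) (by omega)
      _ = lam / 2 := pow_one _
      _ ≤ lam := by linarith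
  · intro i hi
    rw [singleton_subset_iff]
    exact hJy i hi
  · refine RI_triv hα ?_ (singleton_nonempty y)
    have h3 : Real.log (2 * N + 1) ≤ (2 + C₁) * (1 + Real.log (1 / lam)) := by
      have h2l : (0 : ℝ) < 2 / lam := by positivity
      have e1 : Real.log (2 * N + 1) ≤ Real.log (3 * (2 / lam) ^ C₁) :=
        Real.log_le_log (by positivity) (by nlinarith)
      have e2 : Real.log (3 * (2 / lam) ^ C₁) = Real.log 3 + C₁ * (Real.log 2 +
          Real.log (1 / lam)) := by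
        rw [Real.log_mul (by norm_num) (pow_pos h2l _).ne', Real.log_pow,
          show (2 : ℝ) / lam = 2 * (1 / lam) by ring, Real.log_mul (by norm_num) (by positivity)]
      have e3 : Real.log 3 ≤ 2 := by
        have := Real.log_le_sub_one_of_pos (show (0 : ℝ) < 3 by norm_num)
        linarith
      have e4 : Real.log 2 ≤ 1 := by
        have := Real.log_le_sub_one_of_pos (show (0 : ℝ) < 2 by norm_num)
        linarith
      have hC : (0 : ℝ) ≤ C₁ := Nat.cast_nonneg _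
      have e5 : (C₁ : ℝ) * (Real.log 2 + Real.log (1 / lam)) ≤ C₁ * (1 + Real.log (1 / lam)) :=
        mul_le_mul_of_nonneg_left (by linarith) hC
      rw [e2] at e1
      nlinarith
    have hd : (0 : ℝ) ≤ d := Nat.cast_nonneg _
    have h4 := mul_le_mul_of_nonneg_left h3 hd
    push_cast
    nlinarith

private theorem Psi_nonneg {α : ℝ} (h1 : 1 < α) : 0 ≤ Psi α := by
  unfold Psi
  exact div_nonneg (by nlinarith) (by nlinarith)

private theorem flexS_pow {lam : ℝ} (h0 : 0 < lam) (h1 : lam ≤ 1) (C₁ C₂ : ℕ) :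
    (lam / 2) ^ ((C₁ + 1) * C₂ + C₁) ≤ ((lam / 2) ^ C₁ / 2) ^ C₂ * (lam / 2) ^ C₁ := by
  rw [pow_add, pow_mul]
  have h2 : (0 : ℝ) ≤ (lam / 2) ^ C₁ := by positivity
  refine mul_le_mul_of_nonneg_right (pow_le_pow_left₀ (by positivity) ?_ C₂) h2
  rw [pow_succ, div_eq_mul_inv ((lam / 2) ^ C₁) 2]
  exact mul_le_mul_of_nonneg_left (by linarith) h2

theorem flex_step {d : ℕ} {α ε : ℝ} (h1 : 1 < α) (h2 : α ≤ 2) (hε : 0 < ε) (hF : Flex d α) :
    Flex d (Psi α + ε) := by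
  classical
  obtain ⟨n, Γ, hΓ, htree⟩ := tree_RI d h1 h2 hε
  obtain ⟨C₁, hdense⟩ := GG_dense n
  obtain ⟨k₂, C₂, hsel⟩ := select hF n
  obtain ⟨C₃, hsmall⟩ := flex_small (d := d) (α := Psi α + ε)
    (by have := Psi_nonneg h1; linarith) C₁
  refine ⟨k₂ + 1, C₃ + ((C₁ + 1) * C₂ + C₁) + ⌈Γ⌉₊ * (1 + C₂) * (1 + C₁), ?_⟩
  intro N lam ι I A hN hl0 hl1 hI hA hcard
  have hN0 : (0 : ℝ) < N := by exact_mod_cast hN
  have hL : 0 ≤ Real.log (1 / lam) := Real.log_nonneg (by rw [le_div_iff₀ hl0]; linarith)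
  have hl2 : 0 < lam / 2 := by positivity
  have hl3 : lam / 2 ≤ 1 := by linarith
  by_cases hbig : (2 / lam) ^ C₁ ≤ (N : ℝ)
  · have hη0 : 0 < (lam / 2) ^ C₁ := pow_pos hl2 _
    have hη1 : (lam / 2) ^ C₁ ≤ 1 := pow_le_one₀ hl2.le hl3
    obtain ⟨y, hy, I₁, hI₁, hyc, hIy⟩ := popular' I hI (range N ×ˢ range N ×ˢ range N)
      (fun i x => GG N ((lam / 2) ^ C₁) (A i) n x.1 x.2.1 x.2.2)
      (a := (lam / 2) ^ C₁ * (N : ℝ) ^ 3) (K := (N : ℝ) ^ 3)
      (by positivity) (by positivity)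
      (by
        rw [card_product, card_product, card_range]
        push_cast
        apply le_of_eq
        ring)
      (fun i hi => ⟨_, filter_subset _ _, fun _ hx => (mem_filter.1 hx).2,
        hdense N lam (A i) hl0 hl1 hbig (hA i hi) (hcard i hi)⟩)
    rw [mul_div_assoc, div_self (by positivity), mul_one] at hyc
    have hI0 : (0 : ℝ) < I.card := by exact_mod_cast hI.card_pos
    have hI1 : I₁.Nonempty := by
      rw [← card_pos]
      have : (0 : ℝ) < (I₁.card : ℝ) := lt_of_lt_of_le (by positivity) hyc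
      exact_mod_cast this
    obtain ⟨H, J, hJ, hJc, hHc, hHA, hT⟩ := hsel N ((lam / 2) ^ C₁) ι _ A y.1 y.2.1 y.2.2 hN hη0 hη1
      hI1 (fun i hi => hA i (hI₁ hi)) hIy
    have hI2 : (0 : ℝ) < (I₁.card : ℝ) := by
      exact_mod_cast hI1.card_pos
    have hJ1 : J.Nonempty := by
      rw [← card_pos]
      have : (0 : ℝ) < (J.card : ℝ) := lt_of_lt_of_le (by positivity) hJc
      exact_mod_cast this
    have hLη0 : 0 ≤ Real.log (1 / (lam / 2) ^ C₁) := Real.log_nonneg (by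
      rw [le_div_iff₀ hη0]
      linarith)
    have hLη : Real.log (1 / (lam / 2) ^ C₁) ≤ C₁ * (1 + Real.log (1 / lam)) := by
      have e1 : Real.log (1 / (lam / 2) ^ C₁) = C₁ * (Real.log 2 + Real.log (1 / lam)) := by
        rw [← Real.log_mul (by norm_num) (by positivity), ← Real.log_pow]
        congr 1
        rw [show (2 : ℝ) * (1 / lam) = 1 / (lam / 2) by
          field_simp]
        rw [one_div_pow]
      have e4 : Real.log 2 ≤ 1 := by
        have := Real.log_le_sub_one_of_pos (show (0 : ℝ) < 2 by norm_num)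
        linarith
      rw [e1]
      exact mul_le_mul_of_nonneg_left (by linarith) (Nat.cast_nonneg _)
    have hRI := htree N (C₂ * (1 + Real.log (1 / (lam / 2) ^ C₁))) ((lam / 2) ^ C₁) H _ _ _ hN
      (by positivity) hη0 hη1 (by
        intro j hj
        obtain ⟨i, hi⟩ := hJ1
        have h3 := hA i (hI₁ (hJ hi)) (hHA i hi hj)
        exact (mem_range.1 h3).le) hT
    refine ⟨H, J, fun i hi => hI₁ (hJ hi), ?_, by omega, hHA, hRI.mono le_rfl ?_⟩
    · calc (lam / 2) ^ (C₃ + ((C₁ + 1) * C₂ + C₁) + ⌈Γ⌉₊ * (1 + C₂) * (1 + C₁)) * (I.card : ℝ)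
          ≤ (lam / 2) ^ ((C₁ + 1) * C₂ + C₁) * I.card :=
            mul_le_mul_of_nonneg_right (pow_le_pow_of_le_one hl2.le hl3 (by omega)) hI0.le
        _ ≤ (((lam / 2) ^ C₁ / 2) ^ C₂ * (lam / 2) ^ C₁) * I.card :=
            mul_le_mul_of_nonneg_right (flexS_pow hl0 hl1 C₁ C₂) hI0.le
        _ = ((lam / 2) ^ C₁ / 2) ^ C₂ * ((lam / 2) ^ C₁ * I.card) := by ring
        _ ≤ ((lam / 2) ^ C₁ / 2) ^ C₂ * (I₁.card : ℝ) :=
            mul_le_mul_of_nonneg_left hyc (by positivity)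
        _ ≤ J.card := hJc
    · have hΓc : Γ ≤ (⌈Γ⌉₊ : ℝ) := Nat.le_ceil Γ
      have a1 : (0 : ℝ) ≤ C₁ := Nat.cast_nonneg _
      have a2 : (0 : ℝ) ≤ C₂ := Nat.cast_nonneg _
      have a3 : (0 : ℝ) ≤ C₃ := Nat.cast_nonneg _
      have b1 : 1 + Real.log (1 / (lam / 2) ^ C₁) ≤ (1 + C₁) * (1 + Real.log (1 / lam)) := by
        nlinarith
      have b2 : 1 + Real.log (1 / (lam / 2) ^ C₁) + C₂ * (1 + Real.log (1 / (lam / 2) ^ C₁)) ≤
          (1 + C₂) * ((1 + C₁) * (1 + Real.log (1 / lam))) := by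
        nlinarith
      have b3 : 0 ≤ (1 + (C₂ : ℝ)) * ((1 + C₁) * (1 + Real.log (1 / lam))) := by positivity
      calc Γ * (1 + Real.log (1 / (lam / 2) ^ C₁) + C₂ * (1 + Real.log (1 / (lam / 2) ^ C₁)))
          ≤ Γ * ((1 + C₂) * ((1 + C₁) * (1 + Real.log (1 / lam)))) :=
            mul_le_mul_of_nonneg_left b2 hΓ
        _ ≤ (⌈Γ⌉₊ : ℝ) * ((1 + C₂) * ((1 + C₁) * (1 + Real.log (1 / lam)))) :=
            mul_le_mul_of_nonneg_right hΓc b3
        _ ≤ ((C₃ + ((C₁ + 1) * C₂ + C₁) + ⌈Γ⌉₊ * (1 + C₂) * (1 + C₁) : ℕ) : ℝ) *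
              (1 + Real.log (1 / lam)) := by
            push_cast
            have c1 : (0 : ℝ) ≤ 1 + Real.log (1 / lam) := by linarith
            have c2 : (0 : ℝ) ≤ C₃ + ((C₁ + 1) * C₂ + C₁) := by positivity
            have c3 := mul_nonneg c2 c1
            have c4 : (⌈Γ⌉₊ : ℝ) * ((1 + C₂) * ((1 + C₁) * (1 + Real.log (1 / lam)))) =
              ((⌈Γ⌉₊ : ℝ) * (1 + C₂) * (1 + C₁)) * (1 + Real.log (1 / lam)) := by ring
            rw [c4, add_mul _ ((⌈Γ⌉₊ : ℝ) * (1 + C₂) * (1 + C₁))]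
            linarith
  · obtain ⟨F, J, hJ, hJc, hFc, hFA, hRI⟩ := hsmall N lam ι I A hN hl0 hl1 (not_le.1 hbig).le hI hA
      hcard
    refine ⟨F, J, hJ, ?_, by omega, hFA, hRI.mono le_rfl ?_⟩
    · refine le_trans (mul_le_mul_of_nonneg_right ?_ (Nat.cast_nonneg _)) hJc
      exact pow_le_pow_of_le_one hl2.le hl3 (by omega)
    · refine mul_le_mul_of_nonneg_right ?_ (by linarith)
      have : C₃ ≤ C₃ + ((C₁ + 1) * C₂ + C₁) + ⌈Γ⌉₊ * (1 + C₂) * (1 + C₁) := by omega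
      exact_mod_cast this

end Pool.Agent.MPac5134.KH
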