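import Pool.Agent.Lib.MP_ac5134_an.KH.RelA

/-!
# KH-GStA: a triple with many good pairs `(z, q)` is good of the next level

PROOF (`θ' = θ^5`, `θ ≤ 1/2`, `N ≥ θ^(-40)`).  The `p ∈ A` with `sep N θ' p t₀`, `sep N θ' p u` are at
least `θ N - 2 (2 θ' N + 1) ≥ θ N/2` many (`card_near`); the pairs `(z, q)` of `hg` with `sep N θ'` for
`(z, t₀)`, `(z, t₁)`, `(q, t₁)` at least `(θ/2) N² - 3 (2 θ' N + 1) N ≥ (θ/16) N²` many (`z, q ∈ A ⊆ range N`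
by `GG.mem`).  For each of the `≥ (θ²/32) N³` triples `(p, z, q)` choose `c ∈ cr N θ'` by `exists_c` (with `θ'`),
`|c| ≥ θ'^3/2 N ≥ θ^40 N`.  The map `(p, z, q) ↦ (c, p, q)` has fibres of size at most `3/θ'^3`
(`mult_z` with `η = θ'`), so there are at least `ν N³` triples `(c, p, q)`,
`ν = θ^17/96 ≥ θ^24`, such that `|c| ≥ θ^40 N`, `p` admissible and
`q ∈ A_{c,p} = {q ∈ A | sep N θ' q t₁ ∧ ∃ z ∈ A, sep.. z t₁ ∧ sep.. z t₀ ∧ Rel θ' .. ∧ GG N θ A n t₁ z q}`.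
`pig` twice: over `c ∈ cr N θ'` (`card_cr`: at most `5 N/θ^10`; each `c` has at most `N²` pairs): at least
`(ν/2) N` of the `c` have at least `(ν θ^10/10) N²` pairs `(p, q)`; for such a `c`, over `p ∈ A` (at most
`N`; `|A_{c,p}| ≤ N`): at least `(ν θ^10/20) N` of the `p` have `|A_{c,p}| ≥ (ν θ^10/20) N`.  All thresholds
are `≥ θ^40 N` (`θ ≤ 1/2`).  Finally pass from `θ'`, `θ` to `θ^40` (`sep.mono`, `Rel.mono`, `cr_mono`,
`GG.mono`).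
-/

open Finset

namespace Pool.Agent.MPac5134.KH

/-- size facts -/
private theorem gsta_pow {θ : ℝ} (h0 : 0 < θ) (h1 : θ ≤ 1 / 2) (k l : ℕ) :
    θ ^ (k + l) ≤ θ ^ k / 2 ^ l := by
  rw [pow_add, div_eq_mul_inv, ← inv_pow]
  refine mul_le_mul_of_nonneg_left ?_ (by positivity)
  refine pow_le_pow_left₀ h0.le ?_ l
  rw [← one_div]
  exact h1

private theorem gsta_N {N : ℕ} {θ : ℝ} (h0 : 0 < θ) (h1 : θ ≤ 1 / 2) (hN : (1 / θ) ^ 40 ≤ N)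
    (k : ℕ) (hk : k ≤ 40) : (2 : ℝ) ^ (40 - k) ≤ θ ^ k * N := by
  have h2 : (2 : ℝ) ≤ 1 / θ := by
    rw [le_div_iff₀ h0]
    linarith
  have h3 : (1 / θ) ^ (40 - k) = θ ^ k * (1 / θ) ^ 40 := by
    have : (1 / θ) ^ 40 = (1 / θ) ^ k * (1 / θ) ^ (40 - k) := by
      rw [← pow_add]
      congr 1
      omega
    rw [this, ← mul_assoc, ← mul_pow, mul_one_div_cancel h0.ne', one_pow, one_mul]
  calc (2 : ℝ) ^ (40 - k) ≤ (1 / θ) ^ (40 - k) := pow_le_pow_left₀ (by norm_num) h2 _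
    _ = θ ^ k * (1 / θ) ^ 40 := h3
    _ ≤ θ ^ k * N := by gcongr

open Classical in
private theorem gsta_P {N : ℕ} {θ : ℝ} (h0 : 0 < θ) (h1 : θ ≤ 1 / 2) {A : Finset ℕ}
    (hcard : θ * N ≤ A.card) (hN : (1 / θ) ^ 40 ≤ N) (t₀ u : ℕ) :
    θ / 2 * N ≤ ((A.filter fun p => sep N (θ ^ 5) p t₀ ∧ sep N (θ ^ 5) p u).card : ℝ) := by
  have hN0 : (0 : ℝ) ≤ N := Nat.cast_nonneg N
  have c1 := card_near (N := N) (θ := θ ^ 5) (by positivity) t₀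
    (A.filter fun p => ¬ sep N (θ ^ 5) p t₀) (fun x hx => (mem_filter.1 hx).2)
  have c2 := card_near (N := N) (θ := θ ^ 5) (by positivity) u
    (A.filter fun p => ¬ sep N (θ ^ 5) p u) (fun x hx => (mem_filter.1 hx).2)
  have hsub : A ⊆ ((A.filter fun p => sep N (θ ^ 5) p t₀ ∧ sep N (θ ^ 5) p u) ∪
      (A.filter fun p => ¬ sep N (θ ^ 5) p t₀)) ∪ (A.filter fun p => ¬ sep N (θ ^ 5) p u) := by
    intro x hx
    simp only [mem_union, mem_filter]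
    tauto
  have h3 := (card_le_card hsub).trans ((card_union_le _ _).trans
    (Nat.add_le_add_right (card_union_le _ _) _))
  have h4 : (A.card : ℝ) ≤ ((A.filter fun p => sep N (θ ^ 5) p t₀ ∧ sep N (θ ^ 5) p u).card : ℝ) +
      ((A.filter fun p => ¬ sep N (θ ^ 5) p t₀).card : ℝ) +
      ((A.filter fun p => ¬ sep N (θ ^ 5) p u).card : ℝ) := by exact_mod_cast h3
  have h5 : θ ^ 5 ≤ θ / 16 := by
    have := gsta_pow h0 h1 1 4
    norm_num at this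
    linarith
  have h6 := gsta_N h0 h1 hN 1 (by norm_num)
  have h7 : θ ^ 5 * N ≤ θ / 16 * N := by gcongr
  norm_num at h6
  nlinarith

open Classical in
private theorem gsta_W {N n : ℕ} {θ : ℝ} (h0 : 0 < θ) (h1 : θ ≤ 1 / 2) {A : Finset ℕ}
    (hN : (1 / θ) ^ 40 ≤ N) (t₀ t₁ : ℕ)
    (hg : θ / 2 * (N : ℝ) ^ 2 ≤
      ((range N ×ˢ range N).filter fun x => GG N θ A n t₁ x.1 x.2).card) :
    θ / 16 * (N : ℝ) ^ 2 ≤ (((range N ×ˢ range N).filter fun x : ℕ × ℕ => GG N θ A n t₁ x.1 x.2 ∧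
      sep N (θ ^ 5) x.1 t₀ ∧ sep N (θ ^ 5) x.1 t₁ ∧ sep N (θ ^ 5) x.2 t₁).card : ℝ) := by
  have hN0 : (0 : ℝ) ≤ N := Nat.cast_nonneg N
  have c1 := card_near (N := N) (θ := θ ^ 5) (by positivity) t₀
    ((range N).filter fun p => ¬ sep N (θ ^ 5) p t₀) (fun x hx => (mem_filter.1 hx).2)
  have c2 := card_near (N := N) (θ := θ ^ 5) (by positivity) t₁
    ((range N).filter fun p => ¬ sep N (θ ^ 5) p t₁) (fun x hx => (mem_filter.1 hx).2)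
  set W := (range N ×ˢ range N).filter fun x : ℕ × ℕ => GG N θ A n t₁ x.1 x.2 ∧
      sep N (θ ^ 5) x.1 t₀ ∧ sep N (θ ^ 5) x.1 t₁ ∧ sep N (θ ^ 5) x.2 t₁ with hW
  set X := (range N).filter fun p => ¬ sep N (θ ^ 5) p t₀ with hX
  set Y := (range N).filter fun p => ¬ sep N (θ ^ 5) p t₁ with hY
  have hsub : ((range N ×ˢ range N).filter fun x => GG N θ A n t₁ x.1 x.2) ⊆
      ((W ∪ X ×ˢ range N) ∪ Y ×ˢ range N) ∪ range N ×ˢ Y := by
    intro x hx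
    rw [mem_filter, mem_product] at hx
    simp only [hW, hX, hY, mem_union, mem_filter, mem_product]
    tauto
  have h3 := (card_le_card hsub).trans ((card_union_le _ _).trans
    (Nat.add_le_add_right ((card_union_le _ _).trans (Nat.add_le_add_right (card_union_le _ _) _)) _))
  rw [card_product, card_product, card_product, card_range] at h3
  have h4 : (((range N ×ˢ range N).filter fun x => GG N θ A n t₁ x.1 x.2).card : ℝ) ≤
      (W.card : ℝ) + (X.card : ℝ) * N + (Y.card : ℝ) * N + N * (Y.card : ℝ) := by exact_mod_cast h3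
  have h5 : θ ^ 5 ≤ θ / 16 := by
    have := gsta_pow h0 h1 1 4
    norm_num at this
    linarith
  have h6 := gsta_N h0 h1 hN 1 (by norm_num)
  have h7 : θ ^ 5 * N ≤ θ / 16 * N := by gcongr
  norm_num at h6
  have h8 : (X.card : ℝ) ≤ θ / 8 * N + 1 := by linarith
  have h9 : (Y.card : ℝ) ≤ θ / 8 * N + 1 := by linarith
  have h10 : (X.card : ℝ) * N ≤ (θ / 8 * N + 1) * N := by gcongr
  have h11 : (Y.card : ℝ) * N ≤ (θ / 8 * N + 1) * N := by gcongr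
  have h12 : 48 * (N : ℝ) ≤ θ * N * N := by gcongr; linarith
  nlinarith

/-- the `q` of a pair `(c, p)` -/
private def gstaQ (N n : ℕ) (η θ : ℝ) (A : Finset ℕ) (t₀ u t₁ : ℕ) (c : ℝ) (p q : ℕ) : Prop :=
  sep N η q t₁ ∧ ∃ z ∈ A, sep N η z t₁ ∧ sep N η z t₀ ∧ Rel η t₀ u t₁ c p q z ∧ GG N θ A n t₁ z q

open Classical in
private theorem gsta_R {N n : ℕ} {θ : ℝ} (h0 : 0 < θ) (h1 : θ ≤ 1 / 2) {A : Finset ℕ}
    (hA : A ⊆ range N) (hcard : θ * N ≤ A.card) (hN : (1 / θ) ^ 40 ≤ N) {t₀ u t₁ : ℕ}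
    (ht0 : t₀ ∈ A) (hu : u ∈ A) (ht1 : t₁ ∈ A) (hs1 : sep N (θ ^ 5) t₀ t₁)
    (hg : θ / 2 * (N : ℝ) ^ 2 ≤
      ((range N ×ˢ range N).filter fun x => GG N θ A n t₁ x.1 x.2).card) :
    θ ^ 17 / 96 * (N : ℝ) ^ 3 ≤ ∑ c ∈ (cr N (θ ^ 5)).filter (fun c : ℤ => θ ^ 40 * N ≤ |(c : ℝ)|),
      ∑ p ∈ A.filter (fun p => sep N (θ ^ 5) p t₀ ∧ sep N (θ ^ 5) p u),
        ((A.filter fun q => gstaQ N n (θ ^ 5) θ A t₀ u t₁ (c : ℝ) p q).card : ℝ) := by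
  have hN0 : (0 : ℝ) ≤ N := Nat.cast_nonneg N
  have hNlt : ∀ {x : ℕ}, x ∈ A → x < N := fun h => mem_range.1 (hA h)
  have hP := gsta_P h0 h1 hcard hN t₀ u
  have hW := gsta_W h0 h1 hN t₀ t₁ hg
  set P := A.filter (fun p => sep N (θ ^ 5) p t₀ ∧ sep N (θ ^ 5) p u) with hPdef
  set W := (range N ×ˢ range N).filter fun x : ℕ × ℕ => GG N θ A n t₁ x.1 x.2 ∧
      sep N (θ ^ 5) x.1 t₀ ∧ sep N (θ ^ 5) x.1 t₁ ∧ sep N (θ ^ 5) x.2 t₁ with hWdef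
  set C := (cr N (θ ^ 5)).filter (fun c : ℤ => θ ^ 40 * N ≤ |(c : ℝ)|) with hC
  have memW : ∀ x : ℕ × ℕ, x ∈ W → (x.1 < N ∧ x.2 < N) ∧ GG N θ A n t₁ x.1 x.2 ∧
      sep N (θ ^ 5) x.1 t₀ ∧ sep N (θ ^ 5) x.1 t₁ ∧ sep N (θ ^ 5) x.2 t₁ := by
    intro x hx
    rw [hWdef, mem_filter, mem_product, mem_range, mem_range] at hx
    exact hx
  have h5pos : 0 < θ ^ 5 := by positivity
  have h51 : θ ^ 5 ≤ 1 := pow_le_one₀ h0.le (by linarith)
  have hN15 := gsta_N h0 h1 hN 15 (by norm_num)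
  have hNc : 2 / (θ ^ 5) ^ 3 ≤ N := by
    rw [div_le_iff₀ (by positivity), ← pow_mul]
    norm_num at hN15
    norm_num
    linarith
  have hex : ∀ x ∈ P ×ˢ W, ∃ c ∈ C, Rel (θ ^ 5) t₀ u t₁ (c : ℝ) x.1 x.2.2 x.2.1 := by
    intro x hx
    rw [mem_product, hPdef, hWdef, mem_filter, mem_filter, mem_product, mem_range, mem_range] at hx
    obtain ⟨⟨p1, p2, p3⟩, ⟨w1, w2⟩, w3, w4, w5, w6⟩ := hx
    obtain ⟨c, hc, hc2, hc3⟩ := exists_c h5pos h51 hNc (hNlt ht0) (hNlt hu) (hNlt ht1) (hNlt p1)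
      w2 w1 w4 w5 w6 p2 p3
    refine ⟨c, ?_, hc3⟩
    rw [hC, mem_filter]
    refine ⟨hc, le_trans ?_ hc2⟩
    have e1 : θ ^ 40 ≤ (θ ^ 5) ^ 3 / 2 := by
      rw [← pow_mul]
      have := gsta_pow h0 h1 15 25
      norm_num at this ⊢
      have h15 : 0 < θ ^ 15 := by positivity
      linarith
    gcongr
  choose! cc hcc hcr using hex
  let F : ℕ × (ℕ × ℕ) → ℤ × (ℕ × ℕ) := fun x => (cc x, (x.1, x.2.2))
  let R := (C ×ˢ (P ×ˢ A)).filter fun y : ℤ × (ℕ × ℕ) =>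
    gstaQ N n (θ ^ 5) θ A t₀ u t₁ (y.1 : ℝ) y.2.1 y.2.2
  have hFR : (P ×ˢ W).image F ⊆ R := by
    intro y hy
    obtain ⟨x, hx, rfl⟩ := mem_image.1 hy
    have hx' := hx
    obtain ⟨hxP, hxW⟩ := mem_product.1 hx
    obtain ⟨w1, w3, w4, w5, w6⟩ := memW _ hxW
    have hm := w3.mem
    refine mem_filter.2 ⟨mem_product.2 ⟨hcc x hx', mem_product.2 ⟨hxP, hm.2.2⟩⟩, ?_⟩
    exact ⟨w6, x.2.1, hm.2.1, w5, w4, hcr x hx', w3⟩
  have hfib : ∀ y ∈ (P ×ˢ W).image F, ((P ×ˢ W).filter fun x => F x = y).card ≤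
      ⌊3 / (θ ^ 5) ^ 3⌋₊ := by
    intro y hy
    obtain ⟨x₀, hx₀, rfl⟩ := mem_image.1 hy
    have hw₀ := memW _ (mem_product.1 hx₀).2
    apply Nat.le_floor
    set Z := ((P ×ˢ W).filter fun x => F x = F x₀).image (fun x => x.2.1) with hZ
    have hinj : Set.InjOn (fun x : ℕ × (ℕ × ℕ) => x.2.1)
        (((P ×ˢ W).filter fun x => F x = F x₀) : Finset (ℕ × (ℕ × ℕ))) := by
      intro a ha b hb hab
      rw [mem_coe, mem_filter] at ha hb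
      have e : F a = F b := ha.2.trans hb.2.symm
      simp only [F, Prod.mk.injEq] at e
      have hab' : a.2.1 = b.2.1 := hab
      exact Prod.ext e.2.1 (Prod.ext hab' e.2.2)
    rw [← card_image_of_injOn hinj, ← hZ]
    refine mult_z (u := u) (p := x₀.1) (q := x₀.2.2) (c := (cc x₀ : ℝ)) h5pos h51 (hNlt ht1)
      hw₀.2.2.2.2 hs1 Z ?_
    intro z hz
    rw [hZ, mem_image] at hz
    obtain ⟨x, hx, rfl⟩ := hz
    rw [mem_filter] at hx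
    obtain ⟨hx1, hx2⟩ := hx
    have hr := hcr x hx1
    simp only [F, Prod.mk.injEq] at hx2
    rw [hx2.1, hx2.2.1, hx2.2.2] at hr
    have hw := memW _ (mem_product.1 hx1).2
    exact ⟨hw.1.1, hw.2.2.2.1, hr⟩
  have hcount := card_le_mul_card_image (P ×ˢ W) _ hfib
  have hcount2 : ((P ×ˢ W).card : ℝ) ≤ 3 / (θ ^ 5) ^ 3 * (R.card : ℝ) := by
    have e1 : ((P ×ˢ W).card : ℝ) ≤ (⌊3 / (θ ^ 5) ^ 3⌋₊ : ℝ) * ((P ×ˢ W).image F).card := by
      exact_mod_cast hcount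
    have e2 : (⌊3 / (θ ^ 5) ^ 3⌋₊ : ℝ) ≤ 3 / (θ ^ 5) ^ 3 := Nat.floor_le (by positivity)
    have e3 : (((P ×ˢ W).image F).card : ℝ) ≤ R.card := by exact_mod_cast card_le_card hFR
    calc _ ≤ _ := e1
      _ ≤ _ := by gcongr
  have hR : (R.card : ℝ) = ∑ c ∈ C, ∑ p ∈ P,
      ((A.filter fun q => gstaQ N n (θ ^ 5) θ A t₀ u t₁ (c : ℝ) p q).card : ℝ) := by
    simp only [R]
    rw [card_filter, sum_product]
    push_cast
    refine sum_congr rfl fun c _ => ?_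
    rw [sum_product]
    refine sum_congr rfl fun p _ => ?_
    rw [card_filter]
    push_cast
    rfl
  rw [← hR]
  rw [card_product] at hcount2
  push_cast at hcount2
  have hPW : θ / 2 * N * (θ / 16 * (N : ℝ) ^ 2) ≤ (P.card : ℝ) * W.card := by gcongr
  have h15 : 0 < (θ ^ 5) ^ 3 := by positivity
  have e4 := hPW.trans hcount2
  rw [show 3 / (θ ^ 5) ^ 3 * (R.card : ℝ) = (3 * (R.card : ℝ)) / (θ ^ 5) ^ 3 by ring,
    le_div_iff₀ h15] at e4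
  have e5 : θ / 2 * N * (θ / 16 * (N : ℝ) ^ 2) * (θ ^ 5) ^ 3 = 3 * (θ ^ 17 / 96 * (N : ℝ) ^ 3) := by ring
  linarith

open Classical in
theorem good_of_many {N n : ℕ} {θ : ℝ} (h0 : 0 < θ) (h1 : θ ≤ 1 / 2) {A : Finset ℕ}
    (hA : A ⊆ range N) (hcard : θ * N ≤ A.card) (hN : (1 / θ) ^ 40 ≤ N) {t₀ u t₁ : ℕ}
    (ht0 : t₀ ∈ A) (hu : u ∈ A) (ht1 : t₁ ∈ A) (hs1 : sep N (θ ^ 5) t₀ t₁)
    (hs2 : sep N (θ ^ 5) t₀ u)
    (hg : θ / 2 * (N : ℝ) ^ 2 ≤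
      ((range N ×ˢ range N).filter fun x => GG N θ A n t₁ x.1 x.2).card) :
    GG N (θ ^ 40) A (n + 1) t₀ u t₁ := by
  have hR := gsta_R h0 h1 hA hcard hN ht0 hu ht1 hs1 hg
  have hNlt : ∀ {x : ℕ}, x ∈ A → x < N := fun h => mem_range.1 (hA h)
  have hN1 : 1 ≤ N := Nat.one_le_iff_ne_zero.2 (by have := hNlt ht0; omega)
  have hNpos : (0 : ℝ) < N := by exact_mod_cast hN1
  have h51 : θ ^ 5 ≤ 1 := pow_le_one₀ h0.le (by linarith)
  have h40 : θ ^ 40 ≤ θ ^ 5 := pow_le_pow_of_le_one h0.le (by linarith) (by norm_num)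
  have h401 : θ ^ 40 ≤ θ := by
    calc θ ^ 40 ≤ θ ^ 1 := pow_le_pow_of_le_one h0.le (by linarith) (by norm_num)
      _ = θ := pow_one θ
  have h40pos : 0 < θ ^ 40 := by positivity
  have hAN : (A.card : ℝ) ≤ N := by
    have := card_le_card hA
    rw [card_range] at this
    exact_mod_cast this
  set P := A.filter (fun p => sep N (θ ^ 5) p t₀ ∧ sep N (θ ^ 5) p u) with hPdef
  set C := (cr N (θ ^ 5)).filter (fun c : ℤ => θ ^ 40 * N ≤ |(c : ℝ)|) with hC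
  have hPN : (P.card : ℝ) ≤ N := le_trans (by exact_mod_cast card_filter_le _ _) hAN
  have hQN : ∀ (c : ℝ) (p : ℕ),
      ((A.filter fun q => gstaQ N n (θ ^ 5) θ A t₀ u t₁ c p q).card : ℝ) ≤ N := fun c p =>
    le_trans (by exact_mod_cast card_filter_le _ _) hAN
  have hcrc := card_cr (N := N) (η := θ ^ 5) (by positivity) h51 hN1
  have hCcard : (C.card : ℝ) ≤ 5 * N / (θ ^ 5) ^ 2 :=
    le_trans (by exact_mod_cast card_filter_le _ _) hcrc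
  have g1 := pig C (fun c : ℤ => ∑ p ∈ P,
      ((A.filter fun q => gstaQ N n (θ ^ 5) θ A t₀ u t₁ (c : ℝ) p q).card : ℝ))
    (a := θ ^ 17 / 96 * (N : ℝ) ^ 3) (B := (N : ℝ) ^ 2) (K := 5 * N / (θ ^ 5) ^ 2)
    (by positivity) (by positivity) (by positivity) (by
      intro c _
      calc ∑ p ∈ P, ((A.filter fun q => gstaQ N n (θ ^ 5) θ A t₀ u t₁ (c : ℝ) p q).card : ℝ)
          ≤ ∑ p ∈ P, (N : ℝ) := sum_le_sum fun p _ => hQN _ _
        _ = P.card * N := by rw [sum_const, nsmul_eq_mul]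
        _ ≤ N * N := by gcongr
        _ = (N : ℝ) ^ 2 := by ring) hCcard hR
  have hth : θ ^ 40 ≤ θ ^ 17 / 96 * θ ^ 10 / 20 := by
    have := gsta_pow h0 h1 27 13
    norm_num at this
    have h27 : 0 < θ ^ 27 := by positivity
    have e : θ ^ 17 / 96 * θ ^ 10 / 20 = θ ^ 27 / 1920 := by ring
    rw [e]
    linarith
  have hth2 : θ ^ 40 ≤ θ ^ 17 / 96 / 2 := by
    have := gsta_pow h0 h1 17 23
    norm_num at this
    have h27 : 0 < θ ^ 17 := by positivity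
    linarith
  refine ⟨⟨ht0, hu, ht1⟩, hs1.mono h40, hs2.mono h40, ?_⟩
  set Gd := C.filter fun c : ℤ => θ ^ 17 / 96 * (N : ℝ) ^ 3 / (2 * (5 * N / (θ ^ 5) ^ 2)) ≤
    ∑ p ∈ P, ((A.filter fun q => gstaQ N n (θ ^ 5) θ A t₀ u t₁ (c : ℝ) p q).card : ℝ) with hGd
  have hGdc : θ ^ 40 * N ≤ (Gd.card : ℝ) := by
    have g2 : θ ^ 17 / 96 * (N : ℝ) ^ 3 / (2 * (N : ℝ) ^ 2) ≤ (Gd.card : ℝ) := by
      rw [hGd]
      convert g1 using 2
    refine le_trans ?_ g2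
    have e : θ ^ 17 / 96 * (N : ℝ) ^ 3 / (2 * (N : ℝ) ^ 2) = θ ^ 17 / 96 / 2 * N := by
      field_simp
    rw [e]
    gcongr
  refine hGdc.trans ?_
  rw [← card_image_of_injective Gd (Int.cast_injective (α := ℝ))]
  refine Nat.cast_le.2 (card_le_card ?_)
  intro c' hc'
  obtain ⟨c, hc, rfl⟩ := mem_image.1 hc'
  rw [hGd, mem_filter, hC, mem_filter] at hc
  obtain ⟨⟨hc1, hc2⟩, hc3⟩ := hc
  rw [mem_filter]
  refine ⟨?_, hc2, ?_⟩
  · simp only [Finset.bind_def, Finset.mem_sup, Finset.pure_def, Finset.mem_singleton]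
    exact ⟨c, cr_mono h40pos h40 hc1, rfl⟩
  · have g3 := pig P (fun p : ℕ => ((A.filter fun q => gstaQ N n (θ ^ 5) θ A t₀ u t₁ (c : ℝ) p q).card : ℝ))
      (a := θ ^ 17 / 96 * θ ^ 10 / 10 * (N : ℝ) ^ 2) (B := (N : ℝ)) (K := (N : ℝ))
      hNpos hNpos (by positivity) (fun p _ => hQN _ _) hPN (by
        refine le_trans (le_of_eq ?_) hc3
        field_simp
        try ring)
    have e2 : θ ^ 17 / 96 * θ ^ 10 / 10 * (N : ℝ) ^ 2 / (2 * N) = θ ^ 17 / 96 * θ ^ 10 / 20 * N := by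
      field_simp
      try ring
    rw [e2] at g3
    have e3 : θ ^ 40 * N ≤ θ ^ 17 / 96 * θ ^ 10 / 20 * N := by gcongr
    refine (e3.trans g3).trans (Nat.cast_le.2 (card_le_card ?_))
    intro p hp
    rw [mem_filter, hPdef, mem_filter] at hp
    obtain ⟨⟨hp1, hp2, hp3⟩, hp4⟩ := hp
    rw [mem_filter]
    refine ⟨hp1, hp2.mono h40, hp3.mono h40, ?_⟩
    refine (e3.trans hp4).trans (Nat.cast_le.2 (card_le_card ?_))
    intro q hq
    rw [mem_filter] at hq ⊢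
    obtain ⟨hq1, hq2, z, hz, hz1, hz2, hz3, hz4⟩ := hq
    exact ⟨hq1, hq2.mono h40, z, hz, hz1.mono h40, hz2.mono h40, hz3.mono h40pos h40,
      hz4.mono h40pos h401⟩

end Pool.Agent.MPac5134.KH
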