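import Mathlib

/-!
# KH-HA: covers by dyadic balls of a set of Hausdorff measure zero

PROOF.  `μH[s] E = 0` (`hausdorffMeasure_of_dimH_lt` or similar).  `Measure.hausdorffMeasure_apply`: for `r = 2^-k₀/2`
there is a cover `E ⊆ ⋃ t n`, `diam (t n) ≤ r`, `∑' ⨆ (t n).Nonempty, diam (t n)^s < ε`, `ε` small.  For a nonempty `t n`
choose `x n ∈ t n` and `k n` with `2^-(k n) ≥ diam (t n)`, `2^-(k n) ≤ 2 diam (t n) + 2^-(n + k₀ + 10)...` (the second
term if the diameter is `0` or tiny), `k n ≥ k₀`, so that `∑ (2^-(k n))^s ≤ 1` (`(a + b)^s ≤ C_s (a^s + b^s)`; choose the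
second term as `2^-(m n)` with `∑ 2^-(m n) s` small: `m n = k₀' + M (n + 1)`, `M s ≥ 1`, large `k₀'`).  Then
`t n ⊆ closedBall (x n) (2^-(k n))`.  For an empty `t n` take any `x n`, large `k n`.
Only the finiteness of `#{n | k n = k}` and `#{n | k n = k} ≤ 2^(k s)` is needed below (from `∑ ≤ 1`).
-/

open MeasureTheory

namespace Pool.Agent.MPac5134.KH

private theorem ha_cover {X : Type} [MetricSpace X] [MeasurableSpace X] [BorelSpace X]
    {E : Set X} {s : ℝ} (hE : Measure.hausdorffMeasure s E = 0) {r ε : ENNReal}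
    (hr : 0 < r) (hε : 0 < ε) :
    ∃ t : ℕ → Set X, E ⊆ ⋃ n, t n ∧ (∀ n, Metric.ediam (t n) ≤ r) ∧
      ∑' n, ⨆ _ : (t n).Nonempty, Metric.ediam (t n) ^ s < ε := by
  rw [Measure.hausdorffMeasure_apply] at hE
  have h1 := (ENNReal.iSup_eq_zero.1 hE) r
  have h2 := (ENNReal.iSup_eq_zero.1 h1) hr
  rw [← h2] at hε
  obtain ⟨t, ht⟩ := iInf_lt_iff.1 hε
  obtain ⟨h3, ht⟩ := iInf_lt_iff.1 ht
  obtain ⟨h4, ht⟩ := iInf_lt_iff.1 ht
  exact ⟨t, h3, h4, ht⟩

theorem dyadic_cover {X : Type} [MetricSpace X] [MeasurableSpace X] [BorelSpace X] [Nonempty X]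
    {E : Set X} {s : ℝ} (hs : 0 < s) (hE : Measure.hausdorffMeasure s E = 0) (k₀ : ℕ) :
    ∃ (x : ℕ → X) (k : ℕ → ℕ), (∀ n, k₀ ≤ k n) ∧
      E ⊆ ⋃ n, Metric.closedBall (x n) ((1 / 2 : ℝ) ^ (k n)) ∧
      ∀ j : ℕ, {n | k n = j}.Finite ∧ ({n | k n = j}.ncard : ℝ) ≤ (2 : ℝ) ^ (j * s) := by
  classical
  set ε : ℝ := ((2 : ℝ) ^ s)⁻¹ / 2 with hεd
  have h2s : (0 : ℝ) < (2 : ℝ) ^ s := Real.rpow_pos_of_pos two_pos s
  have hε : 0 < ε := by positivity
  have hr0 : (0 : ℝ) < (1 / 2 : ℝ) ^ k₀ := by positivity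
  obtain ⟨t, hcov, hdiam, hsum⟩ := ha_cover hE (r := ENNReal.ofReal ((1 / 2 : ℝ) ^ k₀))
    (ε := ENNReal.ofReal ε) (ENNReal.ofReal_pos.2 hr0) (ENNReal.ofReal_pos.2 hε)
  set d : ℕ → ℝ := fun n => (Metric.ediam (t n)).toReal with hd
  have hfin : ∀ n, Metric.ediam (t n) ≠ ⊤ := fun n =>
    ne_top_of_le_ne_top ENNReal.ofReal_ne_top (hdiam n)
  have hd0 : ∀ n, 0 ≤ d n := fun n => ENNReal.toReal_nonneg
  have hdle : ∀ n, d n ≤ (1 / 2 : ℝ) ^ k₀ := by
    intro n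
    exact ENNReal.toReal_le_of_le_ofReal hr0.le (hdiam n)
  have hdsum : ∀ F : Finset ℕ, ∑ n ∈ F, (d n) ^ s ≤ ε := by
    intro F
    have h1 : ENNReal.ofReal (∑ n ∈ F, (d n) ^ s) ≤ ENNReal.ofReal ε := by
      rw [ENNReal.ofReal_sum_of_nonneg fun n _ => Real.rpow_nonneg (hd0 n) s]
      calc ∑ n ∈ F, ENNReal.ofReal ((d n) ^ s)
          ≤ ∑ n ∈ F, ⨆ _ : (t n).Nonempty, Metric.ediam (t n) ^ s := by
            apply Finset.sum_le_sum
            intro n _
            rcases (t n).eq_empty_or_nonempty with h | h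
            · have : d n = 0 := by
                simp only [hd, h, Metric.ediam_empty, ENNReal.toReal_zero]
              rw [this, Real.zero_rpow hs.ne', ENNReal.ofReal_zero]
              exact zero_le
            · refine le_trans ?_ (le_iSup _ h)
              rw [← ENNReal.ofReal_rpow_of_nonneg (hd0 n) hs.le, ENNReal.ofReal_toReal (hfin n)]
        _ ≤ ∑' n, ⨆ _ : (t n).Nonempty, Metric.ediam (t n) ^ s := ENNReal.sum_le_tsum F
        _ ≤ ENNReal.ofReal ε := hsum.le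
    exact (ENNReal.ofReal_le_ofReal_iff hε.le).1 h1
  obtain ⟨M, hM⟩ := exists_nat_ge (1 / s)
  have hMs : 1 ≤ (M : ℝ) * s := by
    have := mul_le_mul_of_nonneg_right hM hs.le
    rwa [one_div, inv_mul_cancel₀ hs.ne'] at this
  set m : ℕ → ℕ := fun n => k₀ + M * (n + 2) with hm
  set k : ℕ → ℕ := fun n => Nat.findGreatest (fun i => d n ≤ (1 / 2 : ℝ) ^ i) (m n) with hk
  have hk0 : ∀ n, k₀ ≤ k n := fun n => Nat.le_findGreatest (Nat.le_add_right _ _) (hdle n)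
  have hkd : ∀ n, d n ≤ (1 / 2 : ℝ) ^ (k n) := by
    intro n
    exact Nat.findGreatest_spec (P := fun i => d n ≤ (1 / 2 : ℝ) ^ i)
      (Nat.le_add_right k₀ (M * (n + 2))) (hdle n)
  have hkey : ∀ n, ((1 / 2 : ℝ) ^ (k n)) ^ s ≤ (2 : ℝ) ^ s * (d n) ^ s + (1 / 2 : ℝ) ^ (n + 2) := by
    intro n
    have hkm : k n ≤ m n := Nat.findGreatest_le _
    rcases lt_or_eq_of_le hkm with h | h
    · have h1 : ¬ d n ≤ (1 / 2 : ℝ) ^ (k n + 1) :=
        Nat.findGreatest_is_greatest (P := fun i => d n ≤ (1 / 2 : ℝ) ^ i)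
          (Nat.lt_succ_self (k n)) h
      have h2 : (1 / 2 : ℝ) ^ (k n) ≤ 2 * d n := by
        rw [pow_succ] at h1
        push Not at h1
        linarith
      have h3 : ((1 / 2 : ℝ) ^ (k n)) ^ s ≤ (2 * d n) ^ s :=
        Real.rpow_le_rpow (by positivity) h2 hs.le
      rw [Real.mul_rpow two_pos.le (hd0 n)] at h3
      have h4 : (0 : ℝ) ≤ (1 / 2 : ℝ) ^ (n + 2) := by positivity
      linarith
    · have h1 : ((1 / 2 : ℝ) ^ (k n)) ^ s ≤ (1 / 2 : ℝ) ^ (n + 2) := by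
        rw [← Real.rpow_natCast, ← Real.rpow_natCast, ← Real.rpow_mul (by norm_num)]
        apply Real.rpow_le_rpow_of_exponent_ge (by norm_num) (by norm_num)
        rw [h]
        simp only [hm]
        push_cast
        have h5 : (0 : ℝ) ≤ (k₀ : ℝ) * s := by positivity
        have h6 : (1 : ℝ) * ((n : ℝ) + 2) ≤ (M : ℝ) * s * ((n : ℝ) + 2) :=
          mul_le_mul_of_nonneg_right hMs (by positivity)
        nlinarith
      have h4 : 0 ≤ (2 : ℝ) ^ s * (d n) ^ s := mul_nonneg h2s.le (Real.rpow_nonneg (hd0 n) s)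
      linarith
  have hgeo : ∀ F : Finset ℕ, ∑ n ∈ F, (1 / 2 : ℝ) ^ (n + 2) ≤ 1 / 2 := by
    intro F
    have h1 : Summable fun n : ℕ => (1 / 2 : ℝ) ^ (n + 2) := by
      have : Summable fun n : ℕ => (1 / 2 : ℝ) ^ n * (1 / 2 : ℝ) ^ 2 :=
        (summable_geometric_of_lt_one (by norm_num) (by norm_num)).mul_right _
      simpa only [pow_add] using this
    refine (h1.sum_le_tsum F fun n _ => by positivity).trans ?_
    have h2 : ∑' n : ℕ, (1 / 2 : ℝ) ^ (n + 2) = (∑' n : ℕ, (1 / 2 : ℝ) ^ n) * (1 / 2 : ℝ) ^ 2 := by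
      rw [← tsum_mul_right]
      simp only [pow_add]
    rw [h2, tsum_geometric_of_lt_one (by norm_num) (by norm_num)]
    norm_num
  have hcount : ∀ (j : ℕ) (F : Finset ℕ), (∀ n ∈ F, k n = j) → (F.card : ℝ) ≤ (2 : ℝ) ^ (j * s) := by
    intro j F hF
    have h1 : (F.card : ℝ) * ((1 / 2 : ℝ) ^ j) ^ s ≤ 1 := by
      calc (F.card : ℝ) * ((1 / 2 : ℝ) ^ j) ^ s = ∑ n ∈ F, ((1 / 2 : ℝ) ^ (k n)) ^ s := by
            rw [Finset.sum_congr rfl fun n hn => by rw [hF n hn], Finset.sum_const, nsmul_eq_mul]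
        _ ≤ ∑ n ∈ F, ((2 : ℝ) ^ s * (d n) ^ s + (1 / 2 : ℝ) ^ (n + 2)) :=
            Finset.sum_le_sum fun n _ => hkey n
        _ = (2 : ℝ) ^ s * ∑ n ∈ F, (d n) ^ s + ∑ n ∈ F, (1 / 2 : ℝ) ^ (n + 2) := by
            rw [Finset.sum_add_distrib, Finset.mul_sum]
        _ ≤ (2 : ℝ) ^ s * ε + 1 / 2 :=
            add_le_add (mul_le_mul_of_nonneg_left (hdsum F) h2s.le) (hgeo F)
        _ = 1 := by
            rw [hεd]
            field_simp
            norm_num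
    have h2 : ((1 / 2 : ℝ) ^ j) ^ s = ((2 : ℝ) ^ (j * s))⁻¹ := by
      rw [one_div, inv_pow, Real.inv_rpow (by positivity), Real.rpow_mul two_pos.le,
        Real.rpow_natCast]
    rw [h2, ← div_eq_mul_inv, div_le_one (Real.rpow_pos_of_pos two_pos _)] at h1
    exact h1
  have hx : ∀ n, ∃ y : X, (t n).Nonempty → y ∈ t n := by
    intro n
    by_cases h : (t n).Nonempty
    · exact ⟨h.some, fun _ => h.some_mem⟩
    · exact ⟨Classical.arbitrary X, fun h' => absurd h' h⟩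
  choose x hx using hx
  refine ⟨x, k, hk0, ?_, ?_⟩
  · refine hcov.trans (Set.iUnion_mono fun n => ?_)
    intro y hy
    rw [Metric.mem_closedBall]
    have h1 : edist y (x n) ≤ Metric.ediam (t n) := Metric.edist_le_ediam_of_mem hy (hx n ⟨y, hy⟩)
    have h2 : dist y (x n) ≤ d n := by
      rw [dist_edist]
      exact ENNReal.toReal_mono (hfin n) h1
    exact h2.trans (hkd n)
  · intro j
    have hfinj : {n | k n = j}.Finite := by
      by_contra hinf
      obtain ⟨N, hN⟩ := exists_nat_gt ((2 : ℝ) ^ (j * s))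
      obtain ⟨F, hF, hFc⟩ := (Set.Infinite.exists_subset_card_eq hinf N)
      have := hcount j F fun n hn => hF hn
      rw [hFc] at this
      linarith
    refine ⟨hfinj, ?_⟩
    rw [Set.ncard_eq_toFinset_card _ hfinj]
    exact hcount j _ fun n hn => by simpa using hn

end Pool.Agent.MPac5134.KH
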