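import Pool.Agent.Lib.MP_ac5134_an.KH.HA
import Pool.Agent.Lib.MP_ac5134_an.KH.HB
import Pool.Agent.Lib.MP_ac5134_an.Defs

/-!
# KH-HC: Hausdorff dimension

PROOF of `haus_box`.  Suppose `dimH E < 1 + d/α`; choose a real `s > 0` with `dimH E < s < 1 + d/α`, so
`μH[s] E = 0`.  For `ω ∈ Ω` the set `E` contains the points `(a ω + τ ω, m/4 + τ)`, `0 ≤ τ ≤ 1/4`.  For `k₀` large (below)
take the cover of `dyadic_cover`.  For `k ≥ 1` put
`T k ω = {t ∈ [0,1) | the point with τ = t/4 lies in some ball n with k n = k}` (measurable: a finite union of closed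
sets intersected with `[0,1)`), `Ω k = {ω ∈ Ω | |T k ω| ≥ 1/(4k²)}`.  `∑_k |T k ω| ≥ 1` and `∑ 1/(4 k²) < 1`, so
`Ω ⊆ ⋃_{k ≥ k₀} Ω k`, and `∑_k volume (Ω k) ≥ volume Ω = m₀ > 0`, so for some `k ≥ k₀`: `volume (Ω k) ≥ m₀/(4 k²)`
(outer measures).  `dir_count` with `N = 2^k`, `lam = 1/(4k²)`, `X` = the centres `(x', x_last - m/4)` of the balls with `k n = k`
(at most `2^(ks)`): `(1/(8k²))^C 2^k (2^(kd) m₀/(4k²))^(1/α) ≤ C 2^(ks)`, false for large `k` as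
`1 + d/α > s`; so choose `k₀` such that it is false for all `k ≥ k₀`.

PROOF of `haus`: for `ω ∈ [0,1)^d` with `∑ ω_k² ≤ ...` (`ω ∈ [0, 1/(d+1))^d` is enough; or all `ω ∈ [0,1)^d` with the window
length `1/4` replaced: note `|(ω,1)| ≤ √(d+1)`): the unit segment in the direction `(ω,1)/|(ω,1)|` contains the points
`(a + τ ω, h + τ)`, `0 ≤ τ ≤ 1/|(ω,1)|`, `1/|(ω,1)| ≥ 1/2` for `ω ∈ Ω₀ = [0, 1/(d+1))^d`.  The interval `[h, h + 1/2]` contains some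
`[m/4, (m+1)/4]`, `m ∈ Z`.  `Ω₀ = ⋃_m Ω_m`, so some `Ω_m` has positive outer measure; `haus_box`.
-/

open MeasureTheory

namespace Pool.Agent.MPac5134.KH

private theorem HC_sum (m : ℝ) (hm : 0 < m) :
    ∑' k : ℕ, ENNReal.ofReal (m / (4 * (k : ℝ) ^ 2)) < ENNReal.ofReal m := by
  have h1 : HasSum (fun n : ℕ => m / 4 * ((1 : ℝ) / (n : ℝ) ^ 2)) (m / 4 * (Real.pi ^ 2 / 6)) :=
    hasSum_zeta_two.mul_left _
  have h2 : (fun n : ℕ => m / 4 * ((1 : ℝ) / (n : ℝ) ^ 2)) = fun k : ℕ => m / (4 * (k : ℝ) ^ 2) := by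
    funext k
    rw [mul_one_div, div_div]
  rw [h2] at h1
  rw [← ENNReal.ofReal_tsum_of_nonneg (fun n => by positivity) h1.summable, h1.tsum_eq]
  apply (ENNReal.ofReal_lt_ofReal_iff hm).2
  have h3 : Real.pi < 4 := Real.pi_lt_four
  have h4 : 0 < Real.pi := Real.pi_pos
  have h5 : Real.pi ^ 2 < 16 := by nlinarith
  nlinarith

private theorem HC_large (C : ℕ) {s σ β m : ℝ} (hs : s < σ) (hβ0 : 0 ≤ β) (hβ1 : β ≤ 1) (hm : 0 < m) :
    ∃ k₀ : ℕ, 1 ≤ k₀ ∧ ∀ k : ℕ, k₀ ≤ k →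
      (C : ℝ) * (2 : ℝ) ^ ((k : ℝ) * s) <
        (1 / (4 * (k : ℝ) ^ 2) / 2) ^ C * (2 : ℝ) ^ ((k : ℝ) * σ) * (m / (4 * (k : ℝ) ^ 2)) ^ β := by
  set r : ℝ := (2 : ℝ) ^ (σ - s) with hr
  have hr1 : 1 < r := Real.one_lt_rpow (by norm_num) (by linarith)
  have hr0 : 0 < r := by linarith
  set c0 : ℝ := (1 / 8) ^ C * (m / 4) ^ β with hc0
  have hc0p : 0 < c0 := by
    rw [hc0]
    have : 0 < (m / 4) ^ β := Real.rpow_pos_of_pos (by positivity) _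
    positivity
  have ht := tendsto_pow_const_div_const_pow_of_one_lt (2 * C + 2) hr1
  have hε : 0 < c0 / (C + 1) := by positivity
  obtain ⟨k₁, hk₁⟩ := Filter.eventually_atTop.1 (ht.eventually_lt_const hε)
  refine ⟨max k₁ 1, le_max_right _ _, fun k hk => ?_⟩
  have h1 := hk₁ k ((le_max_left _ _).trans hk)
  have hk1 : (1 : ℝ) ≤ k := by exact_mod_cast (le_max_right _ _).trans hk
  have hk0 : (0 : ℝ) < k := by linarith
  rw [div_lt_div_iff₀ (by positivity) (by positivity)] at h1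
  have e1 : (2 : ℝ) ^ ((k : ℝ) * σ) = (2 : ℝ) ^ ((k : ℝ) * s) * r ^ k := by
    rw [hr, ← Real.rpow_natCast, ← Real.rpow_mul (by norm_num), ← Real.rpow_add (by norm_num)]
    congr 1
    ring
  have e2 : (m / (4 * (k : ℝ) ^ 2)) ^ β = (m / 4) ^ β * (1 / (k : ℝ) ^ 2) ^ β := by
    rw [← Real.mul_rpow (by positivity) (by positivity)]
    congr 1
    field_simp
  have e3 : 1 / (k : ℝ) ^ 2 ≤ (1 / (k : ℝ) ^ 2) ^ β := by
    have h2 : 1 / (k : ℝ) ^ 2 ≤ 1 := by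
      rw [div_le_one (by positivity)]
      nlinarith
    calc 1 / (k : ℝ) ^ 2 = (1 / (k : ℝ) ^ 2) ^ (1 : ℝ) := (Real.rpow_one _).symm
      _ ≤ (1 / (k : ℝ) ^ 2) ^ β :=
          Real.rpow_le_rpow_of_exponent_ge (by positivity) h2 hβ1
  have e4 : (1 / (4 * (k : ℝ) ^ 2) / 2) ^ C = (1 / 8) ^ C * (1 / (k : ℝ) ^ 2) ^ C := by
    rw [← mul_pow]
    congr 1
    field_simp
    norm_num
  have hX : 0 < (2 : ℝ) ^ ((k : ℝ) * s) := Real.rpow_pos_of_pos (by norm_num) _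
  have hM : 0 < (m / 4) ^ β := Real.rpow_pos_of_pos (by positivity) _
  have e5 : c0 * r ^ k / (k : ℝ) ^ (2 * C + 2) ≤
      (1 / (4 * (k : ℝ) ^ 2) / 2) ^ C * r ^ k * (m / (4 * (k : ℝ) ^ 2)) ^ β := by
    rw [e4, e2, hc0]
    have h3 : (1 / (k : ℝ) ^ 2) ^ C * (1 / (k : ℝ) ^ 2) = 1 / (k : ℝ) ^ (2 * C + 2) := by
      rw [← pow_succ, div_pow, one_pow, ← pow_mul]
      ring_nf
    calc (1 / 8 : ℝ) ^ C * (m / 4) ^ β * r ^ k / (k : ℝ) ^ (2 * C + 2)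
        = (1 / 8 : ℝ) ^ C * (m / 4) ^ β * r ^ k * ((1 / (k : ℝ) ^ 2) ^ C * (1 / (k : ℝ) ^ 2)) := by
          rw [h3]; ring
      _ ≤ (1 / 8 : ℝ) ^ C * (m / 4) ^ β * r ^ k *
          ((1 / (k : ℝ) ^ 2) ^ C * (1 / (k : ℝ) ^ 2) ^ β) := by gcongr
      _ = _ := by ring
  have e6 : (C : ℝ) < c0 * r ^ k / (k : ℝ) ^ (2 * C + 2) := by
    rw [lt_div_iff₀ (by positivity)]
    have h4 : (0 : ℝ) < (k : ℝ) ^ (2 * C + 2) := by positivity
    nlinarith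
  calc (C : ℝ) * (2 : ℝ) ^ ((k : ℝ) * s) <
      ((1 / (4 * (k : ℝ) ^ 2) / 2) ^ C * r ^ k * (m / (4 * (k : ℝ) ^ 2)) ^ β) *
        (2 : ℝ) ^ ((k : ℝ) * s) := mul_lt_mul_of_pos_right (lt_of_lt_of_le e6 e5) hX
    _ = _ := by rw [e1]; ring

theorem haus_box {d : ℕ} {α : ℝ} (hα : 1 ≤ α) (hF : Flex d α) (E : Set (Sp d)) (m : ℤ)
    (Ω : Set (Fin d → ℝ)) (hΩ : ∀ ω ∈ Ω, ∀ k, 0 ≤ ω k ∧ ω k < 1) (hpos : volume Ω ≠ 0)
    (a : (Fin d → ℝ) → Fin d → ℝ)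
    (hE : ∀ ω ∈ Ω, ∀ τ : ℝ, 0 ≤ τ → τ ≤ 1 / 4 →
      (WithLp.toLp 2 (Fin.snoc (fun k => a ω k + τ * ω k) ((m : ℝ) / 4 + τ) : Fin (d + 1) → ℝ) :
        Sp d) ∈ E) :
    ENNReal.ofReal (1 + d / α) ≤ dimH E := by
  classical
  by_contra hcon
  rw [not_le] at hcon
  obtain ⟨s, hs1, hs2⟩ := ENNReal.lt_iff_exists_nnreal_btwn.1 hcon
  have hs0 : (0 : ℝ) < s := by
    have h1 : (0 : ENNReal) < (s : ENNReal) := lt_of_le_of_lt zero_le hs1
    exact_mod_cast h1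
  have hα0 : 0 < α := by linarith
  have hsσ : (s : ℝ) < 1 + d / α := by
    rw [ENNReal.ofReal, ENNReal.coe_lt_coe] at hs2
    have h1 := NNReal.coe_lt_coe.2 hs2
    rwa [Real.coe_toNNReal _ (by positivity)] at h1
  have hμ : Measure.hausdorffMeasure (s : ℝ) E = 0 := hausdorffMeasure_of_dimH_lt hs1
  obtain ⟨C, hC⟩ := dir_count hα hF
  -- a real lower bound for the measure
  obtain ⟨m₀, hm₀a, hm₀b⟩ := ENNReal.lt_iff_exists_nnreal_btwn.1 (pos_iff_ne_zero.2 hpos)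
  have hm₀ : (0 : ℝ) < m₀ := by exact_mod_cast hm₀a
  have hm₀c : ENNReal.ofReal (m₀ : ℝ) ≤ volume Ω := by
    rw [ENNReal.ofReal_coe_nnreal]
    exact hm₀b.le
  have hβ0 : 0 ≤ 1 / α := by positivity
  have hβ1 : 1 / α ≤ 1 := by
    rw [div_le_one hα0]
    exact hα
  obtain ⟨k₀, hk₀1, hk₀⟩ := HC_large C hsσ hβ0 hβ1 hm₀
  obtain ⟨x, k, hk, hcov, hfin⟩ := dyadic_cover hs0 hμ k₀
  set pt : (Fin d → ℝ) → ℝ → Sp d := fun ω τ =>
    (WithLp.toLp 2 (Fin.snoc (fun k => a ω k + τ * ω k) ((m : ℝ) / 4 + τ) : Fin (d + 1) → ℝ) :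
        Sp d) with hpt
  set T : ℕ → (Fin d → ℝ) → Set ℝ := fun j ω =>
    {t | t ∈ Set.Ico (0 : ℝ) 1 ∧ ∃ n, k n = j ∧
      pt ω (t / 4) ∈ Metric.closedBall (x n) ((1 / 2 : ℝ) ^ (k n))} with hT
  set Ωk : ℕ → Set (Fin d → ℝ) := fun j =>
    {ω | ω ∈ Ω ∧ ENNReal.ofReal (1 / (4 * (j : ℝ) ^ 2)) ≤ volume (T j ω)} with hΩk
  have hTk : ∀ j ω, j < k₀ → T j ω = ∅ := by
    intro j ω hj
    rw [Set.eq_empty_iff_forall_notMem]
    rintro t ⟨_, n, hn, _⟩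
    have := hk n
    omega
  have hcovω : ∀ ω ∈ Ω, Set.Ico (0 : ℝ) 1 ⊆ ⋃ j, T j ω := by
    intro ω hω t ht
    have h1 : pt ω (t / 4) ∈ E :=
      hE ω hω (t / 4) (by linarith [ht.1]) (by linarith [ht.2])
    obtain ⟨n, hn⟩ := Set.mem_iUnion.1 (hcov h1)
    exact Set.mem_iUnion.2 ⟨k n, ht, n, rfl, hn⟩
  have hΩsub : Ω ⊆ ⋃ j ∈ {j : ℕ | k₀ ≤ j}, Ωk j := by
    intro ω hω
    by_contra hno
    have h1 : ∀ j, volume (T j ω) ≤ ENNReal.ofReal (1 / (4 * (j : ℝ) ^ 2)) := by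
      intro j
      by_cases hj : k₀ ≤ j
      · by_contra hj2
        rw [not_le] at hj2
        apply hno
        refine Set.mem_iUnion₂.2 ⟨j, hj, hω, hj2.le⟩
      · rw [hTk j ω (by omega), measure_empty]
        exact zero_le
    have h2 : volume (Set.Ico (0 : ℝ) 1) ≤ ∑' j : ℕ, ENNReal.ofReal (1 / (4 * (j : ℝ) ^ 2)) :=
      (measure_mono (hcovω ω hω)).trans ((measure_iUnion_le _).trans (ENNReal.tsum_le_tsum h1))
    have h3 := HC_sum 1 one_pos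
    rw [Real.volume_Ico, sub_zero] at h2
    exact absurd (lt_of_le_of_lt h2 h3) (lt_irrefl _)
  -- a good scale
  obtain ⟨j, hj, hjvol⟩ : ∃ j, k₀ ≤ j ∧
      ENNReal.ofReal ((m₀ : ℝ) / (4 * (j : ℝ) ^ 2)) ≤ volume (Ωk j) := by
    by_contra hno
    push Not at hno
    have h1 : volume Ω ≤ ∑' j : ℕ, ENNReal.ofReal ((m₀ : ℝ) / (4 * (j : ℝ) ^ 2)) := by
      refine (measure_mono hΩsub).trans ((measure_iUnion_le _).trans (ENNReal.tsum_le_tsum ?_))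
      intro j
      by_cases hj : k₀ ≤ j
      · refine (measure_mono ?_).trans (hno j hj).le
        intro ω hω
        obtain ⟨_, hω⟩ := Set.mem_iUnion.1 hω
        exact hω
      · have h2 : (⋃ (_ : j ∈ {j : ℕ | k₀ ≤ j}), Ωk j) = ∅ := by
          rw [Set.eq_empty_iff_forall_notMem]
          intro ω hω
          obtain ⟨h3, _⟩ := Set.mem_iUnion.1 hω
          exact hj h3
        rw [h2, measure_empty]
        exact zero_le
    have h3 := HC_sum (m₀ : ℝ) hm₀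
    exact absurd (lt_of_le_of_lt (hm₀c.trans h1) h3) (lt_irrefl _)
  have hj1 : 1 ≤ j := hk₀1.trans hj
  have hjr : (1 : ℝ) ≤ j := by exact_mod_cast hj1
  obtain ⟨hfinj, hcardj⟩ := hfin j
  set X : Finset ((Fin d → ℝ) × ℝ) := hfinj.toFinset.image (fun n =>
    ((fun i : Fin d => x n i.castSucc), x n (Fin.last d) - (m : ℝ) / 4)) with hX
  have hXcard : (X.card : ℝ) ≤ (2 : ℝ) ^ ((j : ℝ) * s) := by
    refine le_trans ?_ hcardj
    rw [hX, Set.ncard_eq_toFinset_card _ hfinj]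
    exact_mod_cast Finset.card_image_le
  have hlam0 : (0 : ℝ) < 1 / (4 * (j : ℝ) ^ 2) := by positivity
  have hlam1 : 1 / (4 * (j : ℝ) ^ 2) ≤ 1 := by
    rw [div_le_one (by positivity)]
    nlinarith
  have h2j : (0 : ℝ) < (2 : ℝ) ^ j := by positivity
  have hcount := hC (2 ^ j) (1 / (4 * (j : ℝ) ^ 2)) (Ωk j) a X (T j) Nat.one_le_two_pow hlam0 hlam1
    (fun ω hω => hΩ ω hω.1) (fun ω hω => ⟨fun t ht => ht.1, hω.2⟩) (by
      rintro ω hω t ⟨ht, n, hn, hball⟩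
      have hd : ∀ i : Fin (d + 1), |pt ω (t / 4) i - x n i| ≤ 1 / (2 ^ j : ℕ) := by
        intro i
        have h1 := PiLp.norm_apply_le (pt ω (t / 4) - x n) i
        rw [Metric.mem_closedBall, dist_eq_norm, hn] at hball
        have h2 : (1 / 2 : ℝ) ^ j = 1 / ((2 ^ j : ℕ) : ℝ) := by
          push_cast
          rw [one_div_pow]
        rw [h2] at hball
        rw [PiLp.sub_apply, Real.norm_eq_abs] at h1
        exact h1.trans hball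
      refine ⟨((fun i : Fin d => x n i.castSucc), x n (Fin.last d) - (m : ℝ) / 4), ?_, ?_, ?_⟩
      · rw [hX, Finset.mem_image]
        exact ⟨n, hfinj.mem_toFinset.2 hn, rfl⟩
      · intro i
        have h1 := hd i.castSucc
        rw [hpt] at h1
        simpa using h1
      · have h1 := hd (Fin.last d)
        rw [hpt] at h1
        have h2 : (m : ℝ) / 4 + t / 4 - x n (Fin.last d) =
            t / 4 - (x n (Fin.last d) - (m : ℝ) / 4) := by ring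
        simp only [PiLp.toLp_apply, Fin.snoc_last] at h1
        rw [h2] at h1
        exact h1)
  -- comparison
  have hlow : ENNReal.ofReal ((1 / (4 * (j : ℝ) ^ 2) / 2) ^ C * ((2 ^ j : ℕ) : ℝ) *
      (((2 ^ j : ℕ) : ℝ) ^ d * ((m₀ : ℝ) / (4 * (j : ℝ) ^ 2))) ^ (1 / α)) ≤
      ENNReal.ofReal ((C : ℝ) * (2 : ℝ) ^ ((j : ℝ) * s)) := by
    calc _ = ENNReal.ofReal ((1 / (4 * (j : ℝ) ^ 2) / 2) ^ C * ((2 ^ j : ℕ) : ℝ)) *
          (ENNReal.ofReal (((2 ^ j : ℕ) : ℝ) ^ d) *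
            ENNReal.ofReal ((m₀ : ℝ) / (4 * (j : ℝ) ^ 2))) ^ (1 / α) := by
          have hA : (0 : ℝ) ≤ (1 / (4 * (j : ℝ) ^ 2) / 2) ^ C * ((2 ^ j : ℕ) : ℝ) := by positivity
          have hB : (0 : ℝ) ≤ ((2 ^ j : ℕ) : ℝ) ^ d := by positivity
          have hD : (0 : ℝ) ≤ ((2 ^ j : ℕ) : ℝ) ^ d * ((m₀ : ℝ) / (4 * (j : ℝ) ^ 2)) := by positivity
          rw [ENNReal.ofReal_mul hA, ← ENNReal.ofReal_mul hB,
            ENNReal.ofReal_rpow_of_nonneg hD hβ0]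
      _ ≤ ENNReal.ofReal ((1 / (4 * (j : ℝ) ^ 2) / 2) ^ C * ((2 ^ j : ℕ) : ℝ)) *
          (ENNReal.ofReal (((2 ^ j : ℕ) : ℝ) ^ d) * volume (Ωk j)) ^ (1 / α) := by
          gcongr
      _ ≤ C * (X.card : ENNReal) := hcount
      _ = ENNReal.ofReal ((C : ℝ) * X.card) := by
          rw [ENNReal.ofReal_mul (by positivity), ENNReal.ofReal_natCast, ENNReal.ofReal_natCast]
      _ ≤ _ := by
          apply ENNReal.ofReal_le_ofReal
          gcongr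
  have hpos2 : (0 : ℝ) ≤ (C : ℝ) * (2 : ℝ) ^ ((j : ℝ) * s) := by positivity
  rw [ENNReal.ofReal_le_ofReal_iff hpos2] at hlow
  have hlarge := hk₀ j hj
  have e1 : (1 / (4 * (j : ℝ) ^ 2) / 2) ^ C * ((2 ^ j : ℕ) : ℝ) *
      (((2 ^ j : ℕ) : ℝ) ^ d * ((m₀ : ℝ) / (4 * (j : ℝ) ^ 2))) ^ (1 / α) =
      (1 / (4 * (j : ℝ) ^ 2) / 2) ^ C * (2 : ℝ) ^ ((j : ℝ) * (1 + d / α)) *
        ((m₀ : ℝ) / (4 * (j : ℝ) ^ 2)) ^ (1 / α) := by
    rw [Real.mul_rpow (by positivity) (by positivity)]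
    have h1 : ((2 ^ j : ℕ) : ℝ) = (2 : ℝ) ^ (j : ℝ) := by
      push_cast
      rw [Real.rpow_natCast]
    have h2 : (((2 ^ j : ℕ) : ℝ) ^ d) ^ (1 / α) = (2 : ℝ) ^ ((j : ℝ) * (d / α)) := by
      rw [h1, ← Real.rpow_natCast, ← Real.rpow_mul (by norm_num), ← Real.rpow_mul (by norm_num)]
      congr 1
      ring
    rw [h2, h1, mul_add, mul_one, Real.rpow_add (by norm_num)]
    ring
  rw [e1] at hlow
  linarith

theorem haus {d : ℕ} {α : ℝ} (hα : 1 ≤ α) (hF : Flex d α) (E : Set (Sp d))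
    (hE : ∀ v : Sp d, ‖v‖ = 1 → ∃ x, ∀ t : ℝ, 0 ≤ t → t ≤ 1 → x + t • v ∈ E) :
    ENNReal.ofReal (1 + d / α) ≤ dimH E := by
  classical
  set Ω₀ : Set (Fin d → ℝ) := Set.pi Set.univ (fun _ => Set.Ico (0 : ℝ) (1 / (d + 1))) with hΩ₀
  set w : (Fin d → ℝ) → Sp d := fun ω =>
    (WithLp.toLp 2 (Fin.snoc (fun k => ω k) 1 : Fin (d + 1) → ℝ) : Sp d) with hw
  have hd1 : (0 : ℝ) < d + 1 := by positivity
  have hwn : ∀ ω ∈ Ω₀, 1 ≤ ‖w ω‖ ∧ ‖w ω‖ ≤ 2 := by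
    intro ω hω
    have h1 : ‖w ω‖ ^ 2 = ∑ k, ω k ^ 2 + 1 := by
      rw [EuclideanSpace.norm_sq_eq, Fin.sum_univ_castSucc]
      simp [hw]
    have h2 : ∑ k, ω k ^ 2 ≤ 1 := by
      calc ∑ k, ω k ^ 2 ≤ ∑ _k : Fin d, (1 / ((d : ℝ) + 1)) := by
            apply Finset.sum_le_sum
            intro k _
            have h3 := hω k (Set.mem_univ k)
            have h4 : 1 / ((d : ℝ) + 1) ≤ 1 := by
              rw [div_le_one hd1]
              have : (0 : ℝ) ≤ d := Nat.cast_nonneg d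
              linarith
            nlinarith [h3.1, h3.2]
        _ ≤ 1 := by
            rw [Finset.sum_const, Finset.card_univ, Fintype.card_fin, nsmul_eq_mul, mul_one_div,
              div_le_one hd1]
            linarith
    have h5 : 0 ≤ ∑ k, ω k ^ 2 := Finset.sum_nonneg (fun _ _ => sq_nonneg _)
    have h6 := norm_nonneg (w ω)
    constructor
    · nlinarith
    · nlinarith
  have hunit : ∀ ω ∈ Ω₀, ∃ x : Sp d, ∀ τ : ℝ, 0 ≤ τ → τ ≤ 1 / 2 → x + τ • w ω ∈ E := by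
    intro ω hω
    obtain ⟨h1, h2⟩ := hwn ω hω
    have h0 : 0 < ‖w ω‖ := by linarith
    obtain ⟨x, hx⟩ := hE (‖w ω‖⁻¹ • w ω) (by
      rw [norm_smul, norm_inv, norm_norm, inv_mul_cancel₀ h0.ne'])
    refine ⟨x, fun τ hτ0 hτ1 => ?_⟩
    have h3 := hx (τ * ‖w ω‖) (by positivity) (by nlinarith)
    rwa [smul_smul, mul_assoc, mul_inv_cancel₀ h0.ne', mul_one] at h3
  choose! x hx using hunit
  set M : (Fin d → ℝ) → ℤ := fun ω => ⌈4 * x ω (Fin.last d)⌉ with hM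
  set Ωm : ℤ → Set (Fin d → ℝ) := fun m => {ω | ω ∈ Ω₀ ∧ M ω = m} with hΩm
  have hvol : volume Ω₀ ≠ 0 := by
    rw [hΩ₀, Real.volume_pi_Ico]
    simp only [sub_zero]
    rw [Finset.prod_ne_zero_iff]
    intro i _
    have : 0 < ENNReal.ofReal (1 / ((d : ℝ) + 1)) := ENNReal.ofReal_pos.2 (by positivity)
    exact this.ne'
  have hex : ∃ m, volume (Ωm m) ≠ 0 := by
    by_contra hno
    push Not at hno
    apply hvol
    have h1 : Ω₀ ⊆ ⋃ m, Ωm m := fun ω hω => Set.mem_iUnion.2 ⟨M ω, hω, rfl⟩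
    exact measure_mono_null h1 (measure_iUnion_null hno)
  obtain ⟨m, hm⟩ := hex
  refine haus_box hα hF E m (Ωm m) ?_ hm
    (fun ω k => x ω k.castSucc + ((m : ℝ) / 4 - x ω (Fin.last d)) * ω k) ?_
  · intro ω hω k
    have h3 := hω.1 k (Set.mem_univ k)
    have h4 : 1 / ((d : ℝ) + 1) ≤ 1 := by
      rw [div_le_one hd1]
      have : (0 : ℝ) ≤ d := Nat.cast_nonneg d
      linarith
    exact ⟨h3.1, by linarith [h3.2]⟩
  · intro ω hω τ hτ0 hτ1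
    have h5 : M ω = m := hω.2
    have h6 : 4 * x ω (Fin.last d) ≤ m := by
      rw [← h5, hM]
      exact Int.le_ceil _
    have h7 : (m : ℝ) < 4 * x ω (Fin.last d) + 1 := by
      rw [← h5, hM]
      exact Int.ceil_lt_add_one _
    have h8 := hx ω hω.1 ((m : ℝ) / 4 - x ω (Fin.last d) + τ) (by linarith) (by linarith)
    convert h8 using 1
    ext i
    refine Fin.lastCases ?_ (fun i => ?_) i
    · simp [hw]
      ring
    · simp [hw]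
      ring

end Pool.Agent.MPac5134.KH
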