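import Pool.Agent.Lib.MP_ac5134_an.KH.Shade
import Pool.Agent.Lib.MP_ac5134_an.Norms

/-!
# KH-Lp: the `L^p` inequality

PROOF of `level`.  (one level set.)  `V = N^(d+2)`, `n = |ι| ≥ 1`, `C₀` from `shade`, `1 ≤ p`,
`(p - 1) C₀ ≤ 1`.  `E` measurable, `τ ≥ 1` real, `f = mult ≥ τ` on `E`, so `τ |E| ≤ ∫_E f = ∑_i |T_i ∩ E|`.
Let `L = ⌈2 log₂ n⌉ + 3`.  Tubes with `|T_i ∩ E| ≤ 2^-L V` contribute at most `n 2^-L V`.  If this is at
least half of `τ |E|` then `τ^p |E| ≤ n^(p-1) · 2 n 2^-L V ≤ V` (if `E` is nonempty, `τ ≤ n`; `p ≤ 2`).  Otherwise the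
classes `I_l = {i | 2^-(l+1) V < |T_i ∩ E| ≤ 2^-l V}`, `l < L`, satisfy `∑_l |I_l| 2^-l V ≥ τ|E|/2`, so for some
`l`: `τ |E| ≤ 2 L |I_l| 2^-l V`, and `shade` for the subtype `I_l` with `lam = 2^-(l+1)`:
`2^(-(l+1) C₀) |I_l|^(1/α) V ≤ C₀ |E|`.  Then
`τ^p |E| = (τ |E|)^p |E|^(1-p) ≤ (2 L |I_l| 2^-l V)^p (2^(-(l+1) C₀) |I_l|^(1/α) V/C₀)^(1-p)
 ≤ (2L)^2 C₀ · 2 · |I_l|^(p - (p-1)/α) V`.

PROOF of `lp`: `∫ f^p ≤ ∑_{k ≤ log₂ n} 2^p ∫_{2^k ≤ f < 2^(k+1)} 2^(kp)` and `level` with `τ = 2^k` gives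
`∫ f^p ≤ C (1 + log n)^4 n^(p - (p-1)/α) V`; and `∫ f₀^p ≥ ∫ f₀ = n V` (`f₀ = mult N θ 0` has values in `{0} ∪ [1, ∞)`,
`volume_tube`).  `n ≤ (K + 1) (4 N)^d` (`tubC_card` in `SD/TubC.lean`, private, copy it).
`eLpNorm_mult` in `Norms.lean` expresses the norms by lower integrals.
-/

open MeasureTheory
open scoped ENNReal

namespace Pool.Agent.MPac5134.KH

/-- dyadic classes of a number -/
private theorem lvl_pt {t V : ℝ} (ht : t ≤ V) (L : ℕ) :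
    t ≤ (2:ℝ)⁻¹ ^ L * V ∨
      ∃ l < L, (2:ℝ)⁻¹ ^ (l + 1) * V < t ∧ t ≤ (2:ℝ)⁻¹ ^ l * V := by
  induction L with
  | zero => left; simpa using ht
  | succ L ih =>
    rcases ih with h | ⟨l, hl, h⟩
    · by_cases h2 : t ≤ (2:ℝ)⁻¹ ^ (L + 1) * V
      · left; exact h2
      · right
        exact ⟨L, Nat.lt_succ_self L, not_le.1 h2, h⟩
    · right; exact ⟨l, Nat.lt_succ_of_lt hl, h⟩

open Classical in
private theorem lvl_sum {ι : Type} [Fintype ι] {t : ι → ℝ} {V : ℝ} (hV : 0 ≤ V)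
    (ht : ∀ i, t i ≤ V) (L : ℕ) :
    ∑ i, t i ≤ Fintype.card ι * ((2:ℝ)⁻¹ ^ L * V) +
      ∑ l ∈ Finset.range L, ((Finset.univ.filter fun i =>
        (2:ℝ)⁻¹ ^ (l + 1) * V < t i ∧ t i ≤ (2:ℝ)⁻¹ ^ l * V).card : ℝ) * ((2:ℝ)⁻¹ ^ l * V) := by
  have key : ∀ i, t i ≤ (2:ℝ)⁻¹ ^ L * V + ∑ l ∈ Finset.range L,
      (if (2:ℝ)⁻¹ ^ (l + 1) * V < t i ∧ t i ≤ (2:ℝ)⁻¹ ^ l * V then (2:ℝ)⁻¹ ^ l * V else 0) := by
    intro i
    have hnn : ∀ l ∈ Finset.range L, (0:ℝ) ≤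
        (if (2:ℝ)⁻¹ ^ (l + 1) * V < t i ∧ t i ≤ (2:ℝ)⁻¹ ^ l * V then (2:ℝ)⁻¹ ^ l * V else 0) := by
      intro l _
      split_ifs
      · positivity
      · exact le_rfl
    rcases lvl_pt (ht i) L with h | ⟨l, hl, h⟩
    · have := Finset.sum_nonneg hnn
      linarith
    · have h1 := Finset.single_le_sum hnn (Finset.mem_range.2 hl)
      rw [if_pos h] at h1
      have : 0 ≤ (2:ℝ)⁻¹ ^ L * V := by positivity
      linarith [h.2]
  calc ∑ i, t i ≤ ∑ i, ((2:ℝ)⁻¹ ^ L * V + ∑ l ∈ Finset.range L,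
      (if (2:ℝ)⁻¹ ^ (l + 1) * V < t i ∧ t i ≤ (2:ℝ)⁻¹ ^ l * V then (2:ℝ)⁻¹ ^ l * V else 0)) :=
        Finset.sum_le_sum fun i _ => key i
    _ = _ := by
        rw [Finset.sum_add_distrib, Finset.sum_comm]
        congr 1
        · rw [Finset.sum_const, Finset.card_univ, nsmul_eq_mul]
        · apply Finset.sum_congr rfl
          intro l _
          rw [← Finset.sum_filter, Finset.sum_const, nsmul_eq_mul]

/-- the real inequality of one level set -/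
private theorem lvl_real {τ e V p α : ℝ} {m n L l C : ℕ} (hτ : 1 ≤ τ) (he : 0 < e) (hV : 0 < V)
    (hp : 1 ≤ p) (hC : 1 ≤ C) (hpC : (p - 1) * C ≤ 1) (hα : 1 ≤ α) (hm : 1 ≤ m) (hmn : m ≤ n)
    (hL : 1 ≤ L)
    (h1 : τ * e ≤ 2 * L * (m * ((2:ℝ)⁻¹ ^ l * V)))
    (h2 : ((2:ℝ)⁻¹ ^ (l + 1)) ^ C * (m:ℝ) ^ (1 / α) * V ≤ C * e) :
    τ ^ p * e ≤ 8 * C * (L:ℝ) ^ 2 * (n:ℝ) ^ (p - (p - 1) / α) * V := by
  have hτ0 : 0 < τ := by linarith
  have hC1 : (1:ℝ) ≤ C := by exact_mod_cast hC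
  have hC0 : (0:ℝ) < C := by linarith
  have hm1 : (1:ℝ) ≤ m := by exact_mod_cast hm
  have hm0 : (0:ℝ) < m := by linarith
  have hL1 : (1:ℝ) ≤ L := by exact_mod_cast hL
  have hL0 : (0:ℝ) < L := by linarith
  have hmn' : (m:ℝ) ≤ n := by exact_mod_cast hmn
  have hp1 : p - 1 ≤ 1 := by nlinarith
  obtain ⟨a, ha⟩ : ∃ a, a = (2:ℝ)⁻¹ ^ l := ⟨_, rfl⟩
  have ha0 : 0 < a := by rw [ha]; positivity
  have ha1 : a ≤ 1 := by rw [ha]; exact pow_le_one₀ (by norm_num) (by norm_num)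
  have e1 : τ ^ p * e = (τ * e) ^ p * e ^ (1 - p) := by
    rw [Real.mul_rpow hτ0.le he.le, mul_assoc, ← Real.rpow_add he]
    congr 1
    rw [show p + (1 - p) = 1 by ring, Real.rpow_one]
  -- lower bound for `e`
  have hb : 0 < (a * 2⁻¹) ^ C * (m:ℝ) ^ (1 / α) * V / C := by positivity
  have he2 : (a * 2⁻¹) ^ C * (m:ℝ) ^ (1 / α) * V / C ≤ e := by
    rw [div_le_iff₀ hC0, mul_comm e, ha, ← pow_succ]
    exact h2
  have e2 : e ^ (1 - p) ≤ ((a * 2⁻¹) ^ C * (m:ℝ) ^ (1 / α) * V / C) ^ (1 - p) :=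
    Real.rpow_le_rpow_of_nonpos hb he2 (by linarith)
  have e3 : (τ * e) ^ p ≤ (2 * L * (m * (a * V))) ^ p := by
    rw [ha]
    exact Real.rpow_le_rpow (by positivity) h1 (by linarith)
  -- powers
  have hq : 0 ≤ p - 1 := by linarith
  have e4 : (2 * L * (m * (a * V))) ^ p = (2 * L : ℝ) ^ p * (m:ℝ) ^ p * a ^ p * V ^ p := by
    rw [Real.mul_rpow (by positivity) (by positivity), Real.mul_rpow hm0.le (by positivity),
      Real.mul_rpow ha0.le hV.le]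
    ring
  have e5 : ((a * 2⁻¹) ^ C * (m:ℝ) ^ (1 / α) * V / C) ^ (1 - p) =
      ((a * 2⁻¹) ^ C) ^ (1 - p) * ((m:ℝ) ^ (1 / α)) ^ (1 - p) * V ^ (1 - p) * (C:ℝ) ^ (p - 1) := by
    rw [Real.div_rpow (by positivity) hC0.le, Real.mul_rpow (by positivity) hV.le,
      Real.mul_rpow (by positivity) (by positivity), div_eq_mul_inv, ← Real.rpow_neg hC0.le]
    congr 2
    ring
  have e6 : V ^ p * V ^ (1 - p) = V := by
    rw [← Real.rpow_add hV, show p + (1 - p) = 1 by ring, Real.rpow_one]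
  have e7 : (m:ℝ) ^ p * ((m:ℝ) ^ (1 / α)) ^ (1 - p) = (m:ℝ) ^ (p - (p - 1) / α) := by
    rw [← Real.rpow_mul hm0.le, ← Real.rpow_add hm0]
    congr 1
    ring
  have e8 : (m:ℝ) ^ (p - (p - 1) / α) ≤ (n:ℝ) ^ (p - (p - 1) / α) := by
    apply Real.rpow_le_rpow hm0.le hmn'
    have : (p - 1) / α ≤ p - 1 := div_le_self hq hα
    linarith
  have e9 : (C:ℝ) ^ (p - 1) ≤ C := by
    calc (C:ℝ) ^ (p - 1) ≤ (C:ℝ) ^ (1:ℝ) := Real.rpow_le_rpow_of_exponent_le hC1 hp1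
      _ = C := Real.rpow_one _
  have e10 : a ^ p * ((a * 2⁻¹) ^ C) ^ (1 - p) ≤ 2 := by
    have f1 : ((a * 2⁻¹) ^ C) ^ (1 - p) = (a * 2⁻¹) ^ (-((p - 1) * C)) := by
      rw [← Real.rpow_natCast, ← Real.rpow_mul (by positivity)]
      congr 1
      ring
    rw [f1]
    have f2 : (a * 2⁻¹) ^ (-((p - 1) * (C:ℝ))) ≤ (a * 2⁻¹) ^ (-1:ℝ) := by
      apply Real.rpow_le_rpow_of_exponent_ge (by positivity)
      · nlinarith
      · linarith
    have f3 : a ^ p ≤ a ^ (1:ℝ) := Real.rpow_le_rpow_of_exponent_ge ha0 ha1 hp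
    have f4 : a ^ (1:ℝ) * (a * 2⁻¹) ^ (-1:ℝ) = 2 := by
      rw [Real.rpow_one, Real.rpow_neg_one]
      field_simp
    calc a ^ p * (a * 2⁻¹) ^ (-((p - 1) * (C:ℝ))) ≤ a ^ (1:ℝ) * (a * 2⁻¹) ^ (-1:ℝ) := by
          gcongr
      _ = 2 := f4
  have e11 : (2 * L : ℝ) ^ p ≤ 4 * (L:ℝ) ^ 2 := by
    calc (2 * L : ℝ) ^ p ≤ (2 * L : ℝ) ^ (2:ℝ) := by
          apply Real.rpow_le_rpow_of_exponent_le (by linarith) (by linarith)
      _ = 4 * (L:ℝ) ^ 2 := by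
          rw [show (2:ℝ) = ((2:ℕ):ℝ) by norm_num, Real.rpow_natCast]
          push_cast
          ring
  rw [e1]
  calc (τ * e) ^ p * e ^ (1 - p)
      ≤ ((2 * L : ℝ) ^ p * (m:ℝ) ^ p * a ^ p * V ^ p) *
        (((a * 2⁻¹) ^ C) ^ (1 - p) * ((m:ℝ) ^ (1 / α)) ^ (1 - p) * V ^ (1 - p) *
          (C:ℝ) ^ (p - 1)) := by
        rw [← e4, ← e5]
        gcongr
    _ = (2 * L : ℝ) ^ p * (a ^ p * ((a * 2⁻¹) ^ C) ^ (1 - p)) *
        ((m:ℝ) ^ p * ((m:ℝ) ^ (1 / α)) ^ (1 - p)) * (C:ℝ) ^ (p - 1) *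
        (V ^ p * V ^ (1 - p)) := by ring
    _ ≤ (4 * (L:ℝ) ^ 2) * 2 * (n:ℝ) ^ (p - (p - 1) / α) * C * V := by
        rw [e6, e7]
        gcongr
    _ = 8 * C * (L:ℝ) ^ 2 * (n:ℝ) ^ (p - (p - 1) / α) * V := by ring

private theorem lvl_int {d : ℕ} {ι : Type} [Fintype ι] (N : ℝ) (θ : ι → Cap d) (c : ι → Sp d)
    (G : Set (Sp d)) :
    ∫⁻ x in G, ENNReal.ofReal (mult N θ c x) = ∑ i, volume (tube N (θ i) (c i) ∩ G) := by
  unfold mult
  have e1 : ∀ x : Sp d,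
      ENNReal.ofReal (∑ i, (tube N (θ i) (c i)).indicator (fun _ => (1:ℝ)) x) =
      ∑ i, (tube N (θ i) (c i)).indicator (fun _ => (1:ℝ≥0∞)) x := by
    intro x
    rw [ENNReal.ofReal_sum_of_nonneg
      (fun i _ => Set.indicator_nonneg (fun _ _ => zero_le_one) _)]
    apply Finset.sum_congr rfl; intro i _
    by_cases h : x ∈ tube N (θ i) (c i)
    · rw [Set.indicator_of_mem h, Set.indicator_of_mem h, ENNReal.ofReal_one]
    · rw [Set.indicator_of_notMem h, Set.indicator_of_notMem h, ENNReal.ofReal_zero]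
  simp_rw [e1]
  rw [lintegral_finsetSum _ fun i _ => measurable_const.indicator (measurableSet_tube _ _ _)]
  apply Finset.sum_congr rfl
  intro i _
  rw [lintegral_indicator_const (measurableSet_tube _ _ _), one_mul,
    Measure.restrict_apply (measurableSet_tube _ _ _)]

private theorem lvl_log (n : ℕ) (hn : 1 ≤ n) :
    8 * (n:ℝ) ^ 2 ≤ 2 ^ (Nat.log 2 (n ^ 2) + 4) ∧
      ((Nat.log 2 (n ^ 2) + 4 : ℕ) : ℝ) ≤ 4 * (1 + Real.log n) := by
  have hn1 : (1:ℝ) ≤ n := by exact_mod_cast hn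
  have hn2 : n ^ 2 ≠ 0 := by positivity
  constructor
  · have h1 : n ^ 2 < 2 ^ (Nat.log 2 (n ^ 2)).succ := Nat.lt_pow_succ_log_self (by norm_num) _
    have h2 : (n:ℝ) ^ 2 < 2 ^ (Nat.log 2 (n ^ 2) + 1) := by exact_mod_cast h1
    calc 8 * (n:ℝ) ^ 2 ≤ 8 * 2 ^ (Nat.log 2 (n ^ 2) + 1) := by linarith
      _ = 2 ^ (Nat.log 2 (n ^ 2) + 4) := by ring
  · have h1 : 2 ^ Nat.log 2 (n ^ 2) ≤ n ^ 2 := Nat.pow_log_le_self 2 hn2
    have h2 : (2:ℝ) ^ Nat.log 2 (n ^ 2) ≤ (n:ℝ) ^ 2 := by exact_mod_cast h1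
    have h3 := Real.log_le_log (by positivity) h2
    rw [Real.log_pow, Real.log_pow] at h3
    have h4 : (0.5:ℝ) ≤ Real.log 2 := by
      have := Real.log_two_gt_d9
      linarith
    push_cast at h3 ⊢
    have h5 : (Nat.log 2 (n ^ 2) : ℝ) * 0.5 ≤ Nat.log 2 (n ^ 2) * Real.log 2 := by gcongr
    linarith

/-- one level set -/
theorem level {d : ℕ} {α : ℝ} (hα : 1 ≤ α) (hF : Flex d α) (K : ℕ) : ∃ C : ℕ, 1 ≤ C ∧
    ∀ (N : ℝ), 1 ≤ N → ∀ (ι : Type) [Fintype ι] [Nonempty ι] (θ : ι → Cap d) (c : ι → Sp d),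
      (∀ z : Fin d → ℤ, ∀ s : Finset ι, (∀ i ∈ s, cell N (θ i) = z) → s.card ≤ K) →
      ∀ (p : ℝ), 1 ≤ p → p ≤ 1 + 1 / C → ∀ (E : Set (Sp d)) (τ : ℝ), MeasurableSet E → 1 ≤ τ →
      (∀ x ∈ E, τ ≤ mult N θ c x) →
      ENNReal.ofReal (τ ^ p) * volume E ≤
        ENNReal.ofReal (C * (1 + Real.log (Fintype.card ι)) ^ 2 *
          (Fintype.card ι : ℝ) ^ (p - (p - 1) / α) * N ^ (d + 2)) := by
  classical
  obtain ⟨C₀, hC₀, hsh⟩ := shade hα hF K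
  refine ⟨128 * C₀, by omega, ?_⟩
  intro N hN ι _ _ θ c hK p hp hpC E τ hE hτ hEτ
  have hN0 : 0 ≤ N := by linarith
  have hN1 : 0 < N := by linarith
  have hn1 : 1 ≤ Fintype.card ι := Fintype.card_pos
  have hτn : ∀ x ∈ E, τ ≤ (Fintype.card ι : ℝ) := fun x hx =>
    (hEτ x hx).trans (mult_le_card N θ c x)
  have hvt0 : ∀ i, volume (tube N (θ i) (c i)) = ENNReal.ofReal (N ^ (d + 2)) := fun i =>
    volume_tube hN0 _ _
  obtain ⟨V, hV⟩ : ∃ V, V = N ^ (d + 2) := ⟨_, rfl⟩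
  have hV0 : 0 < V := by rw [hV]; positivity
  rw [← hV]
  simp_rw [← hV] at hvt0
  by_cases hE0 : volume E = 0
  · rw [hE0, mul_zero]; exact bot_le
  have hEne : E.Nonempty := by
    rw [Set.nonempty_iff_ne_empty]; rintro rfl; exact hE0 measure_empty
  have hτn' : τ ≤ (Fintype.card ι : ℝ) := by
    obtain ⟨x, hx⟩ := hEne
    exact hτn x hx
  have hsub : E ⊆ ⋃ i, tube N (θ i) (c i) := by
    intro x hx
    by_contra hcon
    have h0 : mult N θ c x = 0 := by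
      unfold mult
      apply Finset.sum_eq_zero
      intro i _
      apply Set.indicator_of_notMem
      exact fun h => hcon (Set.mem_iUnion.2 ⟨i, h⟩)
    have := hEτ x hx
    linarith
  have hEtop : volume E ≠ ⊤ := by
    apply ne_top_of_le_ne_top _ ((measure_mono hsub).trans (measure_iUnion_fintype_le _ _))
    simp_rw [hvt0]
    exact (ENNReal.sum_lt_top.2 fun i _ => ENNReal.ofReal_lt_top).ne
  obtain ⟨e, he⟩ : ∃ e, e = (volume E).toReal := ⟨_, rfl⟩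
  have heV : volume E = ENNReal.ofReal e := by rw [he, ENNReal.ofReal_toReal hEtop]
  have he0 : 0 < e := by rw [he]; exact ENNReal.toReal_pos hE0 hEtop
  obtain ⟨t, ht⟩ : ∃ t : ι → ℝ, t = fun i => (volume (tube N (θ i) (c i) ∩ E)).toReal := ⟨_, rfl⟩
  have htV : ∀ i, volume (tube N (θ i) (c i) ∩ E) = ENNReal.ofReal (t i) := by
    intro i
    rw [ht]
    exact (ENNReal.ofReal_toReal (ne_top_of_le_ne_top hEtop (measure_mono Set.inter_subset_right))).symm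
  have ht0 : ∀ i, 0 ≤ t i := by intro i; rw [ht]; exact ENNReal.toReal_nonneg
  have htV' : ∀ i, t i ≤ V := by
    intro i
    rw [← ENNReal.ofReal_le_ofReal_iff hV0.le, ← htV, ← hvt0 i]
    exact measure_mono Set.inter_subset_left
  have hsum : τ * e ≤ ∑ i, t i := by
    rw [← ENNReal.ofReal_le_ofReal_iff (Finset.sum_nonneg fun i _ => ht0 i),
      ENNReal.ofReal_mul (by linarith), ← heV, ENNReal.ofReal_sum_of_nonneg fun i _ => ht0 i]
    simp_rw [← htV]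
    rw [← lvl_int, ← setLIntegral_const]
    exact setLIntegral_mono (measurable_mult N θ c).ennreal_ofReal
      fun x hx => ENNReal.ofReal_le_ofReal (hEτ x hx)
  rw [heV, ← ENNReal.ofReal_mul (by positivity)]
  apply ENNReal.ofReal_le_ofReal
  obtain ⟨n, hn⟩ : ∃ n, n = Fintype.card ι := ⟨_, rfl⟩
  rw [← hn] at hn1 hτn' ⊢
  have hn1' : (1:ℝ) ≤ n := by exact_mod_cast hn1
  obtain ⟨L, hL⟩ : ∃ L, L = Nat.log 2 (n ^ 2) + 4 := ⟨_, rfl⟩
  obtain ⟨hL1, hL2⟩ := lvl_log n hn1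
  rw [← hL] at hL1 hL2
  have hLpos : 1 ≤ L := by omega
  have hlog : 0 ≤ Real.log n := Real.log_nonneg hn1'
  have hC₀' : (1:ℝ) ≤ C₀ := by exact_mod_cast hC₀
  have hpC' : (p - 1) * C₀ ≤ 1 := by
    have h1 : p - 1 ≤ 1 / ((128 * C₀ : ℕ) : ℝ) := by linarith
    rw [le_div_iff₀ (by positivity)] at h1
    push_cast at h1
    have : 0 ≤ (p - 1) * C₀ := mul_nonneg (by linarith) (by linarith)
    linarith
  have hp2 : p ≤ 2 := by nlinarith
  have hexp : 0 ≤ p - (p - 1) / α := by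
    have : (p - 1) / α ≤ p - 1 := div_le_self (by linarith) hα
    linarith
  have hs := lvl_sum hV0.le htV' L
  rw [← hn] at hs
  have hLL : (1:ℝ) ≤ (L:ℝ) := by exact_mod_cast hLpos
  have hfin : ∀ X : ℝ, X ≤ 8 * C₀ * (L:ℝ) ^ 2 * (n:ℝ) ^ (p - (p - 1) / α) * V →
      X ≤ ((128 * C₀ : ℕ) : ℝ) * (1 + Real.log n) ^ 2 * (n:ℝ) ^ (p - (p - 1) / α) * V := by
    intro X hX
    refine hX.trans ?_
    have h1 : (L:ℝ) ^ 2 ≤ (4 * (1 + Real.log n)) ^ 2 := by gcongr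
    calc 8 * C₀ * (L:ℝ) ^ 2 * (n:ℝ) ^ (p - (p - 1) / α) * V
        ≤ 8 * C₀ * (4 * (1 + Real.log n)) ^ 2 * (n:ℝ) ^ (p - (p - 1) / α) * V := by gcongr
      _ = _ := by push_cast; ring
  apply hfin
  by_cases hA : τ * e ≤ 2 * ((n:ℝ) * ((2:ℝ)⁻¹ ^ L * V))
  · -- the small parts dominate
    have h1 : τ * e ≤ V / (4 * n) := by
      rw [le_div_iff₀ (by positivity)]
      have h2 : (2:ℝ)⁻¹ ^ L * (8 * (n:ℝ) ^ 2) ≤ 1 := by
        calc (2:ℝ)⁻¹ ^ L * (8 * (n:ℝ) ^ 2) ≤ (2:ℝ)⁻¹ ^ L * 2 ^ L := by gcongr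
          _ = 1 := by rw [← mul_pow]; norm_num
      calc τ * e * (4 * n) ≤ 2 * ((n:ℝ) * ((2:ℝ)⁻¹ ^ L * V)) * (4 * n) := by gcongr
        _ = (2:ℝ)⁻¹ ^ L * (8 * (n:ℝ) ^ 2) * V := by ring
        _ ≤ 1 * V := by gcongr
        _ = V := one_mul V
    have h3 : τ ^ (p - 1) ≤ n := by
      calc τ ^ (p - 1) ≤ τ ^ (1:ℝ) := Real.rpow_le_rpow_of_exponent_le hτ (by linarith)
        _ = τ := Real.rpow_one τ
        _ ≤ n := hτn'
    have h4 : τ ^ p = τ ^ (p - 1) * τ := by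
      rw [← Real.rpow_add_one (by positivity)]
      congr 1
      ring
    have h5 : (1:ℝ) ≤ (n:ℝ) ^ (p - (p - 1) / α) := Real.one_le_rpow hn1' hexp
    have h6 : V / 4 ≤ 8 * C₀ * (L:ℝ) ^ 2 * (n:ℝ) ^ (p - (p - 1) / α) * V := by
      have h7 : (1:ℝ) ≤ 8 * C₀ * (L:ℝ) ^ 2 * (n:ℝ) ^ (p - (p - 1) / α) := by
        have h8 : (1:ℝ) ≤ (L:ℝ) ^ 2 := one_le_pow₀ hLL
        calc (1:ℝ) = 1 * 1 * 1 * 1 := by norm_num
          _ ≤ 8 * C₀ * (L:ℝ) ^ 2 * (n:ℝ) ^ (p - (p - 1) / α) := by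
            gcongr
            norm_num
      nlinarith
    refine le_trans ?_ h6
    calc τ ^ p * e = τ ^ (p - 1) * (τ * e) := by rw [h4]; ring
      _ ≤ n * (V / (4 * n)) := by gcongr
      _ = V / 4 := by field_simp
  · rw [not_le] at hA
    -- some class carries a large part
    have hB : ∃ l ∈ Finset.range L, τ * e / (2 * L) ≤ ((Finset.univ.filter fun i =>
        (2:ℝ)⁻¹ ^ (l + 1) * V < t i ∧ t i ≤ (2:ℝ)⁻¹ ^ l * V).card : ℝ) * ((2:ℝ)⁻¹ ^ l * V) := by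
      by_contra hcon
      push Not at hcon
      have h1 : ∑ l ∈ Finset.range L, ((Finset.univ.filter fun i =>
          (2:ℝ)⁻¹ ^ (l + 1) * V < t i ∧ t i ≤ (2:ℝ)⁻¹ ^ l * V).card : ℝ) * ((2:ℝ)⁻¹ ^ l * V) ≤
          ∑ l ∈ Finset.range L, τ * e / (2 * L) :=
        Finset.sum_le_sum fun l hl => (hcon l hl).le
      rw [Finset.sum_const, Finset.card_range, nsmul_eq_mul] at h1
      have h2 : (L:ℝ) * (τ * e / (2 * L)) = τ * e / 2 := by field_simp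
      rw [h2] at h1
      linarith
    obtain ⟨l, hl, hB⟩ := hB
    obtain ⟨S, hS⟩ : ∃ S, S = (Finset.univ.filter fun i =>
        (2:ℝ)⁻¹ ^ (l + 1) * V < t i ∧ t i ≤ (2:ℝ)⁻¹ ^ l * V) := ⟨_, rfl⟩
    rw [← hS] at hB
    have hSm : ∀ i ∈ S, (2:ℝ)⁻¹ ^ (l + 1) * V ≤ t i := by
      intro i hi
      rw [hS, Finset.mem_filter] at hi
      exact hi.2.1.le
    have hτe : 0 < τ * e := by positivity
    have hm : 1 ≤ S.card := by
      by_contra h0
      have h1 : S.card = 0 := by omega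
      rw [h1, Nat.cast_zero, zero_mul] at hB
      have : 0 < τ * e / (2 * L) := by positivity
      linarith
    have hmn : S.card ≤ n := by rw [hn]; exact Finset.card_le_univ S
    have h1 : τ * e ≤ 2 * L * (S.card * ((2:ℝ)⁻¹ ^ l * V)) := by
      rw [div_le_iff₀ (by positivity)] at hB
      linarith
    -- the shading theorem
    have h2 := hsh N ((2:ℝ)⁻¹ ^ (l + 1)) hN (by positivity)
      (pow_le_one₀ (by norm_num) (by norm_num)) S (fun i => θ i) (fun i => c i) E hE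
      (by
        intro z s hs
        have h3 := hK z (s.map (Function.Embedding.subtype _)) (by
          intro i hi
          rw [Finset.mem_map] at hi
          obtain ⟨j, hj, rfl⟩ := hi
          exact hs j hj)
        rwa [Finset.card_map] at h3)
      (by
        intro i
        rw [hvt0, htV, ← ENNReal.ofReal_mul (by positivity)]
        exact ENNReal.ofReal_le_ofReal (hSm _ i.2))
    rw [Fintype.card_coe, ← hV] at h2
    have h3 : ((2:ℝ)⁻¹ ^ (l + 1)) ^ C₀ * (S.card:ℝ) ^ (1 / α) * V ≤ C₀ * e := by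
      rw [← ENNReal.ofReal_le_ofReal_iff (by positivity),
        ENNReal.ofReal_mul (by positivity : (0:ℝ) ≤ C₀), ← heV]
      refine h2.trans ?_
      gcongr
      exact Set.inter_subset_left
    exact lvl_real hτ he0 hV0 hp hC₀ hpC' hα hm hmn hLpos h1 h3

private theorem lp_ge_one {d : ℕ} {ι : Type} [Fintype ι] {N : ℝ} {θ : ι → Cap d} {c : ι → Sp d}
    {x : Sp d} (h : 0 < mult N θ c x) : 1 ≤ mult N θ c x := by
  classical
  have h1 : mult N θ c x = ((Finset.univ.filter fun i => x ∈ tube N (θ i) (c i)).card : ℝ) := by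
    unfold mult
    rw [Finset.card_filter]
    push_cast
    apply Finset.sum_congr rfl
    intro i _
    rw [Set.indicator_apply]
  rw [h1] at h ⊢
  have h2 : 0 < (Finset.univ.filter fun i => x ∈ tube N (θ i) (c i)).card := by exact_mod_cast h
  exact_mod_cast h2

/-- the number of tubes -/
private theorem lp_card {d : ℕ} {N : ℝ} (hN : 1 ≤ N) (K : ℕ) {ι : Type} [Fintype ι]
    (θ : ι → Cap d)
    (hK : ∀ z : Fin d → ℤ, ∀ s : Finset ι, (∀ i ∈ s, cell N (θ i) = z) → s.card ≤ K) :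
    (Fintype.card ι : ℝ) ≤ K * (4 * N) ^ d := by
  classical
  have hN0 : 0 < N := by linarith
  have h1 : (Finset.univ : Finset ι).card ≤
      K * ((Finset.univ : Finset ι).image fun i => cell N (θ i)).card := by
    apply Finset.card_le_mul_card_image
    intro a _
    exact hK a _ fun i hi => (Finset.mem_filter.1 hi).2
  have h2 : ((Finset.univ : Finset ι).image fun i => cell N (θ i)) ⊆
      Fintype.piFinset fun _ : Fin d => Finset.Icc ⌊-N⌋ ⌊N⌋ := by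
    intro z hz
    rw [Finset.mem_image] at hz
    obtain ⟨i, -, rfl⟩ := hz
    rw [Fintype.mem_piFinset]
    intro k
    have h3 : |(θ i).foot k| ≤ 1 := by
      have h4 := (θ i).foot_mem
      have h5 : (θ i).foot k ^ 2 ≤ ∑ j, (θ i).foot j ^ 2 :=
        Finset.single_le_sum (f := fun j => (θ i).foot j ^ 2) (fun j _ => sq_nonneg _)
          (Finset.mem_univ k)
      rw [← sq_le_one_iff_abs_le_one]
      linarith
    rw [abs_le] at h3
    rw [Finset.mem_Icc]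
    constructor
    · apply Int.floor_le_floor
      nlinarith [h3.1]
    · apply Int.floor_le_floor
      nlinarith [h3.2]
  have h3 := Finset.card_le_card h2
  rw [Fintype.card_piFinset_const, Int.card_Icc] at h3
  have h4 : (((⌊N⌋ + 1 - ⌊-N⌋).toNat : ℕ) : ℝ) ≤ 4 * N := by
    have h5 : (0 : ℤ) ≤ ⌊N⌋ + 1 - ⌊-N⌋ := by
      have : ⌊-N⌋ ≤ ⌊N⌋ := Int.floor_le_floor (by linarith)
      omega
    have h6 : (((⌊N⌋ + 1 - ⌊-N⌋).toNat : ℕ) : ℝ) = ((⌊N⌋ + 1 - ⌊-N⌋ : ℤ) : ℝ) := by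
      have : (((⌊N⌋ + 1 - ⌊-N⌋).toNat : ℕ) : ℤ) = ⌊N⌋ + 1 - ⌊-N⌋ := Int.toNat_of_nonneg h5
      exact_mod_cast this
    rw [h6]
    push_cast
    have h7 := Int.floor_le N
    have h8 := Int.lt_floor_add_one (-N)
    linarith
  have h5 : (((Finset.univ : Finset ι).image fun i => cell N (θ i)).card : ℝ) ≤ (4 * N) ^ d := by
    calc (((Finset.univ : Finset ι).image fun i => cell N (θ i)).card : ℝ)
        ≤ (((⌊N⌋ + 1 - ⌊-N⌋).toNat ^ d : ℕ) : ℝ) := by exact_mod_cast h3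
      _ ≤ _ := by
          push_cast
          gcongr
  rw [Finset.card_univ] at h1
  calc (Fintype.card ι : ℝ)
      ≤ ((K * ((Finset.univ : Finset ι).image fun i => cell N (θ i)).card : ℕ) : ℝ) := by
        exact_mod_cast h1
    _ ≤ _ := by
        push_cast
        gcongr

/-- dyadic decomposition of the values -/
private theorem lp_pt {n : ℕ} {f p : ℝ} (hf1 : 1 ≤ f) (hfn : f ≤ n) (hp : 0 ≤ p) :
    ∃ k ∈ Finset.range (Nat.log 2 n + 1), (2:ℝ) ^ k ≤ f ∧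
      f ^ p ≤ (2:ℝ) ^ p * ((2:ℝ) ^ k) ^ p := by
  have h0 : ⌊f⌋₊ ≠ 0 := by
    have : 1 ≤ ⌊f⌋₊ := Nat.le_floor (by simpa using hf1)
    omega
  refine ⟨Nat.log 2 ⌊f⌋₊, ?_, ?_, ?_⟩
  · rw [Finset.mem_range]
    have h1 : ⌊f⌋₊ ≤ n := Nat.floor_le_of_le hfn
    have := Nat.log_mono_right (b := 2) h1
    omega
  · have h1 : 2 ^ Nat.log 2 ⌊f⌋₊ ≤ ⌊f⌋₊ := Nat.pow_log_le_self 2 h0
    have h2 : (2:ℝ) ^ Nat.log 2 ⌊f⌋₊ ≤ (⌊f⌋₊ : ℝ) := by exact_mod_cast h1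
    exact h2.trans (Nat.floor_le (by linarith))
  · have h1 : ⌊f⌋₊ < 2 ^ (Nat.log 2 ⌊f⌋₊).succ := Nat.lt_pow_succ_log_self (by norm_num) _
    have h2 : (⌊f⌋₊ : ℝ) + 1 ≤ 2 ^ (Nat.log 2 ⌊f⌋₊ + 1) := by exact_mod_cast h1
    have h3 := Nat.lt_floor_add_one f
    rw [← Real.mul_rpow (by norm_num) (by positivity)]
    apply Real.rpow_le_rpow (by linarith) _ hp
    rw [pow_succ] at h2
    linarith

/-- the upper bound for the integral -/
private theorem lp_upper {d : ℕ} {ι : Type} [Fintype ι] {N p X : ℝ} (θ : ι → Cap d)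
    (c : ι → Sp d) (hp : 1 ≤ p)
    (h : ∀ k : ℕ, ENNReal.ofReal (((2:ℝ) ^ k) ^ p) * volume {x | (2:ℝ) ^ k ≤ mult N θ c x} ≤
      ENNReal.ofReal X) :
    ∫⁻ x, ENNReal.ofReal (mult N θ c x ^ p) ≤
      ENNReal.ofReal ((2:ℝ) ^ p * (((Nat.log 2 (Fintype.card ι) + 1 : ℕ) : ℝ) * X)) := by
  classical
  have hm : ∀ k : ℕ, MeasurableSet {x | (2:ℝ) ^ k ≤ mult N θ c x} := fun k =>
    measurableSet_le measurable_const (measurable_mult N θ c)
  have hpt : ∀ x, ENNReal.ofReal (mult N θ c x ^ p) ≤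
      ∑ k ∈ Finset.range (Nat.log 2 (Fintype.card ι) + 1),
        ({x | (2:ℝ) ^ k ≤ mult N θ c x}.indicator
          (fun _ => ENNReal.ofReal ((2:ℝ) ^ p * ((2:ℝ) ^ k) ^ p)) x) := by
    intro x
    rcases (mult_nonneg N θ c x).eq_or_lt with h0 | h0
    · rw [← h0, Real.zero_rpow (by linarith), ENNReal.ofReal_zero]
      exact bot_le
    · obtain ⟨k, hk, h1, h2⟩ := lp_pt (p := p) (lp_ge_one h0) (mult_le_card N θ c x) (by linarith)
      have h3 : ({x | (2:ℝ) ^ k ≤ mult N θ c x}.indicator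
          (fun _ => ENNReal.ofReal ((2:ℝ) ^ p * ((2:ℝ) ^ k) ^ p)) x) ≤
          ∑ k ∈ Finset.range (Nat.log 2 (Fintype.card ι) + 1),
            ({x | (2:ℝ) ^ k ≤ mult N θ c x}.indicator
              (fun _ => ENNReal.ofReal ((2:ℝ) ^ p * ((2:ℝ) ^ k) ^ p)) x) :=
        Finset.single_le_sum (f := fun k => ({x | (2:ℝ) ^ k ≤ mult N θ c x}.indicator
          (fun _ => ENNReal.ofReal ((2:ℝ) ^ p * ((2:ℝ) ^ k) ^ p)) x)) (fun _ _ => bot_le) hk
      refine le_trans ?_ h3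
      rw [Set.indicator_of_mem (show x ∈ {x | (2:ℝ) ^ k ≤ mult N θ c x} from h1)]
      exact ENNReal.ofReal_le_ofReal h2
  refine (lintegral_mono hpt).trans ?_
  rw [lintegral_finsetSum _ fun k _ => measurable_const.indicator (hm k)]
  simp_rw [lintegral_indicator_const (hm _)]
  calc ∑ k ∈ Finset.range (Nat.log 2 (Fintype.card ι) + 1),
        ENNReal.ofReal ((2:ℝ) ^ p * ((2:ℝ) ^ k) ^ p) * volume {x | (2:ℝ) ^ k ≤ mult N θ c x}
      ≤ ∑ _k ∈ Finset.range (Nat.log 2 (Fintype.card ι) + 1),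
        ENNReal.ofReal ((2:ℝ) ^ p) * ENNReal.ofReal X := by
        apply Finset.sum_le_sum
        intro k _
        rw [ENNReal.ofReal_mul (by positivity), mul_assoc]
        gcongr
        exact h k
    _ = _ := by
        rw [Finset.sum_const, Finset.card_range, nsmul_eq_mul,
          ENNReal.ofReal_mul (by positivity), ENNReal.ofReal_mul (by positivity),
          ENNReal.ofReal_natCast]
        ring

private theorem lp_lower {d : ℕ} {ι : Type} [Fintype ι] {N p : ℝ} (hN : 0 ≤ N) (hp : 1 ≤ p)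
    (θ : ι → Cap d) (c : ι → Sp d) :
    ENNReal.ofReal (Fintype.card ι * N ^ (d + 2)) ≤
      ∫⁻ x, ENNReal.ofReal (mult N θ c x ^ p) := by
  rw [← lintegral_mult hN θ c]
  apply lintegral_mono
  intro x
  apply ENNReal.ofReal_le_ofReal
  rcases (mult_nonneg N θ c x).eq_or_lt with h0 | h0
  · rw [← h0, Real.zero_rpow (by linarith)]
  · calc mult N θ c x = mult N θ c x ^ (1:ℝ) := (Real.rpow_one _).symm
      _ ≤ _ := Real.rpow_le_rpow_of_exponent_le (lp_ge_one h0) hp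

/-- the numbers -/
private theorem lp_real {N p α V : ℝ} {n K d C₁ : ℕ} (hN : 1 ≤ N) (hn : 1 ≤ n) (hα : 1 ≤ α)
    (hp : 1 ≤ p) (hp2 : p ≤ 2) (hV : 0 ≤ V) (hc : (n:ℝ) ≤ K * (4 * N) ^ d) :
    (2:ℝ) ^ p * (((Nat.log 2 n + 1 : ℕ) : ℝ) * (C₁ * (1 + Real.log n) ^ 2 *
      (n:ℝ) ^ (p - (p - 1) / α) * V)) ≤
      ((8 * C₁ * (K + 1 + 2 * d) ^ 3 * ((K + 1) * 4 ^ d) : ℕ) : ℝ) * (1 + Real.log N) ^ 4 *
        N ^ (d * ((p - 1) * (1 - 1 / α))) * (n * V) := by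
  have hn1 : (1:ℝ) ≤ n := by exact_mod_cast hn
  have hn0 : (0:ℝ) < n := by linarith
  have hN0 : 0 < N := by linarith
  have hlN : 0 ≤ Real.log N := Real.log_nonneg hN
  have hln : 0 ≤ Real.log n := Real.log_nonneg hn1
  have hα0 : 0 < α := by linarith
  have hβ0 : 0 ≤ (p - 1) * (1 - 1 / α) := by
    apply mul_nonneg (by linarith)
    have : 1 / α ≤ 1 := by rw [div_le_one hα0]; exact hα
    linarith
  have hβ1 : (p - 1) * (1 - 1 / α) ≤ 1 := by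
    have h1 : 0 ≤ 1 / α := by positivity
    have h2 : (p - 1) * (1 - 1 / α) ≤ (p - 1) * 1 := by
      apply mul_le_mul_of_nonneg_left _ (by linarith)
      linarith
    linarith
  obtain ⟨β, hβ⟩ : ∃ β, β = (p - 1) * (1 - 1 / α) := ⟨_, rfl⟩
  rw [← hβ] at hβ0 hβ1 ⊢
  have e1 : (n:ℝ) ^ (p - (p - 1) / α) = n * (n:ℝ) ^ β := by
    rw [mul_comm, ← Real.rpow_add_one (by positivity)]
    congr 1
    rw [hβ]
    ring
  have hc2 : (n:ℝ) ≤ ((K + 1) * 4 ^ d) * N ^ d := by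
    refine hc.trans ?_
    rw [mul_pow, ← mul_assoc]
    gcongr
    linarith
  have hD : (1:ℝ) ≤ (K + 1) * 4 ^ d := by
    have h1 : (1:ℝ) ≤ 4 ^ d := one_le_pow₀ (by norm_num)
    have h2 : (0:ℝ) ≤ K := Nat.cast_nonneg K
    nlinarith
  have e2 : (n:ℝ) ^ β ≤ ((K + 1) * 4 ^ d) * N ^ (d * β) := by
    calc (n:ℝ) ^ β ≤ (((K + 1) * 4 ^ d) * N ^ d) ^ β := Real.rpow_le_rpow hn0.le hc2 hβ0
      _ = ((K + 1) * 4 ^ d : ℝ) ^ β * N ^ (d * β) := by
          rw [Real.mul_rpow (by positivity) (by positivity), ← Real.rpow_natCast N d,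
            ← Real.rpow_mul hN0.le]
      _ ≤ ((K + 1) * 4 ^ d : ℝ) ^ (1:ℝ) * N ^ (d * β) := by
          gcongr
      _ = _ := by rw [Real.rpow_one]
  -- the logarithms
  have e3 : 1 + Real.log n ≤ (K + 1 + 2 * d) * (1 + Real.log N) := by
    have h1 := Real.log_le_log hn0 hc2
    rw [Real.log_mul (by positivity) (by positivity), Real.log_mul (by positivity) (by positivity),
      Real.log_pow, Real.log_pow] at h1
    have h2 : Real.log ((K:ℝ) + 1) ≤ K := by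
      have := Real.log_le_sub_one_of_pos (show (0:ℝ) < (K:ℝ) + 1 by positivity)
      linarith
    have h3 : Real.log 4 ≤ 2 := by
      have h4 : (4:ℝ) = 2 ^ 2 := by norm_num
      rw [h4, Real.log_pow]
      have := Real.log_two_lt_d9
      push_cast
      linarith
    have h5 : (d:ℝ) * Real.log 4 ≤ d * 2 := by gcongr
    have h6 : (0:ℝ) ≤ K := Nat.cast_nonneg K
    have h7 : (0:ℝ) ≤ d := Nat.cast_nonneg d
    nlinarith [mul_nonneg h6 hlN, mul_nonneg h7 hlN]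
  have e4 : ((Nat.log 2 n + 1 : ℕ) : ℝ) ≤ 2 * (1 + Real.log n) := by
    have h1 : 2 ^ Nat.log 2 n ≤ n := Nat.pow_log_le_self 2 (by omega)
    have h2 : (2:ℝ) ^ Nat.log 2 n ≤ (n:ℝ) := by exact_mod_cast h1
    have h3 := Real.log_le_log (by positivity) h2
    rw [Real.log_pow] at h3
    have h4 : (0.5:ℝ) ≤ Real.log 2 := by
      have := Real.log_two_gt_d9
      linarith
    have h5 : (Nat.log 2 n : ℝ) * 0.5 ≤ Nat.log 2 n * Real.log 2 := by gcongr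
    push_cast
    linarith
  have e5 : (2:ℝ) ^ p ≤ 4 := by
    calc (2:ℝ) ^ p ≤ (2:ℝ) ^ (2:ℝ) := Real.rpow_le_rpow_of_exponent_le (by norm_num) hp2
      _ = 4 := by
        rw [show (2:ℝ) ^ (2:ℝ) = (2:ℝ) ^ ((2:ℕ):ℝ) by norm_num, Real.rpow_natCast]
        norm_num
  have hL : (1 + Real.log N) ^ 3 ≤ (1 + Real.log N) ^ 4 :=
    pow_le_pow_right₀ (by linarith) (by norm_num)
  rw [e1]
  calc (2:ℝ) ^ p * (((Nat.log 2 n + 1 : ℕ) : ℝ) * (C₁ * (1 + Real.log n) ^ 2 *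
        (n * (n:ℝ) ^ β) * V))
      ≤ 4 * ((2 * (1 + Real.log n)) * (C₁ * (1 + Real.log n) ^ 2 *
        (n * (((K + 1) * 4 ^ d) * N ^ (d * β))) * V)) := by
        gcongr
    _ = 8 * C₁ * (1 + Real.log n) ^ 3 * ((K + 1) * 4 ^ d) * N ^ (d * β) * (n * V) := by ring
    _ ≤ 8 * C₁ * ((K + 1 + 2 * d) * (1 + Real.log N)) ^ 3 * ((K + 1) * 4 ^ d) * N ^ (d * β) *
        (n * V) := by gcongr
    _ = 8 * C₁ * (K + 1 + 2 * d) ^ 3 * ((K + 1) * 4 ^ d) * (1 + Real.log N) ^ 3 * N ^ (d * β) *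
        (n * V) := by ring
    _ ≤ 8 * C₁ * (K + 1 + 2 * d) ^ 3 * ((K + 1) * 4 ^ d) * (1 + Real.log N) ^ 4 * N ^ (d * β) *
        (n * V) := by gcongr
    _ = _ := by push_cast; ring

theorem lp {d : ℕ} {α : ℝ} (hα : 1 ≤ α) (hF : Flex d α) (K : ℕ) : ∃ C : ℕ, 1 ≤ C ∧
    ∀ (N : ℝ), 1 ≤ N → ∀ (ι : Type) [Fintype ι] (θ : ι → Cap d) (c : ι → Sp d),
      (∀ z : Fin d → ℤ, ∀ s : Finset ι, (∀ i ∈ s, cell N (θ i) = z) → s.card ≤ K) →
      ∀ (p : ℝ), 1 ≤ p → p ≤ 1 + 1 / C →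
      eLpNorm (mult N θ c) (ENNReal.ofReal p) volume ≤
        ENNReal.ofReal (C * (1 + Real.log N) ^ 4 * N ^ (d * (1 - 1 / α) * (1 - 1 / p))) *
          eLpNorm (mult N θ (fun _ => 0)) (ENNReal.ofReal p) volume := by
  classical
  obtain ⟨C₁, hC₁, hlev⟩ := level hα hF K
  obtain ⟨M, hM⟩ : ∃ M, M = (K + 1 + 2 * d) ^ 3 * ((K + 1) * 4 ^ d) := ⟨_, rfl⟩
  have hM1 : 1 ≤ M := by rw [hM]; exact Nat.one_le_iff_ne_zero.2 (by positivity)
  obtain ⟨C, hC⟩ : ∃ C, C = 8 * C₁ * (K + 1 + 2 * d) ^ 3 * ((K + 1) * 4 ^ d) := ⟨_, rfl⟩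
  have hCM : C = 8 * C₁ * M := by rw [hC, hM]; ring
  have hC1 : C₁ ≤ C := by rw [hCM]; nlinarith
  refine ⟨C, by omega, ?_⟩
  intro N hN ι _ θ c hK p hp hpC
  have hN0 : 0 < N := by linarith
  rcases isEmpty_or_nonempty ι with hι | hι
  · have h0 : mult N θ c = 0 := by
      funext x
      unfold mult
      simp
    rw [h0, eLpNorm_zero]
    exact bot_le
  have hC1' : (C₁:ℝ) ≤ C := by exact_mod_cast hC1
  have hC₁' : (1:ℝ) ≤ C₁ := by exact_mod_cast hC₁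
  have hCr : (1:ℝ) ≤ C := by linarith
  have hpC1 : p ≤ 1 + 1 / C₁ := by
    refine hpC.trans ?_
    gcongr
  have hp2 : p ≤ 2 := by
    have : 1 / (C:ℝ) ≤ 1 := by rw [div_le_one (by linarith)]; exact hCr
    linarith
  have hn1 : 1 ≤ Fintype.card ι := Fintype.card_pos
  have hcard := lp_card hN K θ hK
  have hup := lp_upper (N := N) (p := p) (X := C₁ * (1 + Real.log (Fintype.card ι)) ^ 2 *
    (Fintype.card ι : ℝ) ^ (p - (p - 1) / α) * N ^ (d + 2)) θ c hp (by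
      intro k
      exact hlev N hN ι θ c hK p hp hpC1 _ _
        (measurableSet_le measurable_const (measurable_mult N θ c))
        (one_le_pow₀ (by norm_num)) (fun x hx => hx))
  have hlow := lp_lower hN0.le hp θ (fun _ => 0)
  have hreal := lp_real (C₁ := C₁) hN hn1 hα hp hp2 (by positivity : 0 ≤ N ^ (d + 2)) hcard
  rw [← hC] at hreal
  have hL1 : (1:ℝ) ≤ (1 + Real.log N) ^ 4 := by
    apply one_le_pow₀
    have := Real.log_nonneg hN
    linarith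
  have hα0 : 0 < α := by linarith
  have hβ0 : 0 ≤ (p - 1) * (1 - 1 / α) := by
    apply mul_nonneg (by linarith)
    have : 1 / α ≤ 1 := by rw [div_le_one hα0]; exact hα
    linarith
  have htr : (ENNReal.ofReal p).toReal = p := ENNReal.toReal_ofReal (by linarith)
  have key := norm_of_ratio (N := N) (C := C * (1 + Real.log N) ^ 4)
    (a := d * ((p - 1) * (1 - 1 / α))) (by nlinarith) (by positivity) θ c (L := N) hN
    (p := ENNReal.ofReal p) (by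
      rw [← ENNReal.ofReal_one]
      exact ENNReal.ofReal_le_ofReal hp) ENNReal.ofReal_ne_top (by
      rw [htr]
      refine hup.trans ((ENNReal.ofReal_le_ofReal hreal).trans ?_)
      rw [ENNReal.ofReal_mul (by positivity)]
      gcongr)
  rw [htr] at key
  have e1 : (d:ℝ) * ((p - 1) * (1 - 1 / α)) / p = d * (1 - 1 / α) * (1 - 1 / p) := by
    have hp0 : p ≠ 0 := by linarith
    field_simp
  rwa [e1] at key

end Pool.Agent.MPac5134.KH
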