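import Pool.Agent.Lib.MP_ac5134_an.KH.Rnd
import Pool.Agent.Lib.MP_ac5134_an.KH.Conf

/-!
# KH-PairB and the slices of the pencil at `F`

Configuration `v t₁`: lines `L₂ = L x.1` and `L₃ = L x.2` with the same cell at height `t₁`.

PROOF of `pair_B`: `H(L₂, L₃) ≤ H(B₃, F) + H((L₂, L₃) | B₃, F)` and the last term is at most the sum of
`H(A₃ | B₃) = kap` (`cent_v_snd`), `H(B₂ | L₃, F) ≤ cst` (given `B₃` and `F` the point of line 2 at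
height `t₀` is known up to `1`, and its point at height `t₁` up to `1`, as its cell is the cell of line
3: so `(t₁ - t₀) B₂` up to `2`), `H(A₂ | B₂, L₃) = 0` (`A_of` at height `t₁`).

PROOF of `pair_slice`: put `ρ = (z - t₀)/(z - t₁)`, `b₂ = pt (line 2) t₁`, `b₃ = pt (line 3) t₁`
(`|b₂ k - b₃ k| ≤ 1`).  Then
`pt (line 2) t₀ + κ B₃ = ρ (b₂ - b₃) - ((t₁ - t₀)/(z - t₁)) pt (line 2) z + ρ pt (line 3) q
  + (κ - ρ (q - t₁)) B₃`,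
`|ρ| ≤ 1/η`, `|(t₁ - t₀)/(z - t₁)| ≤ 1/η`, and the last term is at most `1/η` in absolute value.  So for
two points of the support with the same `P z (line 2)`, `P q (line 3)` it differs by at most `6/η`, the
floor `F` by `7/η`, and `H(F | P z, P q) ≤ cst`.
-/

open RFold Finset

namespace Pool.Agent.MPac5134.KH.LS

variable {d : ℕ} {Ω : Type} [Fintype Ω] (S : LS d Ω)

private theorem pairB_near {t₀ t₁ κ η : ℝ} (hη : 0 < η) (h1 : η ≤ 1) (ht : η ≤ |t₁ - t₀|)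
    (x x' : Ω × Ω) (hx : S.v t₁ x ≠ 0) (hx' : S.v t₁ x' ≠ 0)
    (he : (S.A x.2, (S.B x.2, S.F t₀ κ x)) = (S.A x'.2, (S.B x'.2, S.F t₀ κ x'))) (k : Fin d) :
    |(S.B x.1 k : ℝ) - S.B x'.1 k| ≤ 10 / η ^ 2 := by
  have hA : S.A x.2 = S.A x'.2 := (Prod.ext_iff.mp he).1
  have hB : S.B x.2 = S.B x'.2 := (Prod.ext_iff.mp (Prod.ext_iff.mp he).2).1
  have hF : S.F t₀ κ x = S.F t₀ κ x' := (Prod.ext_iff.mp (Prod.ext_iff.mp he).2).2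
  have hc1 := (S.v_ne_zero hx).2.2
  have hc2 := (S.v_ne_zero hx').2.2
  have hc3 : S.P t₁ x.2 = S.P t₁ x'.2 := by
    unfold P
    rw [hA, hB]
  have hc4 : S.P t₁ x.1 = S.P t₁ x'.1 := by rw [hc1, hc3, ← hc2]
  have h2 : |pt (S.A x.1) (S.B x.1) t₁ k - pt (S.A x'.1) (S.B x'.1) t₁ k| ≤ 1 := fl_eq hc4 k
  have h3 : |(pt (S.A x.1) (S.B x.1) t₀ k + κ * (S.B x.2 k : ℝ)) -
      (pt (S.A x'.1) (S.B x'.1) t₀ k + κ * (S.B x'.2 k : ℝ))| ≤ 1 := fl_eq hF k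
  rw [hB] at h3
  have h4 : |pt (S.A x.1) (S.B x.1) t₀ k - pt (S.A x'.1) (S.B x'.1) t₀ k| ≤ 1 := by
    have e : pt (S.A x.1) (S.B x.1) t₀ k + κ * (S.B x'.2 k : ℝ) -
        (pt (S.A x'.1) (S.B x'.1) t₀ k + κ * (S.B x'.2 k : ℝ)) =
        pt (S.A x.1) (S.B x.1) t₀ k - pt (S.A x'.1) (S.B x'.1) t₀ k := by ring
    rw [e] at h3
    exact h3
  have h5 : |(t₁ - t₀) * ((S.B x.1 k : ℝ) - S.B x'.1 k)| ≤ 2 := by
    have e : (t₁ - t₀) * ((S.B x.1 k : ℝ) - S.B x'.1 k) =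
        (pt (S.A x.1) (S.B x.1) t₁ k - pt (S.A x'.1) (S.B x'.1) t₁ k) -
        (pt (S.A x.1) (S.B x.1) t₀ k - pt (S.A x'.1) (S.B x'.1) t₀ k) := by
      unfold pt
      ring
    rw [e]
    rw [abs_le] at h2 h4 ⊢
    constructor <;> linarith [h2.1, h2.2, h4.1, h4.2]
  rw [abs_mul] at h5
  have h6 : η * |(S.B x.1 k : ℝ) - S.B x'.1 k| ≤ 2 :=
    (mul_le_mul_of_nonneg_right ht (abs_nonneg _)).trans h5
  rw [le_div_iff₀ (by positivity)]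
  have h7 : |(S.B x.1 k : ℝ) - S.B x'.1 k| * η ^ 2 =
      (η * |(S.B x.1 k : ℝ) - S.B x'.1 k|) * η := by ring
  rw [h7]
  have h8 : (η * |(S.B x.1 k : ℝ) - S.B x'.1 k|) * η ≤ 2 * 1 :=
    mul_le_mul h6 h1 hη.le (by norm_num)
  linarith

theorem pair_B {t₀ t₁ κ η : ℝ} (hη : 0 < η) (h1 : η ≤ 1) (ht : η ≤ |t₁ - t₀|) :
    2 * S.h - S.H t₁ ≤ ent (S.v t₁) (fun x => (S.B x.2, S.F t₀ κ x)) + S.kap + cst d η := by
  have hp := S.isPr_v t₁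
  rw [← S.ent_v t₁]
  have e1 := ent_le_add hp (fun x : Ω × Ω => (S.B x.2, S.F t₀ κ x))
    (fun x : Ω × Ω => (S.L x.1, S.L x.2))
  have e2 : cent (S.v t₁) (fun x : Ω × Ω => (S.L x.1, S.L x.2))
      (fun x : Ω × Ω => (S.B x.2, S.F t₀ κ x)) ≤
      cent (S.v t₁) (fun x : Ω × Ω => (S.A x.2, S.B x.1))
        (fun x : Ω × Ω => (S.B x.2, S.F t₀ κ x)) := by
    refine cent_mono hp ?_ (Det.refl _)
    intro x x' hx hx' he
    have hA2 : S.A x.2 = S.A x'.2 := (Prod.ext_iff.mp (Prod.ext_iff.mp he).1).1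
    have hB1 : S.B x.1 = S.B x'.1 := (Prod.ext_iff.mp (Prod.ext_iff.mp he).1).2
    have hB2 : S.B x.2 = S.B x'.2 := (Prod.ext_iff.mp (Prod.ext_iff.mp he).2).1
    have hc1 := (S.v_ne_zero hx).2.2
    have hc2 := (S.v_ne_zero hx').2.2
    have hc3 : S.P t₁ x.2 = S.P t₁ x'.2 := by
      unfold P
      rw [hA2, hB2]
    have hc4 : S.P t₁ x.1 = S.P t₁ x'.1 := by rw [hc1, hc3, ← hc2]
    have hA1 : S.A x.1 = S.A x'.1 := A_of hB1 hc4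
    show (S.L x.1, S.L x.2) = (S.L x'.1, S.L x'.2)
    unfold L
    rw [hA1, hB1, hA2, hB2]
  have e3 := cent_pair_le hp (fun x : Ω × Ω => (S.B x.2, S.F t₀ κ x))
    (fun x : Ω × Ω => S.A x.2) (fun x : Ω × Ω => S.B x.1)
  have e4 : cent (S.v t₁) (fun x : Ω × Ω => S.A x.2)
      (fun x : Ω × Ω => (S.B x.2, S.F t₀ κ x)) ≤ S.kap := by
    refine (cent_anti hp _ (Det.fst (Det.refl fun x : Ω × Ω => S.B x.2))).trans ?_
    rw [S.cent_v_snd t₁ S.A S.B]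
    exact le_rfl
  have e5 : cent (S.v t₁) (fun x : Ω × Ω => S.B x.1)
      (fun x : Ω × Ω => (S.A x.2, (S.B x.2, S.F t₀ κ x))) ≤ cst d η :=
    cent_near_cst hp _ _ hη fun x x' hx hx' he k =>
      S.pairB_near hη h1 ht x x' hx hx' he k
  linarith

private theorem slice_id (a b a' b' : Fin d → ℤ) {t₀ t₁ κ q z : ℝ} (h : z - t₁ ≠ 0) (k : Fin d) :
    pt a b t₀ k + κ * (b' k : ℝ) =
      (z - t₀) / (z - t₁) * (pt a b t₁ k - pt a' b' t₁ k) -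
        (t₁ - t₀) / (z - t₁) * pt a b z k + (z - t₀) / (z - t₁) * pt a' b' q k +
        (κ - (z - t₀) * (q - t₁) / (z - t₁)) * (b' k : ℝ) := by
  unfold pt
  field_simp
  ring

private theorem abs_prod_le {x y c e : ℝ} (hx : |x| ≤ c) (hy : |y| ≤ e) (hc : 0 ≤ c) :
    |x * y| ≤ c * e := by
  rw [abs_mul]
  exact mul_le_mul hx hy (abs_nonneg _) hc

private theorem slice_near {N : ℕ} (hN : 1 ≤ N) {t₀ t₁ κ q z η : ℝ} (hη : 0 < η) (h1 : η ≤ 1)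
    (ht0 : 0 ≤ t₀) (ht0' : t₀ ≤ 1) (ht1 : 0 ≤ t₁) (ht1' : t₁ ≤ 1) (hz : 0 ≤ z) (hz' : z ≤ 1)
    (h3 : η ≤ |z - t₁|) (hrel : |(z - t₀) * (q - t₁) / (z - t₁) - κ| ≤ 1 / (η * N))
    (hB : ∀ ω j, |(S.B ω j : ℝ)| ≤ N) (x x' : Ω × Ω) (hx : S.v t₁ x ≠ 0) (hx' : S.v t₁ x' ≠ 0)
    (he : (S.P z x.1, S.P q x.2) = (S.P z x'.1, S.P q x'.2)) (k : Fin d) :
    |(S.F t₀ κ x k : ℝ) - S.F t₀ κ x' k| ≤ 10 / η ^ 2 := by
  have hNR : (1 : ℝ) ≤ N := by exact_mod_cast hN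
  have hz0 : z - t₁ ≠ 0 := by
    intro h
    rw [h, abs_zero] at h3
    linarith
  have hzpos : 0 < |z - t₁| := abs_pos.mpr hz0
  have hρ : |(z - t₀) / (z - t₁)| ≤ 1 / η := by
    rw [abs_div, div_le_div_iff₀ hzpos hη]
    have : |z - t₀| ≤ 1 := by rw [abs_le]; constructor <;> linarith
    nlinarith [abs_nonneg (z - t₀)]
  have hσ : |(t₁ - t₀) / (z - t₁)| ≤ 1 / η := by
    rw [abs_div, div_le_div_iff₀ hzpos hη]
    have : |t₁ - t₀| ≤ 1 := by rw [abs_le]; constructor <;> linarith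
    nlinarith [abs_nonneg (t₁ - t₀)]
  have hPz : S.P z x.1 = S.P z x'.1 := (Prod.ext_iff.mp he).1
  have hPq : S.P q x.2 = S.P q x'.2 := (Prod.ext_iff.mp he).2
  have hτ : ∀ ω, |(κ - (z - t₀) * (q - t₁) / (z - t₁)) * (S.B ω k : ℝ)| ≤ 1 / η := by
    intro ω
    rw [abs_sub_comm] at hrel
    refine (abs_prod_le hrel (hB ω k) (by positivity)).trans (le_of_eq ?_)
    field_simp
  have a1 : |pt (S.A x.1) (S.B x.1) t₁ k - pt (S.A x.2) (S.B x.2) t₁ k| ≤ 1 :=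
    fl_eq (S.v_ne_zero hx).2.2 k
  have a2 : |pt (S.A x'.1) (S.B x'.1) t₁ k - pt (S.A x'.2) (S.B x'.2) t₁ k| ≤ 1 :=
    fl_eq (S.v_ne_zero hx').2.2 k
  have a3 : |pt (S.A x.1) (S.B x.1) z k - pt (S.A x'.1) (S.B x'.1) z k| ≤ 1 := fl_eq hPz k
  have a4 : |pt (S.A x.2) (S.B x.2) q k - pt (S.A x'.2) (S.B x'.2) q k| ≤ 1 := fl_eq hPq k
  have hη0 : (0 : ℝ) ≤ 1 / η := by positivity
  have b1 := abs_prod_le hρ a1 hη0
  have b2 := abs_prod_le hρ a2 hη0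
  have b3 := abs_prod_le hσ a3 hη0
  have b4 := abs_prod_le hρ a4 hη0
  have b5 := hτ x.2
  have b6 := hτ x'.2
  have key : |(pt (S.A x.1) (S.B x.1) t₀ k + κ * (S.B x.2 k : ℝ)) -
      (pt (S.A x'.1) (S.B x'.1) t₀ k + κ * (S.B x'.2 k : ℝ))| ≤ 6 / η := by
    rw [slice_id (S.A x.1) (S.B x.1) (S.A x.2) (S.B x.2) (q := q) hz0 k,
      slice_id (S.A x'.1) (S.B x'.1) (S.A x'.2) (S.B x'.2) (q := q) hz0 k]
    have e6 : (6 : ℝ) / η = 6 * (1 / η) := by ring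
    rw [e6]
    rw [mul_one] at b1 b2 b3 b4
    rw [abs_le] at b1 b2 b3 b4 b5 b6 ⊢
    rw [mul_sub] at b3 b4
    constructor
    · linarith [b1.1, b1.2, b2.1, b2.2, b3.1, b3.2, b4.1, b4.2, b5.1, b5.2, b6.1, b6.2]
    · linarith [b1.1, b1.2, b2.1, b2.2, b3.1, b3.2, b4.1, b4.2, b5.1, b5.2, b6.1, b6.2]
  have h4 := fl_near (x := fun k => pt (S.A x.1) (S.B x.1) t₀ k + κ * (S.B x.2 k : ℝ))
    (y := fun k => pt (S.A x'.1) (S.B x'.1) t₀ k + κ * (S.B x'.2 k : ℝ)) k key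
  refine h4.trans ?_
  have hη1 : 1 ≤ 1 / η := by
    rw [le_div_iff₀ hη]
    linarith
  have e7 : (10 : ℝ) / η ^ 2 = 10 * ((1 / η) * (1 / η)) := by
    field_simp
  have e8 : (6 : ℝ) / η = 6 * (1 / η) := by ring
  rw [e7, e8]
  nlinarith

theorem pair_slice {N : ℕ} (hN : 1 ≤ N) {t₀ t₁ κ q z η : ℝ} (hη : 0 < η) (h1 : η ≤ 1)
    (ht0 : 0 ≤ t₀) (ht0' : t₀ ≤ 1) (ht1 : 0 ≤ t₁) (ht1' : t₁ ≤ 1) (hz : 0 ≤ z) (hz' : z ≤ 1)
    (h3 : η ≤ |z - t₁|) (hrel : |(z - t₀) * (q - t₁) / (z - t₁) - κ| ≤ 1 / (η * N))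
    (hB : ∀ ω j, |(S.B ω j : ℝ)| ≤ N) :
    ent (S.v t₁) (fun x => (S.P q x.2, S.F t₀ κ x)) ≤ S.G t₁ z q + cst d η := by
  have hp := S.isPr_v t₁
  have e1 := ent_le_add hp (fun x : Ω × Ω => (S.P z x.1, S.P q x.2))
    (fun x : Ω × Ω => (S.P q x.2, S.F t₀ κ x))
  have e2 : cent (S.v t₁) (fun x : Ω × Ω => (S.P q x.2, S.F t₀ κ x))
      (fun x : Ω × Ω => (S.P z x.1, S.P q x.2)) ≤
      cent (S.v t₁) (fun x : Ω × Ω => S.F t₀ κ x)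
        (fun x : Ω × Ω => (S.P z x.1, S.P q x.2)) := by
    refine cent_mono hp ?_ (Det.refl _)
    intro x x' _ _ he
    have hF : S.F t₀ κ x = S.F t₀ κ x' := (Prod.ext_iff.mp he).1
    have hq : S.P q x.2 = S.P q x'.2 := (Prod.ext_iff.mp (Prod.ext_iff.mp he).2).2
    show (S.P q x.2, S.F t₀ κ x) = (S.P q x'.2, S.F t₀ κ x')
    rw [hF, hq]
  have e3 : cent (S.v t₁) (fun x : Ω × Ω => S.F t₀ κ x)
      (fun x : Ω × Ω => (S.P z x.1, S.P q x.2)) ≤ cst d η :=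
    cent_near_cst hp _ _ hη fun x x' hx hx' he k =>
      S.slice_near hN hη h1 ht0 ht0' ht1 ht1' hz hz' h3 hrel hB x x' hx hx' he k
  unfold G
  linarith

end Pool.Agent.MPac5134.KH.LS
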