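import Pool.Agent.Lib.MP_ac5134_an.KH.Cond
import Pool.Agent.Lib.MP_ac5134_an.KH.PairB

/-!
# KH-PairF: the pair inequality for families (second inequality of Katz and Tao)

PROOF.  Apply `RI.cond` to the systems on `Ω × Ω` with the law `v t₁`, `A = A x.2`, `B = B x.2` (their
`kap` is `kap` by `cent_v_snd`) and `Cf = F t₀ κ`.  The conditional entropy of the slice `q ∈ Q` is
`ent (P q, F) - sig ≤ G t₁ z q + cst - sig` (`pair_slice`), in the average at most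
`Gs + cst - E sig`.  And `cent B₃ F = ent (B₃, F) - sig ≥ 2 h - H t₁ - kap - cst - sig` (`pair_B`).
-/

open RFold Finset

namespace Pool.Agent.MPac5134.KH

theorem pair_fam {d N : ℕ} (hN : 1 ≤ N) {α C η k s κ Gs : ℝ} (hη : 0 < η) (h1 : η ≤ 1)
    {Q : Finset ℕ} (hRI : RI d N α C Q) (hα : 0 ≤ α) {t₀ t₁ : ℝ} (ht0 : 0 ≤ t₀) (ht0' : t₀ ≤ 1)
    (ht1 : 0 ≤ t₁) (ht1' : t₁ ≤ 1) (ht : η ≤ |t₁ - t₀|)
    {I Ω : Type} [Fintype I] [Fintype Ω] {w : I → ℝ} (hw : ∀ i, 0 ≤ w i) (hw1 : ∑ i, w i = 1)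
    (S : I → LS d Ω) (hB : ∀ i ω j, |((S i).B ω j : ℝ)| ≤ N) (hk : ∑ i, w i * (S i).kap ≤ k)
    (H1 : ∑ i, w i * (S i).H t₁ ≤ s)
    (hQ : ∀ q ∈ Q, ∃ z : ℝ, 0 ≤ z ∧ z ≤ 1 ∧ η ≤ |z - t₁| ∧
      |(z - t₀) * ((q : ℝ) / N - t₁) / (z - t₁) - κ| ≤ 1 / (η * N) ∧
      ∑ i, w i * (S i).G t₁ z ((q : ℝ) / N) ≤ Gs) :
    2 * ∑ i, w i * (S i).h + (α - 1) * ∑ i, w i * (S i).sig t₁ t₀ κ ≤
      α * Gs + s + (k + (1 + α) * cst d η + C * (1 + k)) := by
  have hkap : ∀ i, cent ((S i).v t₁) (fun x : Ω × Ω => (S i).A x.2) (fun x : Ω × Ω => (S i).B x.2) =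
      (S i).kap := fun i => (S i).cent_v_snd t₁ (S i).A (S i).B
  have key : ∑ i, w i * cent ((S i).v t₁) (fun x : Ω × Ω => (S i).B x.2) ((S i).F t₀ κ) ≤
      α * (Gs + cst d η - ∑ i, w i * (S i).sig t₁ t₀ κ) + C * (1 + k) := by
    refine hRI.cond hw hw1
      (fun i => (⟨(S i).v t₁, fun x => (S i).A x.2, fun x => (S i).B x.2, (S i).isPr_v t₁⟩ :
        LS d (Ω × Ω))) (fun i x j => hB i x.2 j) (fun i => (S i).F t₀ κ) ?_ ?_
    · refine le_trans (le_of_eq (sum_congr rfl fun i _ => ?_)) hk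
      exact congrArg (fun y => w i * y) (hkap i)
    · intro q hq
      obtain ⟨z, hz0, hz1, hz2, hz3, hz4⟩ := hQ q hq
      have e1 : ∀ i, cent ((S i).v t₁) (fun x : Ω × Ω => (S i).P ((q : ℝ) / N) x.2)
          ((S i).F t₀ κ) ≤ (S i).G t₁ z ((q : ℝ) / N) + cst d η - (S i).sig t₁ t₀ κ := by
        intro i
        have e2 := (S i).pair_slice hN hη h1 ht0 ht0' ht1 ht1' hz0 hz1 hz2 hz3 (hB i)
        have e3 : cent ((S i).v t₁) (fun x : Ω × Ω => (S i).P ((q : ℝ) / N) x.2)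
          ((S i).F t₀ κ) = ent ((S i).v t₁) (fun x : Ω × Ω => ((S i).P ((q : ℝ) / N) x.2,
            (S i).F t₀ κ x)) - (S i).sig t₁ t₀ κ := rfl
        rw [e3]
        linarith
      calc _ ≤ ∑ i, w i * ((S i).G t₁ z ((q : ℝ) / N) + cst d η - (S i).sig t₁ t₀ κ) :=
            sum_le_sum fun i _ => mul_le_mul_of_nonneg_left (e1 i) (hw i)
        _ = ∑ i, w i * (S i).G t₁ z ((q : ℝ) / N) + cst d η -
            ∑ i, w i * (S i).sig t₁ t₀ κ := by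
            simp only [mul_sub, mul_add, sum_sub_distrib, sum_add_distrib]
            rw [← sum_mul, hw1, one_mul]
        _ ≤ _ := by linarith
  have e4 : ∀ i, 2 * (S i).h - (S i).H t₁ ≤
      cent ((S i).v t₁) (fun x : Ω × Ω => (S i).B x.2) ((S i).F t₀ κ) + (S i).sig t₁ t₀ κ +
        (S i).kap + cst d η := by
    intro i
    have e5 := (S i).pair_B (t₀ := t₀) (κ := κ) hη h1 ht
    have e6 : cent ((S i).v t₁) (fun x : Ω × Ω => (S i).B x.2) ((S i).F t₀ κ) =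
        ent ((S i).v t₁) (fun x : Ω × Ω => ((S i).B x.2, (S i).F t₀ κ x)) -
          (S i).sig t₁ t₀ κ := rfl
    rw [e6]
    linarith
  have e7 : 2 * ∑ i, w i * (S i).h - ∑ i, w i * (S i).H t₁ ≤
      ∑ i, w i * cent ((S i).v t₁) (fun x : Ω × Ω => (S i).B x.2) ((S i).F t₀ κ) +
        ∑ i, w i * (S i).sig t₁ t₀ κ + ∑ i, w i * (S i).kap + cst d η := by
    have e8 : ∑ i, w i * (2 * (S i).h - (S i).H t₁) ≤
        ∑ i, w i * (cent ((S i).v t₁) (fun x : Ω × Ω => (S i).B x.2) ((S i).F t₀ κ) +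
          (S i).sig t₁ t₀ κ + (S i).kap + cst d η) :=
      sum_le_sum fun i _ => mul_le_mul_of_nonneg_left (e4 i) (hw i)
    have e9 : ∑ i, w i * (2 * (S i).h - (S i).H t₁) =
        2 * ∑ i, w i * (S i).h - ∑ i, w i * (S i).H t₁ := by
      rw [mul_sum, ← sum_sub_distrib]
      exact sum_congr rfl fun i _ => by ring
    rw [e9] at e8
    refine e8.trans (le_of_eq ?_)
    simp only [mul_add, sum_add_distrib]
    rw [← sum_mul, hw1, one_mul]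
  nlinarith [key, e7, hk, H1]

end Pool.Agent.MPac5134.KH
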