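import Pool.Agent.Lib.MP_ac5134_an.KH.Rnd
import Pool.Agent.Lib.MP_ac5134_an.KH.Conf

/-!
# KH-PathB: `(B₁, M)` determines the path up to a bounded number of choices

PROOF of `path_B`.  Write `w = w3 t₀ t₁`, `X₁ = L x.1.1`, `X₂ = L x.1.2`, `X₃ = L x.2`, `g = (B₁, M)`.
`H(X₁,X₂,X₃) ≤ H(g) + H((X₁,X₂,X₃) | g)` (`ent_le_add`) and, by the chain rule (`cent_pair_le`,
`cent_anti`, `cent_mono`), `H((X₁,X₂,X₃) | g)` is at most the sum of
* `H(A₁ | B₁) = kap` (`cent_w3_1`),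
* `H(B₃ | X₁, M) ≤ cst`: for two points of the support with the same `X₁` and `M` the numbers
  `c B₃ k` differ by at most `1` (`fl_eq`, the term `pt .. u` is the same), so `B₃ k` by `1/η`,
* `H(A₃ | B₃) = kap` (`cent_w3_3`),
* `H(B₂ | X₁, X₃) ≤ cst`: `P t₀` of line 2 is `P t₀` of line 1, `P t₁` of line 2 is `P t₁` of line 3
  (`w3_ne_zero`), so the points of line 2 at heights `t₀`, `t₁` are known up to `1` (`fl_eq`), and
  `(t₁ - t₀) B₂ k` up to `2` (`pt_sub`), so `B₂ k` up to `2/η`,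
* `H(A₂ | B₂, X₁) = 0`: `A_of` (`cent_zero_of_det`).
Use `cent_near_cst` (`1/η ≤ 10/η²` etc. since `η ≤ 1`).
-/

open RFold Finset

namespace Pool.Agent.MPac5134.KH.LS

variable {d : ℕ} {Ω : Type} [Fintype Ω] (S : LS d Ω)

/-- division of an absolute value bound -/
private theorem PathB_div {a b r η : ℝ} (hη : 0 < η) (h1 : η ≤ 1) (ha : η ≤ |a|) (hr : r ≤ 10)
    (h : |a * b| ≤ r) : |b| ≤ 10 / η ^ 2 := by
  rw [abs_mul] at h
  rw [le_div_iff₀ (by positivity)]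
  have h0 := abs_nonneg b
  have h2 : η * |b| ≤ r := (mul_le_mul_of_nonneg_right ha h0).trans h
  have h3 : 0 ≤ η * |b| := mul_nonneg hη.le h0
  calc |b| * η ^ 2 = η * (η * |b|) := by ring
    _ ≤ 1 * (η * |b|) := mul_le_mul_of_nonneg_right h1 h3
    _ ≤ 10 := by linarith

theorem path_B {t₀ t₁ u c η : ℝ} (hη : 0 < η) (h1 : η ≤ 1) (ht : η ≤ |t₁ - t₀|) (hc : η ≤ |c|) :
    3 * S.h - S.H t₀ - S.H t₁ ≤
      ent (S.w3 t₀ t₁) (fun x => (S.B x.1.1, S.M u c x)) + 2 * S.kap + 2 * cst d η := by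
  have hp := S.isPr_w3 t₀ t₁
  set w := S.w3 t₀ t₁ with hw
  have e1 := ent_le_add hp (fun x => (S.B x.1.1, S.M u c x))
    (fun x => ((S.L x.1.1, S.L x.1.2), S.L x.2))
  rw [hw, S.ent_w3 t₀ t₁, ← hw] at e1
  -- the conditional entropy of the path
  have e2 : cent w (fun x => ((S.L x.1.1, S.L x.1.2), S.L x.2))
      (fun x => (S.B x.1.1, S.M u c x)) ≤
      cent w (fun x => (S.A x.1.1, (S.B x.2, (S.A x.2, (S.B x.1.2, S.A x.1.2)))))
        (fun x => (S.B x.1.1, S.M u c x)) := by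
    refine cent_mono hp ?_ (Det.refl _)
    intro x y _ _ e
    simp only [Prod.mk.injEq, LS.L] at e ⊢
    tauto
  have e3 := cent_chain hp (fun x : (Ω × Ω) × Ω => S.A x.1.1)
    (fun x => (S.B x.2, (S.A x.2, (S.B x.1.2, S.A x.1.2)))) (fun x => (S.B x.1.1, S.M u c x))
  have e4 := cent_chain hp (fun x : (Ω × Ω) × Ω => S.B x.2)
    (fun x => (S.A x.2, (S.B x.1.2, S.A x.1.2))) (fun x => (S.A x.1.1, (S.B x.1.1, S.M u c x)))
  have e5 := cent_chain hp (fun x : (Ω × Ω) × Ω => S.A x.2)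
    (fun x => (S.B x.1.2, S.A x.1.2))
    (fun x => (S.B x.2, (S.A x.1.1, (S.B x.1.1, S.M u c x))))
  have e6 := cent_chain hp (fun x : (Ω × Ω) × Ω => S.B x.1.2)
    (fun x => S.A x.1.2)
    (fun x => (S.A x.2, (S.B x.2, (S.A x.1.1, (S.B x.1.1, S.M u c x)))))
  -- the five terms
  have t1 : cent w (fun x => S.A x.1.1) (fun x => (S.B x.1.1, S.M u c x)) ≤ S.kap := by
    refine (cent_anti hp _ (g := fun x : (Ω × Ω) × Ω => S.B x.1.1)
      (Det.fst (Det.refl _))).trans (le_of_eq ?_)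
    exact S.cent_w3_1 t₀ t₁ S.A S.B
  have t2 : cent w (fun x => S.B x.2) (fun x => (S.A x.1.1, (S.B x.1.1, S.M u c x))) ≤
      cst d η := by
    refine cent_near_cst hp _ _ hη ?_
    intro x y _ _ e k
    simp only [Prod.mk.injEq] at e
    obtain ⟨a1, a2, a3⟩ := e
    have b1 := fl_eq (x := fun k => pt (S.A x.1.1) (S.B x.1.1) u k + c * (S.B x.2 k : ℝ))
      (y := fun k => pt (S.A y.1.1) (S.B y.1.1) u k + c * (S.B y.2 k : ℝ)) a3 k
    refine PathB_div hη h1 hc (by norm_num : (1 : ℝ) ≤ 10) ?_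
    refine le_trans (le_of_eq ?_) b1
    simp only [a1, a2]
    congr 1
    ring
  have t3 : cent w (fun x => S.A x.2)
      (fun x => (S.B x.2, (S.A x.1.1, (S.B x.1.1, S.M u c x)))) ≤ S.kap := by
    refine (cent_anti hp _ (g := fun x : (Ω × Ω) × Ω => S.B x.2)
      (Det.fst (Det.refl _))).trans (le_of_eq ?_)
    exact S.cent_w3_3 t₀ t₁ S.A S.B
  have t4 : cent w (fun x => S.B x.1.2)
      (fun x => (S.A x.2, (S.B x.2, (S.A x.1.1, (S.B x.1.1, S.M u c x))))) ≤ cst d η := by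
    refine cent_near_cst hp _ _ hη ?_
    intro x y hx hy e k
    simp only [Prod.mk.injEq] at e
    obtain ⟨a1, a2, a3, a4, _⟩ := e
    obtain ⟨_, _, _, x1, x2⟩ := S.w3_ne_zero hx
    obtain ⟨_, _, _, y1, y2⟩ := S.w3_ne_zero hy
    have c1 : S.P t₀ x.1.2 = S.P t₀ y.1.2 := by
      rw [← x1, ← y1]
      unfold LS.P
      rw [a3, a4]
    have c2 : S.P t₁ x.1.2 = S.P t₁ y.1.2 := by
      rw [x2, y2]
      unfold LS.P
      rw [a1, a2]
    have b1 := fl_eq c1 k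
    have b2 := fl_eq c2 k
    refine PathB_div hη h1 ht (by norm_num : (2 : ℝ) ≤ 10) ?_
    have b3 := pt_sub (S.A x.1.2) (S.B x.1.2) t₁ t₀ k
    have b4 := pt_sub (S.A y.1.2) (S.B y.1.2) t₁ t₀ k
    have b5 : (t₁ - t₀) * (((S.B x.1.2) k : ℝ) - (S.B y.1.2) k) =
        (pt (S.A x.1.2) (S.B x.1.2) t₁ k - pt (S.A y.1.2) (S.B y.1.2) t₁ k) -
          (pt (S.A x.1.2) (S.B x.1.2) t₀ k - pt (S.A y.1.2) (S.B y.1.2) t₀ k) := by
      rw [mul_sub, ← b3, ← b4]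
      ring
    rw [b5]
    refine (abs_sub _ _).trans ?_
    linarith
  have t5 : cent w (fun x => S.A x.1.2)
      (fun x => (S.B x.1.2, (S.A x.2, (S.B x.2, (S.A x.1.1, (S.B x.1.1, S.M u c x)))))) = 0 := by
    refine cent_zero_of_det hp ?_
    intro x y hx hy e
    simp only [Prod.mk.injEq] at e
    obtain ⟨a0, a1, a2, a3, a4, _⟩ := e
    obtain ⟨_, _, _, x1, x2⟩ := S.w3_ne_zero hx
    obtain ⟨_, _, _, y1, y2⟩ := S.w3_ne_zero hy
    have c1 : S.P t₀ x.1.2 = S.P t₀ y.1.2 := by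
      rw [← x1, ← y1]
      unfold LS.P
      rw [a3, a4]
    exact A_of a0 c1
  linarith

end Pool.Agent.MPac5134.KH.LS
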