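import Pool.Agent.Lib.MP_ac5134_an.KH.Rnd
import Pool.Agent.Lib.MP_ac5134_an.KH.Conf

/-!
# KH-PathM: lower bound for the entropy of `M`

PROOF of `path_M`.  `w = w3 t₀ t₁`.
(1) `H(P u (line 1), L₃) ≤ H(P u (line 1), M) + H(L₃ | P u, M)` and `H(L₃ | P u, M) ≤ cst + kap`: given
the cell of `pt A₁ B₁ u` and `M`, the vector `c B₃` is known up to `2`, `B₃` up to `2/η`
(`cent_near_cst`), and `H(A₃ | B₃) = kap` (`cent_w3_3`).  And `H(P u, M) ≤ H(P u) + H(M)`.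
(2) `ent_submod'` (Ent.lean) with `A = (L₁, L₂)`, `B = (P u (line 1), L₃)`, `J = ((L₁, L₂), L₃)`,
`M = (P u (line 1), P t₁ (line 2))`: `H(J) + H(M) ≤ H(A) + H(B)`; `P t₁ (line 2) = P t₁ (line 3)` on the
support.  Here `H(J) = 3 h - H t₀ - H t₁` (`ent_w3`), `H(A) = 2 h - H t₀` (`ent_w3_12`, `ent_v`) and
`H(M) = G t₀ u t₁` (`ent_w3_12`).  See `ent_M_ge` in `SD/P3Fam.lean` for the same proof.
-/

open RFold Finset

namespace Pool.Agent.MPac5134.KH.LS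

variable {d : ℕ} {Ω : Type} [Fintype Ω] (S : LS d Ω)

theorem path_M {t₀ t₁ u c η : ℝ} (hη : 0 < η) (h1 : η ≤ 1) (hc : η ≤ |c|) :
    S.h - S.H t₁ + S.G t₀ u t₁ - S.H u - S.kap - cst d η ≤ ent (S.w3 t₀ t₁) (S.M u c) := by
  have hw := S.isPr_w3 t₀ t₁
  -- the rounding cost: `B₃` given `(P u (line 1), M)`
  have hB : cent (S.w3 t₀ t₁) (fun x => S.B x.2) (fun x => (S.P u x.1.1, S.M u c x)) ≤ cst d η := by
    refine cent_near_cst hw (fun x => S.B x.2) (fun x => (S.P u x.1.1, S.M u c x)) hη ?_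
    intro x y _ _ e k
    simp only [Prod.mk.injEq] at e
    have e1 := fl_eq (x := pt (S.A x.1.1) (S.B x.1.1) u) (y := pt (S.A y.1.1) (S.B y.1.1) u) e.1 k
    have e2 := fl_eq (x := fun k => pt (S.A x.1.1) (S.B x.1.1) u k + c * (S.B x.2 k : ℝ))
      (y := fun k => pt (S.A y.1.1) (S.B y.1.1) u k + c * (S.B y.2 k : ℝ)) e.2 k
    have e3 : |c| * |(S.B x.2 k : ℝ) - S.B y.2 k| ≤ 2 := by
      rw [← abs_mul]
      have e4 : c * ((S.B x.2 k : ℝ) - S.B y.2 k) =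
          (pt (S.A x.1.1) (S.B x.1.1) u k + c * (S.B x.2 k : ℝ) -
            (pt (S.A y.1.1) (S.B y.1.1) u k + c * (S.B y.2 k : ℝ))) -
          (pt (S.A x.1.1) (S.B x.1.1) u k - pt (S.A y.1.1) (S.B y.1.1) u k) := by ring
      rw [e4]
      refine (abs_sub _ _).trans ?_
      linarith
    have e5 : η * |(S.B x.2 k : ℝ) - S.B y.2 k| ≤ 2 :=
      (mul_le_mul_of_nonneg_right hc (abs_nonneg _)).trans e3
    have e6 : |(S.B x.2 k : ℝ) - S.B y.2 k| ≤ 2 / η := by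
      rw [le_div_iff₀ hη]
      linarith
    refine e6.trans ?_
    rw [div_le_div_iff₀ hη (by positivity)]
    nlinarith
  -- `A₃` given everything
  have hA : cent (S.w3 t₀ t₁) (fun x => S.A x.2)
      (fun x => (S.B x.2, (S.P u x.1.1, S.M u c x))) ≤ S.kap := by
    have a1 := cent_anti hw (fun x => S.A x.2) (g := fun x => S.B x.2)
      (g' := fun x => (S.B x.2, (S.P u x.1.1, S.M u c x)))
      (Det.fst (Det.refl (fun x : (Ω × Ω) × Ω => S.B x.2)))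
    rw [S.cent_w3_3 t₀ t₁ S.A S.B] at a1
    exact a1
  have hBA : cent (S.w3 t₀ t₁) (fun x => (S.B x.2, S.A x.2))
      (fun x => (S.P u x.1.1, S.M u c x)) ≤ cst d η + S.kap := by
    refine (cent_pair_le hw (fun x => (S.P u x.1.1, S.M u c x)) (fun x => S.B x.2)
      (fun x => S.A x.2)).trans ?_
    linarith
  -- `(P u, L₃)`
  have h2 : ent (S.w3 t₀ t₁) (fun x => (S.P u x.1.1, S.L x.2)) ≤
      ent (S.w3 t₀ t₁) (S.M u c) + S.H u + (cst d η + S.kap) := by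
    have a1 : ent (S.w3 t₀ t₁) (fun x => (S.P u x.1.1, S.L x.2)) ≤
        ent (S.w3 t₀ t₁) (fun x => ((S.B x.2, S.A x.2), (S.P u x.1.1, S.M u c x))) := by
      refine ent_mono hw ?_
      intro x y _ _ e
      simp only [Prod.mk.injEq] at e
      obtain ⟨⟨e1, e2⟩, e3, _⟩ := e
      simp only [L, Prod.mk.injEq]
      exact ⟨e3, e2, e1⟩
    rw [ent_pair (fun x => (S.B x.2, S.A x.2)) (fun x => (S.P u x.1.1, S.M u c x))] at a1
    have a2 := ent_pair_le hw (fun x => S.P u x.1.1) (S.M u c)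
    rw [S.ent_w3_1 t₀ t₁ (S.P u)] at a2
    have a3 : ent S.p (S.P u) = S.H u := rfl
    linarith
  have h3 := ent_submod' hw (A := fun x => (S.L x.1.1, S.L x.1.2))
    (B := fun x => (S.P u x.1.1, S.L x.2))
    (J := fun x => ((S.L x.1.1, S.L x.1.2), S.L x.2))
    (M := fun x => (S.P u x.1.1, S.P t₁ x.1.2)) ?_ ?_ ?_
  · rw [S.ent_w3, S.ent_w3_12 t₀ t₁ (fun x => (S.L x.1, S.L x.2)), S.ent_v,
      S.ent_w3_12 t₀ t₁ (fun x => (S.P u x.1, S.P t₁ x.2))] at h3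
    have h4 : ent (S.v t₀) (fun x => (S.P u x.1, S.P t₁ x.2)) = S.G t₀ u t₁ := rfl
    rw [h4] at h3
    linarith
  · intro x y _ _ e
    simp only [Prod.mk.injEq] at e ⊢
    tauto
  · intro x y hx hy e
    obtain ⟨hx1, hx2, hx3, hx4, hx5⟩ := S.w3_ne_zero hx
    obtain ⟨hy1, hy2, hy3, hy4, hy5⟩ := S.w3_ne_zero hy
    simp only [Prod.mk.injEq] at e ⊢
    exact ⟨S.det_P u _ _ hx1 hy1 e.1, S.det_P t₁ _ _ hx2 hy2 e.2⟩
  · intro x y hx hy e
    obtain ⟨hx1, hx2, hx3, hx4, hx5⟩ := S.w3_ne_zero hx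
    obtain ⟨hy1, hy2, hy3, hy4, hy5⟩ := S.w3_ne_zero hy
    simp only [Prod.mk.injEq] at e ⊢
    refine ⟨e.1, ?_⟩
    rw [hx5, hy5, S.det_P t₁ _ _ hx3 hy3 e.2]

end Pool.Agent.MPac5134.KH.LS
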