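import Pool.Agent.Lib.MP_ac5134_an.KH.Rnd
import Pool.Agent.Lib.MP_ac5134_an.KH.Conf

/-!
# KH-PathS: the slices of the pencil at `M`

PROOF of `path_slice`.  `w = w3 t₀ t₁`, `κ = c (p - t₀)/(p - u)`.  With `a₁ = pt A₁ B₁ t₀`,
`a₂ = pt A₂ B₂ t₀` (`|a₁ k - a₂ k| ≤ 1` by `w3_ne_zero` and `fl_eq`):
`pt A₁ B₁ u k + c B₃ k = r (pt A₁ B₁ p k) + s (a₁ k + κ B₃ k)`, `r = (u - t₀)/(p - t₀)`,
`s = (p - u)/(p - t₀)`, `r + s = 1`, `|r|, |s| ≤ 1/η` (all heights in `[0, 1]`), and `F` is the floor of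
`a₂ + κ B₃`.  So for two points of the support with the same `P p` (line 1) and the same `F` the real
vectors of `M` differ by at most `1/η + (1/η)(1 + 2) = 4/η`, the floors by `5/η` (`fl_near`), and
`H(M | P p, F) ≤ cst` (`cent_near_cst`).  Then `H(P p, M) ≤ H(P p, M, F) = H(P p, F) + H(M | P p, F)`,
`H(P p, F) ≤ H(P p) + H(F)` (`ent_pair_le`) and `ent_w3_1`, `ent_w3_23`.
-/

open RFold Finset

namespace Pool.Agent.MPac5134.KH.LS

variable {d : ℕ} {Ω : Type} [Fintype Ω] (S : LS d Ω)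

/-- the geometric step: two points of the support with the same `P p` and the same `F` -/
private theorem path_slice_geo {r s κ b a1 a2 B3 m b' a1' a2' B3' m' η : ℝ} (hη : 0 < η)
    (hr : |r| ≤ 1 / η) (hs : |s| ≤ 1 / η)
    (hm : m = r * b + s * (a1 + κ * B3)) (hm' : m' = r * b' + s * (a1' + κ * B3'))
    (hb : |b - b'| ≤ 1) (ha : |a1 - a2| ≤ 1) (ha' : |a1' - a2'| ≤ 1)
    (hF : |(a2 + κ * B3) - (a2' + κ * B3')| ≤ 1) : |m - m'| ≤ 4 / η := by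
  have e : m - m' = r * (b - b') + s * (((a2 + κ * B3) - (a2' + κ * B3')) + (a1 - a2) -
      (a1' - a2')) := by
    rw [hm, hm']; ring
  have h3 : |((a2 + κ * B3) - (a2' + κ * B3')) + (a1 - a2) - (a1' - a2')| ≤ 3 := by
    rw [abs_le] at *
    constructor <;> linarith [hF.1, hF.2, ha.1, ha.2, ha'.1, ha'.2]
  have hi : 0 ≤ 1 / η := by positivity
  calc |m - m'| ≤ |r * (b - b')| + |s * (((a2 + κ * B3) - (a2' + κ * B3')) + (a1 - a2) -
        (a1' - a2'))| := by rw [e]; exact abs_add_le _ _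
    _ = |r| * |b - b'| + |s| * |((a2 + κ * B3) - (a2' + κ * B3')) + (a1 - a2) -
        (a1' - a2')| := by rw [abs_mul, abs_mul]
    _ ≤ 1 / η * 1 + 1 / η * 3 :=
        add_le_add (mul_le_mul hr hb (abs_nonneg _) hi) (mul_le_mul hs h3 (abs_nonneg _) hi)
    _ = 4 / η := by ring

theorem path_slice {t₀ t₁ u p c η : ℝ} (hη : 0 < η) (h1 : η ≤ 1) (ht0 : 0 ≤ t₀) (ht0' : t₀ ≤ 1)
    (hu : 0 ≤ u) (hu' : u ≤ 1) (hp : 0 ≤ p) (hp' : p ≤ 1) (h2 : η ≤ |p - t₀|) (h3 : η ≤ |p - u|) :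
    ent (S.w3 t₀ t₁) (fun x => (S.P p x.1.1, S.M u c x)) ≤
      S.H p + S.sig t₁ t₀ (c * (p - t₀) / (p - u)) + cst d η := by
  have hw := S.isPr_w3 t₀ t₁
  obtain ⟨κ, hκ⟩ : ∃ κ : ℝ, κ = c * (p - t₀) / (p - u) := ⟨_, rfl⟩
  rw [← hκ]
  have hpt : p - t₀ ≠ 0 := fun h => by rw [h, abs_zero] at h2; linarith
  have hpu : p - u ≠ 0 := fun h => by rw [h, abs_zero] at h3; linarith
  obtain ⟨r, hr⟩ : ∃ r : ℝ, r = (u - t₀) / (p - t₀) := ⟨_, rfl⟩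
  obtain ⟨s, hs⟩ : ∃ s : ℝ, s = (p - u) / (p - t₀) := ⟨_, rfl⟩
  have hra : |r| ≤ 1 / η := by
    rw [hr, abs_div]
    exact div_le_div₀ zero_le_one (abs_le.2 ⟨by linarith, by linarith⟩) hη h2
  have hsa : |s| ≤ 1 / η := by
    rw [hs, abs_div]
    exact div_le_div₀ zero_le_one (abs_le.2 ⟨by linarith, by linarith⟩) hη h2
  have hid : ∀ (A B C : ℝ), A + u * B + c * C = r * (A + p * B) + s * ((A + t₀ * B) + κ * C) := by
    intro A B C
    rw [hr, hs, hκ]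
    field_simp
    ring
  have hgeo : cent (S.w3 t₀ t₁) (S.M u c) (fun x => (S.P p x.1.1, S.F t₀ κ (x.1.2, x.2))) ≤
      cst d η := by
    refine cent_near_cst hw _ _ hη ?_
    intro x x' hx hx' he k
    have he1 : S.P p x.1.1 = S.P p x'.1.1 := congrArg Prod.fst he
    have he2 : S.F t₀ κ (x.1.2, x.2) = S.F t₀ κ (x'.1.2, x'.2) := congrArg Prod.snd he
    obtain ⟨-, -, -, hx4, -⟩ := S.w3_ne_zero hx
    obtain ⟨-, -, -, hx4', -⟩ := S.w3_ne_zero hx'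
    have hb := fl_eq he1 k
    have ha := fl_eq hx4 k
    have ha' := fl_eq hx4' k
    have hF := fl_eq he2 k
    have hmain := path_slice_geo (m := pt (S.A x.1.1) (S.B x.1.1) u k + c * (S.B x.2 k : ℝ))
      (m' := pt (S.A x'.1.1) (S.B x'.1.1) u k + c * (S.B x'.2 k : ℝ)) hη hra hsa
      (hid _ _ _) (hid _ _ _) hb ha ha' hF
    refine (fl_near k hmain).trans ?_
    have i1 : 1 ≤ 1 / η := by rw [le_div_iff₀ hη]; linarith
    have i2 : 1 / η ≤ 1 / η ^ 2 := by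
      rw [div_le_div_iff₀ hη (by positivity)]
      nlinarith
    calc 4 / η + 1 = 4 * (1 / η) + 1 := by ring
      _ ≤ 10 * (1 / η ^ 2) := by linarith
      _ = 10 / η ^ 2 := by ring
  have e1 : ent (S.w3 t₀ t₁) (fun x => (S.P p x.1.1, S.M u c x)) ≤
      ent (S.w3 t₀ t₁) (fun x => (S.M u c x, (S.P p x.1.1, S.F t₀ κ (x.1.2, x.2)))) :=
    ent_mono hw (Det.of (fun x => (S.M u c x, (S.P p x.1.1, S.F t₀ κ (x.1.2, x.2))))
      (fun y => (y.2.1, y.1)))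
  rw [ent_pair_add (fun x => (S.P p x.1.1, S.F t₀ κ (x.1.2, x.2))) (S.M u c)] at e1
  have e2 := ent_pair_le hw (fun x => S.P p x.1.1) (fun x => S.F t₀ κ (x.1.2, x.2))
  rw [S.ent_w3_1 t₀ t₁ (S.P p), S.ent_w3_23 t₀ t₁ (S.F t₀ κ)] at e2
  unfold LS.sig LS.H
  linarith

end Pool.Agent.MPac5134.KH.LS
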