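import Pool.Agent.Lib.MP_ac5134_an.KH.Defs

/-!
# KH-RelA: existence of the parameter `c`, multiplicity of `z`, monotonicity of the good sets

PROOF of `exists_c`: `c₀ = (z - t₀)(q - t₁)(p - u)/((z - t₁)(p - t₀))`, `θ³ N ≤ |c₀| ≤ N/θ²`; take
`c = ⌊c₀⌋`.  Then `(z - t₀)(q - t₁)/(z - t₁) - c (p - t₀)/(p - u) = (c₀ - c)(p - t₀)/(p - u)`, which is at
most `1/θ`.

PROOF of `mult_z`: with `κ z = (z - t₀)(q - t₁)/(z - t₁)`,
`κ z - κ z' = (q - t₁)(t₁ - t₀)(z' - z)/((z - t₁)(z' - t₁))`, so `|κ z - κ z'| ≥ η² |z - z'|`, and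
`|κ z - κ z'| ≤ 2/η` for `z, z' ∈ Z`.  So `Z` lies in an interval of length `2/η³`.
-/

open Finset

namespace Pool.Agent.MPac5134.KH

theorem exists_c {N : ℕ} {θ : ℝ} (h0 : 0 < θ) (h1 : θ ≤ 1) (hN : 2 / θ ^ 3 ≤ N)
    {t₀ u t₁ p q z : ℕ} (a0 : t₀ < N) (a1 : u < N) (a2 : t₁ < N) (a3 : p < N) (a4 : q < N)
    (a5 : z < N) (b1 : sep N θ z t₀) (b2 : sep N θ z t₁) (b3 : sep N θ q t₁) (b4 : sep N θ p t₀)
    (b5 : sep N θ p u) :
    ∃ c ∈ cr N θ, θ ^ 3 / 2 * N ≤ |(c : ℝ)| ∧ Rel θ t₀ u t₁ c p q z := by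
  have hNpos : 0 < (N : ℝ) := by exact_mod_cast (lt_of_le_of_lt (Nat.zero_le _) a0)
  have hab : ∀ {x y : ℕ}, x < N → y < N → |(x : ℝ) - y| ≤ N := by
    intro x y hx hy
    have hx' : (x : ℝ) < N := by exact_mod_cast hx
    have hy' : (y : ℝ) < N := by exact_mod_cast hy
    have hx0 : (0 : ℝ) ≤ x := Nat.cast_nonneg x
    have hy0 : (0 : ℝ) ≤ y := Nat.cast_nonneg y
    rw [abs_le]; constructor <;> linarith
  have hθN : 0 < θ * N := mul_pos h0 hNpos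
  unfold sep at b1 b2 b3 b4 b5
  have p1 : 0 < |(z : ℝ) - t₀| := lt_of_lt_of_le hθN b1
  have p2 : 0 < |(z : ℝ) - t₁| := lt_of_lt_of_le hθN b2
  have p3 : 0 < |(q : ℝ) - t₁| := lt_of_lt_of_le hθN b3
  have p4 : 0 < |(p : ℝ) - t₀| := lt_of_lt_of_le hθN b4
  have p5 : 0 < |(p : ℝ) - u| := lt_of_lt_of_le hθN b5
  have n2 : (z : ℝ) - t₁ ≠ 0 := abs_pos.mp p2
  have n4 : (p : ℝ) - t₀ ≠ 0 := abs_pos.mp p4
  have n5 : (p : ℝ) - u ≠ 0 := abs_pos.mp p5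
  set c₀ : ℝ := ((z : ℝ) - t₀) * (q - t₁) * (p - u) / ((z - t₁) * (p - t₀)) with hc₀
  have habs : |c₀| = |(z : ℝ) - t₀| * |(q : ℝ) - t₁| * |(p : ℝ) - u| /
      (|(z : ℝ) - t₁| * |(p : ℝ) - t₀|) := by
    rw [hc₀, abs_div, abs_mul, abs_mul, abs_mul]
  have hden : 0 < |(z : ℝ) - t₁| * |(p : ℝ) - t₀| := mul_pos p2 p4
  have hup : |c₀| ≤ N / θ ^ 2 := by
    rw [habs, div_le_div_iff₀ hden (by positivity)]
    have e1 : |(z : ℝ) - t₀| * |(q : ℝ) - t₁| * |(p : ℝ) - u| ≤ N * N * N := by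
      gcongr
      · exact hab a5 a0
      · exact hab a4 a2
      · exact hab a3 a1
    have e2 : (θ * N) * (θ * N) ≤ |(z : ℝ) - t₁| * |(p : ℝ) - t₀| := by gcongr
    calc |(z : ℝ) - t₀| * |(q : ℝ) - t₁| * |(p : ℝ) - u| * θ ^ 2
        ≤ N * N * N * θ ^ 2 := by gcongr
      _ = N * ((θ * N) * (θ * N)) := by ring
      _ ≤ N * (|(z : ℝ) - t₁| * |(p : ℝ) - t₀|) := by gcongr
  have hlo : θ ^ 3 * N ≤ |c₀| := by
    rw [habs, le_div_iff₀ hden]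
    have e1 : (θ * N) * (θ * N) * (θ * N) ≤ |(z : ℝ) - t₀| * |(q : ℝ) - t₁| * |(p : ℝ) - u| := by
      gcongr
    have e2 : |(z : ℝ) - t₁| * |(p : ℝ) - t₀| ≤ N * N := by
      gcongr
      · exact hab a5 a2
      · exact hab a3 a0
    calc θ ^ 3 * N * (|(z : ℝ) - t₁| * |(p : ℝ) - t₀|) ≤ θ ^ 3 * N * (N * N) := by gcongr
      _ = (θ * N) * (θ * N) * (θ * N) := by ring
      _ ≤ _ := e1
  have hf1 : (⌊c₀⌋ : ℝ) ≤ c₀ := Int.floor_le c₀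
  have hf2 : c₀ < ⌊c₀⌋ + 1 := Int.lt_floor_add_one c₀
  have hup' := abs_le.mp hup
  have hceil : (N : ℝ) / θ ^ 2 ≤ ⌈(N : ℝ) / θ ^ 2⌉ := Int.le_ceil _
  refine ⟨⌊c₀⌋, ?_, ?_, ?_⟩
  · unfold cr
    rw [Finset.mem_Icc]
    constructor
    · apply Int.le_floor.mpr
      push_cast
      linarith [hup'.1]
    · have : (⌊c₀⌋ : ℝ) ≤ (⌈(N : ℝ) / θ ^ 2⌉ : ℤ) := by linarith [hup'.2]
      exact_mod_cast this
  · have hθ3 : 1 ≤ θ ^ 3 / 2 * N := by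
      have h3 : 0 < θ ^ 3 := by positivity
      rw [div_le_iff₀ h3] at hN
      linarith
    have e : |c₀| ≤ |(⌊c₀⌋ : ℝ)| + 1 := by
      have h5 : |c₀ - (⌊c₀⌋ : ℝ)| ≤ 1 := by
        rw [abs_le]; constructor <;> linarith
      calc |c₀| = |(⌊c₀⌋ : ℝ) + (c₀ - ⌊c₀⌋)| := by ring_nf
        _ ≤ |(⌊c₀⌋ : ℝ)| + |c₀ - ⌊c₀⌋| := abs_add_le _ _
        _ ≤ _ := by linarith
    linarith
  · unfold Rel
    have key : ((z : ℝ) - t₀) * (q - t₁) / (z - t₁) - (⌊c₀⌋ : ℝ) * (p - t₀) / (p - u)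
        = (c₀ - ⌊c₀⌋) * ((p - t₀) / (p - u)) := by
      have : ((z : ℝ) - t₀) * (q - t₁) / (z - t₁) = c₀ * ((p - t₀) / (p - u)) := by
        rw [hc₀]
        field_simp
      rw [this]
      ring
    rw [key, abs_mul, abs_div]
    have h5 : |c₀ - (⌊c₀⌋ : ℝ)| ≤ 1 := by
      rw [abs_le]; constructor <;> linarith
    have h6 : |(p : ℝ) - t₀| / |(p : ℝ) - u| ≤ 1 / θ := by
      rw [div_le_div_iff₀ p5 h0]
      calc |(p : ℝ) - t₀| * θ ≤ N * θ := by gcongr; exact hab a3 a0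
        _ = θ * N := by ring
        _ ≤ |(p : ℝ) - u| := b5
        _ = 1 * |(p : ℝ) - u| := by ring
    calc |c₀ - (⌊c₀⌋ : ℝ)| * (|(p : ℝ) - t₀| / |(p : ℝ) - u|) ≤ 1 * (1 / θ) := by
          gcongr
      _ = 1 / θ := by ring

theorem mult_z {N : ℕ} {η : ℝ} (h0 : 0 < η) (h1 : η ≤ 1) {t₀ u t₁ p q : ℕ} {c : ℝ} (a2 : t₁ < N)
    (b1 : sep N η q t₁) (b2 : sep N η t₀ t₁) (Z : Finset ℕ)
    (hZ : ∀ z ∈ Z, z < N ∧ sep N η z t₁ ∧ Rel η t₀ u t₁ c p q z) : (Z.card : ℝ) ≤ 3 / η ^ 3 := by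
  have hNpos : 0 < (N : ℝ) := by exact_mod_cast (lt_of_le_of_lt (Nat.zero_le _) a2)
  have hηN : 0 < η * N := mul_pos h0 hNpos
  unfold sep at b1 b2
  have hη3 : 0 < η ^ 3 := by positivity
  have key : ∀ z ∈ Z, ∀ z' ∈ Z, |(z : ℝ) - z'| ≤ 2 / η ^ 3 := by
    intro z hz z' hz'
    obtain ⟨h1z, h2z, h3z⟩ := hZ z hz
    obtain ⟨h1z', h2z', h3z'⟩ := hZ z' hz'
    unfold sep at h2z h2z'
    unfold Rel at h3z h3z'
    have hab : ∀ {x y : ℕ}, x < N → y < N → |(x : ℝ) - y| ≤ N := by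
      intro x y hx hy
      have hx' : (x : ℝ) < N := by exact_mod_cast hx
      have hy' : (y : ℝ) < N := by exact_mod_cast hy
      have hx0 : (0 : ℝ) ≤ x := Nat.cast_nonneg x
      have hy0 : (0 : ℝ) ≤ y := Nat.cast_nonneg y
      rw [abs_le]; constructor <;> linarith
    have p1 : 0 < |(z : ℝ) - t₁| := lt_of_lt_of_le hηN h2z
    have p2 : 0 < |(z' : ℝ) - t₁| := lt_of_lt_of_le hηN h2z'
    have n1 : (z : ℝ) - t₁ ≠ 0 := abs_pos.mp p1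
    have n2 : (z' : ℝ) - t₁ ≠ 0 := abs_pos.mp p2
    have e1 : ((z : ℝ) - t₀) * (q - t₁) / (z - t₁) - ((z' : ℝ) - t₀) * (q - t₁) / (z' - t₁)
        = (q - t₁) * (t₀ - t₁) * (z - z') / ((z - t₁) * (z' - t₁)) := by
      field_simp
      ring
    have e2 : |((z : ℝ) - t₀) * (q - t₁) / (z - t₁) - ((z' : ℝ) - t₀) * (q - t₁) / (z' - t₁)|
        ≤ 2 / η := by
      have := abs_sub_le (((z : ℝ) - t₀) * (q - t₁) / (z - t₁)) (c * (p - t₀) / (p - u))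
        (((z' : ℝ) - t₀) * (q - t₁) / (z' - t₁))
      rw [abs_sub_comm (c * ((p : ℝ) - t₀) / (p - u))] at this
      calc _ ≤ 1 / η + 1 / η := by linarith
        _ = 2 / η := by ring
    rw [e1, abs_div, abs_mul, abs_mul, abs_mul, div_le_div_iff₀ (mul_pos p1 p2) h0] at e2
    have e3 : |(z : ℝ) - t₁| * |(z' : ℝ) - t₁| ≤ N * N := by
      gcongr
      · exact hab h1z a2
      · exact hab h1z' a2
    have e4 : (η * N) * (η * N) ≤ |(q : ℝ) - t₁| * |(t₀ : ℝ) - t₁| := by gcongr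
    have e5 : (η * N) * (η * N) * |(z : ℝ) - z'| * η ≤ 2 * (N * N) := by
      calc (η * N) * (η * N) * |(z : ℝ) - z'| * η
          ≤ |(q : ℝ) - t₁| * |(t₀ : ℝ) - t₁| * |(z : ℝ) - z'| * η := by gcongr
        _ ≤ 2 * (|(z : ℝ) - t₁| * |(z' : ℝ) - t₁|) := e2
        _ ≤ 2 * (N * N) := by gcongr
    have e6 : (N * N : ℝ) * (|(z : ℝ) - z'| * η ^ 3) ≤ (N * N) * 2 := by
      calc (N * N : ℝ) * (|(z : ℝ) - z'| * η ^ 3) = (η * N) * (η * N) * |(z : ℝ) - z'| * η := by ring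
        _ ≤ 2 * (N * N) := e5
        _ = (N * N) * 2 := by ring
    have e7 := le_of_mul_le_mul_left e6 (mul_pos hNpos hNpos)
    rw [le_div_iff₀ hη3]
    exact e7
  rcases Z.eq_empty_or_nonempty with h | h
  · rw [h]; simp only [card_empty, Nat.cast_zero]; positivity
  · obtain ⟨m, hm, hmin⟩ := Z.exists_min_image id h
    have hsub : Z ⊆ Finset.Icc m (m + ⌊2 / η ^ 3⌋₊) := by
      intro z hz
      rw [Finset.mem_Icc]
      have hmz : m ≤ z := hmin z hz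
      refine ⟨hmz, ?_⟩
      have := key z hz m hm
      have h7 : (z : ℝ) - m ≤ 2 / η ^ 3 := le_trans (le_abs_self _) this
      have h8 : ((z - m : ℕ) : ℝ) ≤ 2 / η ^ 3 := by
        rw [Nat.cast_sub hmz]; exact h7
      have h9 : z - m ≤ ⌊2 / η ^ 3⌋₊ := Nat.le_floor h8
      omega
    have hcard : Z.card ≤ ⌊2 / η ^ 3⌋₊ + 1 := by
      calc Z.card ≤ (Finset.Icc m (m + ⌊2 / η ^ 3⌋₊)).card := Finset.card_le_card hsub
        _ = ⌊2 / η ^ 3⌋₊ + 1 := by rw [Nat.card_Icc]; omega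
    have hfl : (⌊2 / η ^ 3⌋₊ : ℝ) ≤ 2 / η ^ 3 := Nat.floor_le (by positivity)
    have hone : 1 ≤ 1 / η ^ 3 := by
      rw [le_div_iff₀ hη3, one_mul]
      exact pow_le_one₀ h0.le h1
    calc (Z.card : ℝ) ≤ (⌊2 / η ^ 3⌋₊ : ℝ) + 1 := by exact_mod_cast hcard
      _ ≤ 2 / η ^ 3 + 1 / η ^ 3 := by linarith
      _ = 3 / η ^ 3 := by ring

theorem sep.mono {N : ℕ} {η η' : ℝ} {a b : ℕ} (h : sep N η a b) (hη : η' ≤ η) : sep N η' a b := by
  unfold sep at *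
  exact le_trans (mul_le_mul_of_nonneg_right hη (Nat.cast_nonneg N)) h

theorem Rel.mono {η η' : ℝ} (h0 : 0 < η') (hη : η' ≤ η) {t₀ u t₁ p q z : ℕ} {c : ℝ}
    (h : Rel η t₀ u t₁ c p q z) : Rel η' t₀ u t₁ c p q z := by
  unfold Rel at *
  exact le_trans h (one_div_le_one_div_of_le h0 hη)

theorem cr_mono {N : ℕ} {η η' : ℝ} (h0 : 0 < η') (hη : η' ≤ η) : cr N η ⊆ cr N η' := by
  unfold cr
  have h : ⌈(N : ℝ) / η ^ 2⌉ ≤ ⌈(N : ℝ) / η' ^ 2⌉ := by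
    apply Int.ceil_le_ceil
    gcongr
  apply Finset.Icc_subset_Icc
  · omega
  · exact h

theorem card_cr {N : ℕ} {η : ℝ} (h0 : 0 < η) (h1 : η ≤ 1) (hN : 1 ≤ N) :
    ((cr N η).card : ℝ) ≤ 5 * N / η ^ 2 := by
  unfold cr
  have hη2 : 0 < η ^ 2 := by positivity
  have hN' : (1 : ℝ) ≤ N := by exact_mod_cast hN
  have hq : 1 ≤ (N : ℝ) / η ^ 2 := by
    rw [le_div_iff₀ hη2, one_mul]
    exact le_trans (pow_le_one₀ h0.le h1) hN'
  have hc0 : 0 ≤ ⌈(N : ℝ) / η ^ 2⌉ := Int.ceil_nonneg (by positivity)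
  have hc1 : (⌈(N : ℝ) / η ^ 2⌉ : ℝ) < N / η ^ 2 + 1 := Int.ceil_lt_add_one _
  rw [Int.card_Icc]
  have e : (((⌈(N : ℝ) / η ^ 2⌉ + 1 - -⌈(N : ℝ) / η ^ 2⌉).toNat : ℕ) : ℝ)
      = 2 * (⌈(N : ℝ) / η ^ 2⌉ : ℝ) + 1 := by
    have e1 : (((⌈(N : ℝ) / η ^ 2⌉ + 1 - -⌈(N : ℝ) / η ^ 2⌉).toNat : ℕ) : ℤ)
        = 2 * ⌈(N : ℝ) / η ^ 2⌉ + 1 := by
      rw [Int.toNat_of_nonneg (by omega)]; ring
    have e2 : ((((⌈(N : ℝ) / η ^ 2⌉ + 1 - -⌈(N : ℝ) / η ^ 2⌉).toNat : ℕ) : ℤ) : ℝ)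
        = ((2 * ⌈(N : ℝ) / η ^ 2⌉ + 1 : ℤ) : ℝ) := by rw [e1]
    push_cast at e2
    rw [← e2]
  rw [e]
  have : 5 * (N : ℝ) / η ^ 2 = 5 * (N / η ^ 2) := by ring
  rw [this]
  linarith

theorem GG.mem {N : ℕ} {η : ℝ} {A : Finset ℕ} {n t₀ u t₁ : ℕ} (h : GG N η A n t₀ u t₁) :
    t₀ ∈ A ∧ u ∈ A ∧ t₁ ∈ A := by
  cases n with
  | zero => exact h
  | succ n => exact h.1

theorem GG.mono {N : ℕ} {η η' : ℝ} (h0 : 0 < η') (hη : η' ≤ η) {A : Finset ℕ} {n : ℕ} :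
    ∀ {t₀ u t₁ : ℕ}, GG N η A n t₀ u t₁ → GG N η' A n t₀ u t₁ := by
  classical
  induction n with
  | zero => intro t₀ u t₁ h; exact h
  | succ n ih =>
    intro t₀ u t₁ h
    have hN : η' * (N : ℝ) ≤ η * N := mul_le_mul_of_nonneg_right hη (Nat.cast_nonneg N)
    obtain ⟨hm, hs1, hs2, hc⟩ := h
    refine ⟨hm, hs1.mono hη, hs2.mono hη, ?_⟩
    refine le_trans hN (le_trans hc ?_)
    have : ∀ {a b : ℕ}, a ≤ b → (a : ℝ) ≤ b := fun h => by exact_mod_cast h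
    apply this
    apply Finset.card_le_card
    intro c hc
    rw [Finset.mem_filter] at hc ⊢
    obtain ⟨hc1, hc2, hc3⟩ := hc
    refine ⟨by
      first
        | exact cr_mono h0 hη hc1
        | (simp only [Finset.bind_def, Finset.mem_sup, Finset.pure_def, Finset.mem_singleton] at hc1 ⊢
           obtain ⟨v, hv1, hv2⟩ := hc1
           exact ⟨v, cr_mono h0 hη hv1, hv2⟩), le_trans hN hc2, ?_⟩
    refine le_trans hN (le_trans hc3 ?_)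
    apply this
    apply Finset.card_le_card
    intro p hp
    rw [Finset.mem_filter] at hp ⊢
    obtain ⟨hp1, hp2, hp3, hp4⟩ := hp
    refine ⟨hp1, hp2.mono hη, hp3.mono hη, ?_⟩
    refine le_trans hN (le_trans hp4 ?_)
    apply this
    apply Finset.card_le_card
    intro q hq
    rw [Finset.mem_filter] at hq ⊢
    obtain ⟨hq1, hq2, z, hz, hz1, hz2, hz3, hz4⟩ := hq
    exact ⟨hq1, hq2.mono hη, z, hz, hz1.mono hη, hz2.mono hη, hz3.mono h0 hη, ih hz4⟩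

/-- few points near a given one -/
theorem card_near {N : ℕ} {θ : ℝ} (h0 : 0 ≤ θ) (a : ℕ) (S : Finset ℕ)
    (hS : ∀ x ∈ S, ¬ sep N θ x a) : (S.card : ℝ) ≤ 2 * θ * N + 1 := by
  rcases S.eq_empty_or_nonempty with h | h
  · rw [h]; simp only [card_empty, Nat.cast_zero]; positivity
  · obtain ⟨y, hy⟩ := h
    have hr : 0 < θ * N := by
      have := hS y hy
      unfold sep at this
      push Not at this
      exact lt_of_le_of_lt (abs_nonneg _) this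
    have hm0 : 0 < ⌈θ * (N : ℝ)⌉ := Int.ceil_pos.mpr hr
    have hc1 : (⌈θ * (N : ℝ)⌉ : ℝ) < θ * N + 1 := Int.ceil_lt_add_one _
    have hinj : Function.Injective (fun x : ℕ => (x : ℤ)) := fun x y h => Int.ofNat.inj h
    have hsub : S.image (fun x : ℕ => (x : ℤ)) ⊆
        Finset.Icc ((a : ℤ) - (⌈θ * (N : ℝ)⌉ - 1)) ((a : ℤ) + (⌈θ * (N : ℝ)⌉ - 1)) := by
      intro x' hx'
      rw [Finset.mem_image] at hx'
      obtain ⟨x, hx, rfl⟩ := hx'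
      have := hS x hx
      unfold sep at this
      push Not at this
      have h1 : |((x : ℤ) - (a : ℤ) : ℤ)| < ⌈θ * (N : ℝ)⌉ := by
        apply Int.lt_ceil.mpr
        push_cast
        exact this
      have h2 := abs_lt.mp h1
      rw [Finset.mem_Icc]
      constructor <;> omega
    have hcard : (S.card : ℤ) ≤ 2 * ⌈θ * (N : ℝ)⌉ - 1 := by
      have h3 := Finset.card_le_card hsub
      rw [Finset.card_image_of_injective _ hinj, Int.card_Icc] at h3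
      omega
    have hcard' : (S.card : ℝ) ≤ 2 * (⌈θ * (N : ℝ)⌉ : ℝ) - 1 := by exact_mod_cast hcard
    linarith

/-- pigeonhole: if `∑ f ≥ a`, `f ≤ B` and there are at most `K` terms, then `f ≥ a/(2K)` for at least
`a/(2B)` of them -/
theorem pig {X : Type} (S : Finset X) (f : X → ℝ) {a B K : ℝ} (hB : 0 < B) (hK : 0 < K)
    (ha : 0 ≤ a) (hf : ∀ x ∈ S, f x ≤ B) (hS : (S.card : ℝ) ≤ K) (hsum : a ≤ ∑ x ∈ S, f x)
    [DecidablePred fun x => a / (2 * K) ≤ f x] :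
    a / (2 * B) ≤ ((S.filter fun x => a / (2 * K) ≤ f x).card : ℝ) := by
  have h1 : ∑ x ∈ S, f x = ∑ x ∈ S.filter (fun x => a / (2 * K) ≤ f x), f x
      + ∑ x ∈ S.filter (fun x => ¬ a / (2 * K) ≤ f x), f x :=
    (Finset.sum_filter_add_sum_filter_not S _ f).symm
  have h2 : ∑ x ∈ S.filter (fun x => a / (2 * K) ≤ f x), f x
      ≤ ((S.filter fun x => a / (2 * K) ≤ f x).card : ℝ) * B := by
    rw [← nsmul_eq_mul]
    apply Finset.sum_le_card_nsmul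
    intro x hx
    exact hf x (Finset.mem_filter.mp hx).1
  have h3 : ∑ x ∈ S.filter (fun x => ¬ a / (2 * K) ≤ f x), f x ≤ a / 2 := by
    have h4 : ∑ x ∈ S.filter (fun x => ¬ a / (2 * K) ≤ f x), f x
        ≤ ((S.filter fun x => ¬ a / (2 * K) ≤ f x).card : ℝ) * (a / (2 * K)) := by
      rw [← nsmul_eq_mul]
      apply Finset.sum_le_card_nsmul
      intro x hx
      exact (not_le.mp (Finset.mem_filter.mp hx).2).le
    have h5 : ((S.filter fun x => ¬ a / (2 * K) ≤ f x).card : ℝ) ≤ K := by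
      refine le_trans ?_ hS
      exact_mod_cast Finset.card_filter_le _ _
    have h6 : 0 ≤ a / (2 * K) := by positivity
    calc _ ≤ ((S.filter fun x => ¬ a / (2 * K) ≤ f x).card : ℝ) * (a / (2 * K)) := h4
      _ ≤ K * (a / (2 * K)) := by gcongr
      _ = a / 2 := by field_simp
  rw [div_le_iff₀ (by positivity)]
  linarith

end Pool.Agent.MPac5134.KH
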