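import Pool.Agent.Lib.MP_ac5134_an.KH.Defs

/-!
# KH-Rnd: rounding costs

`cent_near`: if the integer vector `f` is determined by `g` up to an error `R`, then
`H(f | g) ≤ d log (2R + 1)`.  PROOF: choose for every value `b` of `g` on the support a representative
`ω_b` (`Classical`), and let `S b` be the finite set of integer vectors `x` with
`|x k - f ω_b k| ≤ R` for all `k`: `Fintype.piFinset fun k => Icc (f ω_b k - ⌊R⌋) (f ω_b k + ⌊R⌋)`, of
cardinality `(2⌊R⌋ + 1)^d ≤ (2R + 1)^d`.  Use `cent_le_log_card` (Ent.lean).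
-/

open RFold Finset

namespace Pool.Agent.MPac5134.KH

/-- if `f` takes its values in a box of side `K` on every class of `g`, then `H(f | g) ≤ b log K` -/
private theorem Rnd_box {Ω : Type*} [Fintype Ω] {γ : Type*} {p : Ω → ℝ} (hp : IsPr p) {b : ℕ}
    (f : Ω → Fin b → ℤ) (g : Ω → γ) (K : ℕ)
    (h : ∀ ω₀, p ω₀ ≠ 0 → ∃ a : Fin b → ℤ, ∀ ω, p ω ≠ 0 → g ω = g ω₀ → ∀ r,
      a r ≤ f ω r ∧ f ω r < a r + K) :
    cent p f g ≤ b * Real.log K := by
  classical
  choose! a ha using h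
  set S : γ → Finset (Fin b → ℤ) := fun c =>
    if hc : ∃ ω₀, p ω₀ ≠ 0 ∧ g ω₀ = c then
      Fintype.piFinset fun r => Finset.Ico (a hc.choose r) (a hc.choose r + K)
    else ∅ with hS
  have hex : ∀ ω, p ω ≠ 0 → ∃ ω₀, p ω₀ ≠ 0 ∧ g ω₀ = g ω := fun ω h0 => ⟨ω, h0, rfl⟩
  have hSv : ∀ ω (h0 : p ω ≠ 0), S (g ω) =
      Fintype.piFinset fun r => Finset.Ico (a (hex ω h0).choose r) (a (hex ω h0).choose r + K) := by
    intro ω h0
    simp only [hS]
    rw [dif_pos (hex ω h0)]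
  have hmem : ∀ ω, p ω ≠ 0 → f ω ∈ S (g ω) := by
    intro ω h0
    rw [hSv ω h0, Fintype.mem_piFinset]
    intro r
    rw [Finset.mem_Ico]
    exact ha _ (hex ω h0).choose_spec.1 ω h0 (hex ω h0).choose_spec.2.symm r
  refine (cent_le_log_card hp f g S hmem).trans ?_
  have h1 : ∀ ω, p ω * Real.log (S (g ω)).card = p ω * (b * Real.log K) := by
    intro ω
    by_cases h0 : p ω = 0
    · rw [h0, zero_mul, zero_mul]
    · congr 1
      rw [hSv ω h0, Fintype.card_piFinset]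
      have h2 : ∀ r : Fin b, (Finset.Ico (a (hex ω h0).choose r)
          (a (hex ω h0).choose r + K)).card = K := by
        intro r
        rw [Int.card_Ico]
        omega
      rw [Finset.prod_congr rfl fun r _ => h2 r, Finset.prod_const, Finset.card_univ,
        Fintype.card_fin, Nat.cast_pow, Real.log_pow]
  rw [Finset.sum_congr rfl fun ω _ => h1 ω, ← Finset.sum_mul, hp.sum_eq, one_mul]

theorem cent_near {d : ℕ} {Ω : Type*} [Fintype Ω] {γ : Type*} {p : Ω → ℝ} (hp : IsPr p)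
    (f : Ω → Fin d → ℤ) (g : Ω → γ) {R : ℝ} (hR : 0 ≤ R)
    (h : ∀ ω ω', p ω ≠ 0 → p ω' ≠ 0 → g ω = g ω' → ∀ k, |(f ω k : ℝ) - f ω' k| ≤ R) :
    cent p f g ≤ d * Real.log (2 * R + 1) := by
  have hK : ((⌊R⌋₊ : ℕ) : ℝ) ≤ R := Nat.floor_le hR
  have h0 : ∀ ω ω', p ω ≠ 0 → p ω' ≠ 0 → g ω = g ω' → ∀ k,
      f ω k ≤ f ω' k + (⌊R⌋₊ : ℕ) := by
    intro ω ω' a b e k
    have h1 := (le_abs_self _).trans (h ω ω' a b e k)
    have h2 : ((f ω k - f ω' k : ℤ) : ℝ) ≤ R := by push_cast; exact h1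
    have h3 : f ω k - f ω' k ≤ ⌊R⌋ := Int.le_floor.mpr h2
    have h4 : ((⌊R⌋₊ : ℕ) : ℤ) = ⌊R⌋ := Int.natCast_floor_eq_floor hR
    omega
  have h1 := Rnd_box hp f g (2 * ⌊R⌋₊ + 1) (fun ω₀ h00 => ⟨fun r => f ω₀ r - (⌊R⌋₊ : ℕ), fun ω hω e r => by
    have h2 := h0 ω ω₀ hω h00 e r
    have h3 := h0 ω₀ ω h00 hω e.symm r
    push_cast
    constructor <;> omega⟩)
  refine h1.trans (mul_le_mul_of_nonneg_left ?_ (Nat.cast_nonneg d))
  apply Real.log_le_log
  · push_cast
    positivity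
  · push_cast
    linarith

/-- the same with the uniform constant -/
theorem cent_near_cst {d : ℕ} {Ω : Type*} [Fintype Ω] {γ : Type*} {p : Ω → ℝ} (hp : IsPr p)
    (f : Ω → Fin d → ℤ) (g : Ω → γ) {η : ℝ} (hη : 0 < η)
    (h : ∀ ω ω', p ω ≠ 0 → p ω' ≠ 0 → g ω = g ω' →
      ∀ k, |(f ω k : ℝ) - f ω' k| ≤ 10 / η ^ 2) :
    cent p f g ≤ cst d η := by
  have h1 := cent_near hp f g (R := 10 / η ^ 2) (by positivity) h
  have h2 : 2 * (10 / η ^ 2) + 1 = 20 / η ^ 2 + 1 := by ring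
  rw [h2] at h1
  exact h1

theorem cst_nonneg (d : ℕ) {η : ℝ} (hη : 0 < η) : 0 ≤ cst d η := by
  unfold cst
  refine mul_nonneg (Nat.cast_nonneg d) (Real.log_nonneg ?_)
  have : 0 ≤ 20 / η ^ 2 := by positivity
  linarith

/-- `cst d η ≤ d (4 + 2 log (1/η))` for `0 < η ≤ 1` -/
theorem cst_le (d : ℕ) {η : ℝ} (hη : 0 < η) (h1 : η ≤ 1) :
    cst d η ≤ d * (4 + 2 * Real.log (1 / η)) := by
  unfold cst
  refine mul_le_mul_of_nonneg_left ?_ (Nat.cast_nonneg d)
  have h2 : 20 / η ^ 2 + 1 ≤ 21 / η ^ 2 := by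
    have h3 : 1 ≤ 1 / η ^ 2 := by
      rw [le_div_iff₀ (by positivity)]
      nlinarith
    have h4 : 21 / η ^ 2 = 20 / η ^ 2 + 1 / η ^ 2 := by ring
    linarith
  have h5 : Real.log 21 ≤ 4 := by
    have h6 : (21 : ℝ) ≤ Real.exp 4 := by
      have h7 : Real.exp 4 = Real.exp 1 ^ 4 := by
        rw [← Real.exp_nat_mul]
        norm_num
      rw [h7]
      have h8 : (2.7 : ℝ) ≤ Real.exp 1 := by
        have := Real.exp_one_gt_d9
        linarith
      calc (21 : ℝ) ≤ 2.7 ^ 4 := by norm_num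
        _ ≤ Real.exp 1 ^ 4 := pow_le_pow_left₀ (by norm_num) h8 4
    calc Real.log 21 ≤ Real.log (Real.exp 4) := Real.log_le_log (by norm_num) h6
      _ = 4 := Real.log_exp 4
  calc Real.log (20 / η ^ 2 + 1) ≤ Real.log (21 / η ^ 2) := Real.log_le_log (by positivity) h2
    _ = Real.log 21 + 2 * Real.log (1 / η) := by
      rw [Real.log_div (by norm_num) (by positivity), Real.log_pow, one_div, Real.log_inv]
      push_cast
      ring
    _ ≤ 4 + 2 * Real.log (1 / η) := by linarith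

/-- equal floors: the difference of the points is at most `1` -/
theorem fl_eq {d : ℕ} {x y : Fin d → ℝ} (h : fl x = fl y) (k : Fin d) : |x k - y k| ≤ 1 :=
  (Int.abs_sub_lt_one_of_floor_eq_floor (congrFun h k)).le

/-- the floors of points at distance at most `r` -/
theorem fl_near {d : ℕ} {x y : Fin d → ℝ} {r : ℝ} (k : Fin d) (h : |x k - y k| ≤ r) :
    |(fl x k : ℝ) - fl y k| ≤ r + 1 := by
  unfold fl
  have h1 := Int.floor_le (x k)
  have h2 := (Int.lt_floor_add_one (x k)).le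
  have h3 := Int.floor_le (y k)
  have h4 := (Int.lt_floor_add_one (y k)).le
  rw [abs_le] at h ⊢
  constructor <;> linarith [h.1, h.2]

/-- the line is determined by the direction and one cell -/
theorem A_of {d : ℕ} {a b a' b' : Fin d → ℤ} {t : ℝ} (hb : b = b')
    (h : fl (pt a b t) = fl (pt a' b' t)) : a = a' := by
  subst hb
  funext k
  have h1 := congrFun h k
  unfold fl pt at h1
  rw [Int.floor_intCast_add, Int.floor_intCast_add] at h1
  exact add_right_cancel h1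

/-- change of the height: `pt a b t - pt a b u = (t - u) b` -/
theorem pt_sub {d : ℕ} (a b : Fin d → ℤ) (t u : ℝ) (k : Fin d) :
    pt a b t k - pt a b u k = (t - u) * b k := by
  unfold pt
  ring

section Triangle

variable {Ω : Type*} [Fintype Ω] {α β γ : Type*} {p : Ω → ℝ}

/-- `H(g) ≤ H(f) + H(g | f)` -/
theorem ent_le_add (hp : IsPr p) (f : Ω → α) (g : Ω → β) : ent p g ≤ ent p f + cent p g f := by
  have h1 := ent_mono hp (f := fun ω => (g ω, f ω)) (g := g) (Det.fst (Det.refl g))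
  unfold cent
  linarith

/-- `H(h | f) ≤ H(g | f) + H(h | g)` -/
theorem cent_tri (hp : IsPr p) (f : Ω → α) (g : Ω → β) (h : Ω → γ) :
    cent p h f ≤ cent p g f + cent p h g := by
  have h1 := ent_submod' hp (A := fun ω => (g ω, f ω)) (B := fun ω => (h ω, g ω))
    (J := fun ω => (h ω, f ω)) (M := g)
    (Det.pair (Det.snd (Det.fst (Det.refl h))) (Det.fst (Det.snd (Det.refl f))))
    (Det.fst (Det.refl g)) (Det.snd (Det.refl g))
  unfold cent
  linarith

/-- `H(f, g) ≤ H(f) + H(g | f)`, an equality -/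
theorem ent_pair_add (f : Ω → α) (g : Ω → β) :
    ent p (fun ω => (g ω, f ω)) = ent p f + cent p g f := by
  unfold cent
  ring

/-- `H((g, h) | f) ≤ H(g | f) + H(h | (g, f))` -/
theorem cent_pair_le (hp : IsPr p) (f : Ω → α) (g : Ω → β) (h : Ω → γ) :
    cent p (fun ω => (g ω, h ω)) f ≤ cent p g f + cent p h (fun ω => (g ω, f ω)) :=
  (cent_chain hp g h f).le

end Triangle

end Pool.Agent.MPac5134.KH
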