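import Pool.Agent.Lib.MP_ac5134_an.KH.SelZ
import Pool.Agent.Lib.MP_ac5134_an.KH.Lad
import Pool.Agent.Lib.MP_ac5134_an.KH.Cond

/-!
# KH-Sel: selection of a common tree of heights

PROOF.  `k₀, C₀` from `Flex d α`.  Induction on `n`.  `n = 0`: `H = {t₀, u, t₁}`, `J = I`.
`n + 1`: `pop_c` gives `c`, `J₁` (loss `η³/5`).  `Flex` with `lam = η` for the sets
`(A i).filter (GP .. c)`, `i ∈ J₁`, gives `P`, `J₂` (loss `(η/2)^C₀`), `RI P` with `C₀ (1 + log (1/η))`.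
`sep N η p t₀`, `sep N η p u` for `p ∈ P` as `J₂` is nonempty.
`seq_sel` with `T = P`, `I = J₂` and
`Φ p J = ∃ Q Hp, (∀ i ∈ J, Hp ⊆ A i) ∧ Hp.card ≤ k' ∧ Q ⊆ Hp ∧ RI Q ∧ ∀ q ∈ Q, ∃ z ∈ Hp, sep q t₁ ∧ sep z t₁ ∧
sep z t₀ ∧ Rel .. ∧ Tree .. Hp n t₁ z q`: for `J ⊆ J₂` nonempty apply `Flex` to `(A i).filter (GQ .. c p)`,
`i ∈ J` (its card is `≥ η N` since `p ∈ P ⊆ {GP}`), giving `Q`, `J'`; then `seq_sel` with `T = Q` and
`Ψ q J = ∃ z Hq, (∀ i ∈ J, Hq ⊆ A i) ∧ Hq.card ≤ k_n ∧ z ∈ Hq ∧ q ∈ Hq ∧ ... ∧ Tree .. Hq n t₁ z q`, by `pop_z`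
and the induction hypothesis for the triple `(t₁, z, q)` (`Hq = H_child ∪ {z, q}`).  `Hp` is the union of
the `Hq` over `q ∈ Q` (`Finset.biUnion` of chosen sets), `k' = k₀ (k_n + 2)`.  At the end
`H = {t₀, u, t₁} ∪ P ∪ ⋃ Hp`, at most `3 + k₀ + k₀ k'` elements, and `Tree.mono` (in `H`, and in the constant by
`RI.mono`).  All losses are of the form `(η/2)^C` (`η³/5 ≥ (η/2)^3 ≥ ...`), the number of steps is bounded
by `k₀`, `k₀²`.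
-/

open Finset

namespace Pool.Agent.MPac5134.KH

private theorem sel_pos {ι : Type} {J J' : Finset ι} {δ : ℝ} (hδ : 0 < δ) (hJ : J.Nonempty)
    (h : δ * J.card ≤ J'.card) : J'.Nonempty := by
  rw [← Finset.card_pos]
  have h1 : (0 : ℝ) < J.card := by exact_mod_cast hJ.card_pos
  have h2 : (0 : ℝ) < J'.card := (mul_pos hδ h1).trans_le h
  exact_mod_cast h2

/-- the step for one height `q` -/
private theorem sel_q {d n kn Cn : ℕ} {α : ℝ}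
    (ih : ∀ (N : ℕ) (η : ℝ) (ι : Type)
      (I : Finset ι) (A : ι → Finset ℕ) (t₀ u t₁ : ℕ), 1 ≤ N → 0 < η → η ≤ 1 → I.Nonempty →
      (∀ i ∈ I, A i ⊆ range N) → (∀ i ∈ I, GG N η (A i) n t₀ u t₁) →
      ∃ (H : Finset ℕ) (J : Finset ι), J ⊆ I ∧ (η / 2) ^ Cn * I.card ≤ J.card ∧ H.card ≤ kn ∧
        (∀ i ∈ J, H ⊆ A i) ∧ Tree d N α (Cn * (1 + Real.log (1 / η))) η H n t₀ u t₁)
    {N : ℕ} {η : ℝ} {ι : Type} {A : ι → Finset ℕ} {t₀ u t₁ : ℕ} (hN : 1 ≤ N) (h0 : 0 < η)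
    (h1 : η ≤ 1) {J : Finset ι} (hJ : J.Nonempty) (hA : ∀ i ∈ J, A i ⊆ range N) (a2 : t₁ < N)
    (b2 : sep N η t₀ t₁) {c : ℤ} {p q : ℕ} (hq : ∀ i ∈ J, q ∈ A i)
    (h : ∀ i ∈ J, GQ N η (A i) n t₀ u t₁ c p q) :
    ∃ J' ⊆ J, (η / 2) ^ (Cn + 3) * J.card ≤ J'.card ∧
      ∃ (z : ℕ) (Hq : Finset ℕ), (∀ i ∈ J', Hq ⊆ A i) ∧ Hq.card ≤ kn + 2 ∧ z ∈ Hq ∧ q ∈ Hq ∧
        sep N η q t₁ ∧ sep N η z t₁ ∧ sep N η z t₀ ∧ Rel η t₀ u t₁ c p q z ∧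
        Tree d N α (Cn * (1 + Real.log (1 / η))) η Hq n t₁ z q := by
  classical
  obtain ⟨z, J1, hJ1, hc1, hz1, hz2, hrel, hz3⟩ := pop_z h0 h1 J hJ A hA a2 b2 h
  have hJ1n : J1.Nonempty := sel_pos (by positivity) hJ hc1
  obtain ⟨Hc, J2, hJ2, hc2, hk, hH, hT⟩ := ih N η ι J1 A t₁ z q hN h0 h1 hJ1n
    (fun i hi => hA i (hJ1 hi)) (fun i hi => (hz3 i hi).2)
  refine ⟨J2, hJ2.trans hJ1, ?_, z, insert z (insert q Hc), ?_, ?_, ?_, ?_, ?_, hz1, hz2, hrel, ?_⟩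
  · have h3 : (η / 2) ^ (Cn + 3) * J.card ≤ (η / 2) ^ Cn * (η ^ 3 / 3 * J.card) := by
      rw [pow_add, mul_assoc]
      have h4 : (η / 2) ^ 3 ≤ η ^ 3 / 3 := by
        rw [div_pow]
        have := pow_pos h0 3
        linarith
      have h5 : (0 : ℝ) ≤ J.card := by positivity
      gcongr
    refine h3.trans (le_trans ?_ hc2)
    gcongr
  · intro i hi
    refine Finset.insert_subset (hz3 i (hJ2 hi)).1
      (Finset.insert_subset (hq i (hJ1 (hJ2 hi))) (hH i hi))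
  · refine (Finset.card_insert_le _ _).trans ?_
    have := Finset.card_insert_le q Hc
    omega
  · exact Finset.mem_insert_self _ _
  · exact Finset.mem_insert_of_mem (Finset.mem_insert_self _ _)
  · obtain ⟨i, hi⟩ := hJ
    exact (h i hi).1
  · exact Tree.mono ((Finset.subset_insert _ _).trans (Finset.subset_insert _ _))
      (fun _ h => h) hT

open Classical in
/-- the step for one height `p` -/
private theorem sel_p {d n kn Cn k₀ C₀ C' : ℕ} {α : ℝ} (hC0 : C₀ ≤ C') (hCn : Cn ≤ C')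
    (hFx : ∀ (N : ℕ) (lam : ℝ) (ι : Type) (I : Finset ι) (A : ι → Finset ℕ), 1 ≤ N → 0 < lam →
      lam ≤ 1 → I.Nonempty → (∀ i ∈ I, A i ⊆ range N) → (∀ i ∈ I, lam * N ≤ (A i).card) →
      ∃ (F : Finset ℕ) (J : Finset ι), J ⊆ I ∧ (lam / 2) ^ C₀ * I.card ≤ J.card ∧ F.card ≤ k₀ ∧
        (∀ i ∈ J, F ⊆ A i) ∧ RI d N α (C₀ * (1 + Real.log (1 / lam))) F)
    (ih : ∀ (N : ℕ) (η : ℝ) (ι : Type)
      (I : Finset ι) (A : ι → Finset ℕ) (t₀ u t₁ : ℕ), 1 ≤ N → 0 < η → η ≤ 1 → I.Nonempty →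
      (∀ i ∈ I, A i ⊆ range N) → (∀ i ∈ I, GG N η (A i) n t₀ u t₁) →
      ∃ (H : Finset ℕ) (J : Finset ι), J ⊆ I ∧ (η / 2) ^ Cn * I.card ≤ J.card ∧ H.card ≤ kn ∧
        (∀ i ∈ J, H ⊆ A i) ∧ Tree d N α (Cn * (1 + Real.log (1 / η))) η H n t₀ u t₁)
    {N : ℕ} {η : ℝ} {ι : Type} {A : ι → Finset ℕ} {t₀ u t₁ : ℕ} (hN : 1 ≤ N) (h0 : 0 < η)
    (h1 : η ≤ 1) {J : Finset ι} (hJ : J.Nonempty) (hA : ∀ i ∈ J, A i ⊆ range N) (a2 : t₁ < N)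
    (b2 : sep N η t₀ t₁) {c : ℤ} {p : ℕ} (h : ∀ i ∈ J, GP N η (A i) n t₀ u t₁ c p) :
    ∃ J' ⊆ J, (η / 2) ^ (C₀ + (Cn + 3) * k₀) * J.card ≤ J'.card ∧
      ∃ (Q Hp : Finset ℕ), (∀ i ∈ J', Hp ⊆ A i) ∧ Hp.card ≤ k₀ * (kn + 2) ∧ Q ⊆ Hp ∧
        RI d N α (C' * (1 + Real.log (1 / η))) Q ∧
        ∀ q ∈ Q, ∃ z ∈ Hp, sep N η q t₁ ∧ sep N η z t₁ ∧ sep N η z t₀ ∧
          Rel η t₀ u t₁ c p q z ∧
          Tree d N α (C' * (1 + Real.log (1 / η))) η Hp n t₁ z q := by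
  have hL : 0 ≤ 1 + Real.log (1 / η) := by
    have : 0 ≤ Real.log (1 / η) := Real.log_nonneg (by rw [le_div_iff₀ h0]; linarith)
    linarith
  have hC0' : (C₀ : ℝ) * (1 + Real.log (1 / η)) ≤ C' * (1 + Real.log (1 / η)) :=
    mul_le_mul_of_nonneg_right (by exact_mod_cast hC0) hL
  have hCn' : (Cn : ℝ) * (1 + Real.log (1 / η)) ≤ C' * (1 + Real.log (1 / η)) :=
    mul_le_mul_of_nonneg_right (by exact_mod_cast hCn) hL
  have he : 0 < η / 2 := by positivity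
  have he1 : η / 2 ≤ 1 := by linarith
  obtain ⟨Q, J1, hJ1, hc1, hQk, hQ, hRI⟩ := hFx N η ι J
    (fun i => (A i).filter fun q => GQ N η (A i) n t₀ u t₁ c p q) hN h0 h1 hJ
    (fun i hi => (Finset.filter_subset _ _).trans (hA i hi)) (fun i hi => (h i hi).2.2)
  have hJ1n : J1.Nonempty := sel_pos (by positivity) hJ hc1
  obtain ⟨J2, hJ2, hc2, hP2⟩ := seq_sel (X := ℕ) (fun q J' => ∃ (z : ℕ) (Hq : Finset ℕ),
      (∀ i ∈ J', Hq ⊆ A i) ∧ Hq.card ≤ kn + 2 ∧ z ∈ Hq ∧ q ∈ Hq ∧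
        sep N η q t₁ ∧ sep N η z t₁ ∧ sep N η z t₀ ∧ Rel η t₀ u t₁ c p q z ∧
        Tree d N α (Cn * (1 + Real.log (1 / η))) η Hq n t₁ z q)
    (by
      rintro q J J' hJJ - ⟨z, Hq, hH, hr⟩
      exact ⟨z, Hq, fun i hi => hH i (hJJ hi), hr⟩)
    (δ := (η / 2) ^ (Cn + 3)) (by positivity) (pow_le_one₀ he.le he1) Q J1 hJ1n
    (by
      intro q hq J' hJ' hJ'n
      refine sel_q ih hN h0 h1 hJ'n (fun i hi => hA i (hJ1 (hJ' hi))) a2 b2 ?_ ?_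
      · intro i hi
        exact (Finset.mem_filter.1 (hQ i (hJ' hi) hq)).1
      · intro i hi
        exact (Finset.mem_filter.1 (hQ i (hJ' hi) hq)).2)
  have hex : ∀ q : ℕ, ∃ Hq : Finset ℕ, q ∈ Q → ∃ z : ℕ, (∀ i ∈ J2, Hq ⊆ A i) ∧
      Hq.card ≤ kn + 2 ∧ z ∈ Hq ∧ q ∈ Hq ∧
        sep N η q t₁ ∧ sep N η z t₁ ∧ sep N η z t₀ ∧ Rel η t₀ u t₁ c p q z ∧
        Tree d N α (Cn * (1 + Real.log (1 / η))) η Hq n t₁ z q := by
    intro q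
    by_cases hq : q ∈ Q
    · obtain ⟨z, Hq, hr⟩ := hP2 q hq
      exact ⟨Hq, fun _ => ⟨z, hr⟩⟩
    · exact ⟨∅, fun h => absurd h hq⟩
  choose Hf hHf using hex
  refine ⟨J2, hJ2.trans hJ1, ?_, Q, Q.biUnion Hf, ?_, ?_, ?_, hRI.mono le_rfl hC0', ?_⟩
  · have h3 : (η / 2) ^ ((Cn + 3) * k₀) ≤ ((η / 2) ^ (Cn + 3)) ^ Q.card := by
      rw [← pow_mul]
      exact pow_le_pow_of_le_one he.le he1 (Nat.mul_le_mul_left _ hQk)
    calc (η / 2) ^ (C₀ + (Cn + 3) * k₀) * (J.card : ℝ)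
        = (η / 2) ^ ((Cn + 3) * k₀) * ((η / 2) ^ C₀ * J.card) := by rw [pow_add]; ring
      _ ≤ ((η / 2) ^ (Cn + 3)) ^ Q.card * J1.card := by gcongr
      _ ≤ J2.card := hc2
  · intro i hi
    refine Finset.biUnion_subset.2 fun q hq => ?_
    obtain ⟨z, hr⟩ := hHf q hq
    exact hr.1 i hi
  · refine (Finset.card_biUnion_le_card_mul Q Hf (kn + 2) fun q hq => ?_).trans
      (Nat.mul_le_mul_right _ hQk)
    obtain ⟨z, hr⟩ := hHf q hq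
    exact hr.2.1
  · intro q hq
    obtain ⟨z, hr⟩ := hHf q hq
    exact Finset.mem_biUnion.2 ⟨q, hq, hr.2.2.2.1⟩
  · intro q hq
    obtain ⟨z, hr1, hr2, hz, hq', hs1, hs2, hs3, hrel, hT⟩ := hHf q hq
    have hsub : Hf q ⊆ Q.biUnion Hf := Finset.subset_biUnion_of_mem Hf hq
    exact ⟨z, hsub hz, hs1, hs2, hs3, hrel, Tree.mono hsub (fun _ h => h.mono le_rfl hCn') hT⟩

theorem select {d : ℕ} {α : ℝ} (hF : Flex d α) (n : ℕ) : ∃ k C : ℕ, ∀ (N : ℕ) (η : ℝ) (ι : Type)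
    (I : Finset ι) (A : ι → Finset ℕ) (t₀ u t₁ : ℕ), 1 ≤ N → 0 < η → η ≤ 1 → I.Nonempty →
    (∀ i ∈ I, A i ⊆ range N) → (∀ i ∈ I, GG N η (A i) n t₀ u t₁) →
    ∃ (H : Finset ℕ) (J : Finset ι), J ⊆ I ∧ (η / 2) ^ C * I.card ≤ J.card ∧ H.card ≤ k ∧
      (∀ i ∈ J, H ⊆ A i) ∧ Tree d N α (C * (1 + Real.log (1 / η))) η H n t₀ u t₁ := by
  classical
  obtain ⟨k₀, C₀, hFx⟩ := hF
  induction n with
  | zero =>
    refine ⟨3, 0, ?_⟩
    intro N η ι I A t₀ u t₁ hN h0 h1 hI hA hG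
    refine ⟨{t₀, u, t₁}, I, Subset.rfl, by simp, Finset.card_le_three, ?_, ?_⟩
    · intro i hi x hx
      obtain ⟨a, b, c⟩ := (hG i hi).mem
      simp only [Finset.mem_insert, Finset.mem_singleton] at hx
      rcases hx with rfl | rfl | rfl
      · exact a
      · exact b
      · exact c
    · refine ⟨?_, ?_, ?_⟩ <;> simp
  | succ n ih =>
    obtain ⟨kn, Cn, ih⟩ := ih
    obtain ⟨D, hD⟩ : ∃ D : ℕ, D = C₀ + (Cn + 3) * k₀ := ⟨_, rfl⟩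
    refine ⟨3 + k₀ + k₀ * (k₀ * (kn + 2)), 3 + C₀ + D * k₀ + Cn, ?_⟩
    intro N η ι I A t₀ u t₁ hN h0 h1 hI hA hG
    have hL : 0 ≤ 1 + Real.log (1 / η) := by
      have : 0 ≤ Real.log (1 / η) := Real.log_nonneg (by rw [le_div_iff₀ h0]; linarith)
      linarith
    have hC0 : C₀ ≤ 3 + C₀ + D * k₀ + Cn := by omega
    have hCn : Cn ≤ 3 + C₀ + D * k₀ + Cn := by omega
    obtain ⟨C', hC'⟩ : ∃ C' : ℕ, C' = 3 + C₀ + D * k₀ + Cn := ⟨_, rfl⟩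
    rw [← hC'] at hC0 hCn ⊢
    have hC0' : (C₀ : ℝ) * (1 + Real.log (1 / η)) ≤ C' * (1 + Real.log (1 / η)) :=
      mul_le_mul_of_nonneg_right (by exact_mod_cast hC0) hL
    have he : 0 < η / 2 := by positivity
    have he1 : η / 2 ≤ 1 := by linarith
    have hmem : ∀ i ∈ I, t₀ ∈ A i ∧ u ∈ A i ∧ t₁ ∈ A i := fun i hi => (hG i hi).mem
    obtain ⟨i0, hi0⟩ := hI
    have a2 : t₁ < N := Finset.mem_range.1 (hA i0 hi0 (hmem i0 hi0).2.2)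
    have b2 : sep N η t₀ t₁ := (hG i0 hi0).2.1
    have b3 : sep N η t₀ u := (hG i0 hi0).2.2.1
    have hI : I.Nonempty := ⟨i0, hi0⟩
    obtain ⟨c, J1, hJ1, hc1, hcN, hP1⟩ := pop_c hN h0 h1 I hI A hG
    have hJ1n : J1.Nonempty := sel_pos (by positivity) hI hc1
    obtain ⟨P, J2, hJ2, hc2, hPk, hP, hRI⟩ := hFx N η ι J1
      (fun i => (A i).filter fun p => GP N η (A i) n t₀ u t₁ c p) hN h0 h1 hJ1n
      (fun i hi => (Finset.filter_subset _ _).trans (hA i (hJ1 hi))) hP1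
    have hJ2n : J2.Nonempty := sel_pos (by positivity) hJ1n hc2
    obtain ⟨J3, hJ3, hc3, hP3⟩ := seq_sel (X := ℕ) (fun p J' =>
      ∃ (Q Hp : Finset ℕ), (∀ i ∈ J', Hp ⊆ A i) ∧ Hp.card ≤ k₀ * (kn + 2) ∧ Q ⊆ Hp ∧
        RI d N α (C' * (1 + Real.log (1 / η))) Q ∧
        ∀ q ∈ Q, ∃ z ∈ Hp, sep N η q t₁ ∧ sep N η z t₁ ∧ sep N η z t₀ ∧
          Rel η t₀ u t₁ c p q z ∧
          Tree d N α (C' * (1 + Real.log (1 / η))) η Hp n t₁ z q)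
      (by
        rintro p J J' hJJ - ⟨Q, Hp, hH, hr⟩
        exact ⟨Q, Hp, fun i hi => hH i (hJJ hi), hr⟩)
      (δ := (η / 2) ^ D) (by positivity) (pow_le_one₀ he.le he1) P J2 hJ2n
      (by
        intro p hp J' hJ' hJ'n
        rw [hD]
        refine sel_p hC0 hCn hFx ih hN h0 h1 hJ'n
          (fun i hi => hA i (hJ1 (hJ2 (hJ' hi)))) a2 b2 ?_
        intro i hi
        exact (Finset.mem_filter.1 (hP i (hJ' hi) hp)).2)
    have hex : ∀ p : ℕ, ∃ Hp : Finset ℕ, p ∈ P → ∃ Q : Finset ℕ, (∀ i ∈ J3, Hp ⊆ A i) ∧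
        Hp.card ≤ k₀ * (kn + 2) ∧ Q ⊆ Hp ∧
        RI d N α (C' * (1 + Real.log (1 / η))) Q ∧
        ∀ q ∈ Q, ∃ z ∈ Hp, sep N η q t₁ ∧ sep N η z t₁ ∧ sep N η z t₀ ∧
          Rel η t₀ u t₁ c p q z ∧
          Tree d N α (C' * (1 + Real.log (1 / η))) η Hp n t₁ z q := by
      intro p
      by_cases hp : p ∈ P
      · obtain ⟨Q, Hp, hr⟩ := hP3 p hp
        exact ⟨Hp, fun _ => ⟨Q, hr⟩⟩
      · exact ⟨∅, fun h => absurd h hp⟩
    choose Hf hHf using hex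
    have hsub3 : P ⊆ {t₀, u, t₁} ∪ P ∪ P.biUnion Hf :=
      Finset.subset_union_right.trans Finset.subset_union_left
    refine ⟨{t₀, u, t₁} ∪ P ∪ P.biUnion Hf, J3, hJ3.trans (hJ2.trans hJ1), ?_, ?_, ?_, ?_⟩
    · have h3 : (η / 2) ^ (D * k₀) ≤ ((η / 2) ^ D) ^ P.card := by
        rw [← pow_mul]
        exact pow_le_pow_of_le_one he.le he1 (Nat.mul_le_mul_left _ hPk)
      have h4 : (η / 2) ^ 3 ≤ η ^ 3 / 5 := by
        rw [div_pow]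
        have := pow_pos h0 3
        linarith
      have h5 : (η / 2) ^ Cn ≤ 1 := pow_le_one₀ he.le he1
      calc (η / 2) ^ C' * (I.card : ℝ)
          = (η / 2) ^ Cn * ((η / 2) ^ (D * k₀) * ((η / 2) ^ C₀ * ((η / 2) ^ 3 * I.card))) := by
            rw [hC', pow_add, pow_add, pow_add]; ring
        _ ≤ 1 * (((η / 2) ^ D) ^ P.card * J2.card) := by
            have h6 : (η / 2) ^ 3 * (I.card : ℝ) ≤ J1.card :=
              (mul_le_mul_of_nonneg_right h4 (Nat.cast_nonneg _)).trans hc1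
            have h7 : (η / 2) ^ C₀ * ((η / 2) ^ 3 * (I.card : ℝ)) ≤ J2.card :=
              (mul_le_mul_of_nonneg_left h6 (by positivity)).trans hc2
            gcongr
        _ ≤ J3.card := by rw [one_mul]; exact hc3
    · refine (Finset.card_union_le _ _).trans (Nat.add_le_add
        ((Finset.card_union_le _ _).trans (Nat.add_le_add Finset.card_le_three hPk)) ?_)
      refine (Finset.card_biUnion_le_card_mul P Hf (k₀ * (kn + 2)) fun p hp => ?_).trans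
        (Nat.mul_le_mul_right _ hPk)
      obtain ⟨Q, hr⟩ := hHf p hp
      exact hr.2.1
    · intro i hi
      have hi1 := hJ3 hi
      have hi2 := hJ2 hi1
      obtain ⟨m1, m2, m3⟩ := hmem i (hJ1 hi2)
      refine Finset.union_subset (Finset.union_subset ?_ ?_) ?_
      · intro x hx
        simp only [Finset.mem_insert, Finset.mem_singleton] at hx
        rcases hx with rfl | rfl | rfl
        · exact m1
        · exact m2
        · exact m3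
      · intro p hp
        exact (Finset.mem_filter.1 (hP i hi1 hp)).1
      · refine Finset.biUnion_subset.2 fun p hp => ?_
        obtain ⟨Q, hr⟩ := hHf p hp
        exact hr.1 i hi
    · refine ⟨⟨by simp, by simp, by simp⟩, b2, b3, c, P, hcN, hsub3, hRI.mono le_rfl hC0', ?_⟩
      intro p hp
      obtain ⟨i, hi⟩ := hJ2n
      have hGP := (Finset.mem_filter.1 (hP i hi hp)).2
      refine ⟨hGP.1, hGP.2.1, ?_⟩
      obtain ⟨Q, hr1, hr2, hQ, hRQ, hr⟩ := hHf p hp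
      have hsub : Hf p ⊆ {t₀, u, t₁} ∪ P ∪ P.biUnion Hf :=
        (Finset.subset_biUnion_of_mem Hf hp).trans Finset.subset_union_right
      refine ⟨Q, hQ.trans hsub, hRQ, ?_⟩
      intro q hq
      obtain ⟨z, hz, s1, s2, s3, hrel, hT⟩ := hr q hq
      exact ⟨z, hsub hz, s1, s2, s3, hrel, Tree.mono hsub (fun _ h => h) hT⟩

end Pool.Agent.MPac5134.KH
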