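import Mathlib

/-!
# KH-Seq: sequential selection of subfamilies

PROOF of `seq_sel`: induction on `T` (`Finset.induction_on`): first the set for `T`, then the hypothesis
`h` for the new element `x` and the set obtained; `hmono` keeps the earlier properties.  All sets obtained
are nonempty as `δ ^ k * card > 0`.

PROOF of `popular`: `∑_{y ∈ Y} #{i ∈ I | r i y} = ∑_{i ∈ I} #{y ∈ Y | r i y} ≥ a |I|`, so some `y` has at least
`(a/|Y|) |I| ≥ (a/K) |I|`.
-/

open Finset

namespace Pool.Agent.MPac5134.KH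

theorem seq_sel {ι X : Type} (Φ : X → Finset ι → Prop)
    (hmono : ∀ x J J', J' ⊆ J → J'.Nonempty → Φ x J → Φ x J') {δ : ℝ} (hδ : 0 < δ) (hδ1 : δ ≤ 1)
    (T : Finset X) (I : Finset ι) (hI : I.Nonempty)
    (h : ∀ x ∈ T, ∀ J ⊆ I, J.Nonempty → ∃ J' ⊆ J, δ * J.card ≤ J'.card ∧ Φ x J') :
    ∃ J ⊆ I, δ ^ T.card * I.card ≤ J.card ∧ ∀ x ∈ T, Φ x J := by
  classical
  have main : ∀ T : Finset X,
      (∀ x ∈ T, ∀ J ⊆ I, J.Nonempty → ∃ J' ⊆ J, δ * J.card ≤ J'.card ∧ Φ x J') →
      ∃ J ⊆ I, J.Nonempty ∧ δ ^ T.card * I.card ≤ J.card ∧ ∀ x ∈ T, Φ x J := by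
    intro T
    induction T using Finset.induction_on with
    | empty =>
      intro _
      exact ⟨I, Finset.Subset.refl I, hI, by simp, by simp⟩
    | insert a s ha ih =>
      intro h
      obtain ⟨J, hJI, hJne, hJc, hJ⟩ := ih (fun x hx => h x (Finset.mem_insert_of_mem hx))
      obtain ⟨J', hJ'J, hc, hΦ⟩ := h a (Finset.mem_insert_self a s) J hJI hJne
      have hJpos : (0 : ℝ) < J.card := by exact_mod_cast hJne.card_pos
      have hJ'pos : (0 : ℝ) < J'.card := lt_of_lt_of_le (mul_pos hδ hJpos) hc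
      have hJ'ne : J'.Nonempty := by
        rw [← Finset.card_pos]
        exact_mod_cast hJ'pos
      refine ⟨J', hJ'J.trans hJI, hJ'ne, ?_, ?_⟩
      · rw [Finset.card_insert_of_notMem ha, pow_succ]
        calc δ ^ s.card * δ * (I.card : ℝ) = δ * (δ ^ s.card * I.card) := by ring
          _ ≤ δ * J.card := mul_le_mul_of_nonneg_left hJc hδ.le
          _ ≤ J'.card := hc
      · intro x hx
        rcases Finset.mem_insert.1 hx with rfl | hx
        · exact hΦ
        · exact hmono x J J' hJ'J hJ'ne (hJ x hx)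
  obtain ⟨J, hJI, _, hJc, hJ⟩ := main T h
  exact ⟨J, hJI, hJc, hJ⟩

open Classical in
/-- some `y ∈ Y` is related to at least the proportion `a/K` of the `i ∈ I` -/
theorem popular {ι Y : Type} (I : Finset ι) (hI : I.Nonempty) (S : Finset Y) (r : ι → Y → Prop)
    {a K : ℝ} (ha : 0 < a) (hK : 0 < K) (hS : (S.card : ℝ) ≤ K)
    (h : ∀ i ∈ I, a ≤ ((S.filter fun y => r i y).card : ℝ)) :
    ∃ y ∈ S, a / K * I.card ≤ ((I.filter fun i => r i y).card : ℝ) := by
  by_contra hcon
  push Not at hcon
  have hdc : ∑ y ∈ S, ((I.filter fun i => r i y).card : ℝ) =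
      ∑ i ∈ I, ((S.filter fun y => r i y).card : ℝ) := by
    have h1 : ∑ y ∈ S, (I.filter fun i => r i y).card = ∑ i ∈ I, (S.filter fun y => r i y).card := by
      simp only [Finset.card_filter]
      exact Finset.sum_comm
    exact_mod_cast h1
  have hIpos : (0 : ℝ) < I.card := by exact_mod_cast hI.card_pos
  have hlow : a * I.card ≤ ∑ i ∈ I, ((S.filter fun y => r i y).card : ℝ) := by
    have := Finset.card_nsmul_le_sum I (fun i => ((S.filter fun y => r i y).card : ℝ)) a h
    rw [nsmul_eq_mul] at this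
    linarith
  have hSne : S.Nonempty := by
    rcases S.eq_empty_or_nonempty with hS0 | hS0
    · exfalso
      obtain ⟨i, hi⟩ := hI
      have := h i hi
      rw [hS0] at this
      simp at this
      linarith
    · exact hS0
  have hup : ∑ y ∈ S, ((I.filter fun i => r i y).card : ℝ) < S.card * (a / K * I.card) := by
    have := Finset.sum_lt_sum_of_nonempty hSne hcon
    rw [Finset.sum_const, nsmul_eq_mul] at this
    exact this
  have hfin : (S.card : ℝ) * (a / K * I.card) ≤ a * I.card := by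
    calc (S.card : ℝ) * (a / K * I.card) ≤ K * (a / K * I.card) :=
          mul_le_mul_of_nonneg_right hS (by positivity)
      _ = a * I.card := by field_simp
  linarith

end Pool.Agent.MPac5134.KH
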