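import Pool.Agent.Lib.MP_ac5134_an.KH.RelA
import Pool.Agent.Lib.MP_ac5134_an.KH.Seq

/-!
# KH-SelZ: popular parameters `c` and popular heights `z`

PROOF of `pop_c`: `popular` with `S = cr N η`, `K = 5 N/η²`, `a = η N` (`card_cr`).

PROOF of `pop_z`: let `Z` be the set of all `z < N` with `sep N η z t₁ ∧ Rel η t₀ u t₁ c p q z`
(at most `3/η³` elements, `mult_z`); every `i ∈ J` is related to at least one of them, `popular` with
`a = 1`, `K = 3/η³`.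
-/

open Finset

namespace Pool.Agent.MPac5134.KH

/-- the heights `q` of level `n` for the parameter `c` and the height `p` -/
def GQ (N : ℕ) (η : ℝ) (A : Finset ℕ) (n t₀ u t₁ : ℕ) (c : ℤ) (p q : ℕ) : Prop :=
  sep N η q t₁ ∧ ∃ z ∈ A, sep N η z t₁ ∧ sep N η z t₀ ∧ Rel η t₀ u t₁ c p q z ∧
    GG N η A n t₁ z q

open Classical in
/-- the heights `p` of level `n` for the parameter `c` -/
def GP (N : ℕ) (η : ℝ) (A : Finset ℕ) (n t₀ u t₁ : ℕ) (c : ℤ) (p : ℕ) : Prop :=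
  sep N η p t₀ ∧ sep N η p u ∧ η * N ≤ (A.filter fun q => GQ N η A n t₀ u t₁ c p q).card

private theorem selz_mem {X : Type} {P : X → Prop} (inst : DecidablePred P) {s : Finset X}
    {a : X} : a ∈ @Finset.filter X P inst s ↔ a ∈ s ∧ P a := Finset.mem_filter

open Classical in
theorem pop_c {ι : Type} {N n : ℕ} {η : ℝ} (hN : 1 ≤ N) (h0 : 0 < η) (h1 : η ≤ 1) (I : Finset ι)
    (hI : I.Nonempty) (A : ι → Finset ℕ) {t₀ u t₁ : ℕ}
    (h : ∀ i ∈ I, GG N η (A i) (n + 1) t₀ u t₁) :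
    ∃ (c : ℤ) (J : Finset ι), J ⊆ I ∧ η ^ 3 / 5 * I.card ≤ J.card ∧ η * N ≤ |(c : ℝ)| ∧
      ∀ i ∈ J, η * N ≤ ((A i).filter fun p => GP N η (A i) n t₀ u t₁ c p).card := by
  have hN' : (0 : ℝ) < N := by exact_mod_cast hN
  obtain ⟨c, _, hc⟩ := popular I hI (cr N η)
    (fun i c => η * N ≤ |(c : ℝ)| ∧
      η * N ≤ (((A i).filter fun p => GP N η (A i) n t₀ u t₁ c p).card : ℝ))
    (a := η * N) (K := 5 * N / η ^ 2) (by positivity) (by positivity) (card_cr h0 h1 hN)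
    (by
      intro i hi
      have h3 := (h i hi).2.2.2
      refine h3.trans (Nat.cast_le.mpr ((Finset.card_le_card (t := ((cr N η).filter
        fun c : ℤ => η * N ≤ |(c : ℝ)| ∧
        η * N ≤ (((A i).filter fun p => GP N η (A i) n t₀ u t₁ c p).card : ℝ)).image
        (fun c : ℤ => (c : ℝ))) ?_).trans (le_trans Finset.card_image_le
        (Finset.card_le_card ?_))))
      · intro x hx
        rw [Finset.mem_filter] at hx
        obtain ⟨hx1, hx2⟩ := hx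
        simp only [Finset.bind_def, Finset.pure_def, Finset.mem_sup,
          Finset.mem_singleton] at hx1
        obtain ⟨a, ha, rfl⟩ := hx1
        refine Finset.mem_image.mpr ⟨a, ?_, rfl⟩
        rw [Finset.mem_filter]
        refine ⟨ha, hx2.1, hx2.2.trans (Nat.cast_le.mpr (Finset.card_le_card ?_))⟩
        intro p hp
        rw [Finset.mem_filter] at hp ⊢
        refine ⟨hp.1, hp.2.1, hp.2.2.1, hp.2.2.2.trans (Nat.cast_le.mpr
          (Finset.card_le_card ?_))⟩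
        intro q hq
        rw [Finset.mem_filter] at hq ⊢
        exact hq
      · intro x hx
        exact (selz_mem _).mpr ((selz_mem _).mp hx))
  have hsimp : η * N / (5 * N / η ^ 2) = η ^ 3 / 5 := by
    field_simp
  rw [hsimp] at hc
  have key : ∃ J ⊆ I, η ^ 3 / 5 * (I.card : ℝ) ≤ (J.card : ℝ) ∧ ∀ i ∈ J, η * N ≤ |(c : ℝ)| ∧
      η * N ≤ (((A i).filter fun p => GP N η (A i) n t₀ u t₁ c p).card : ℝ) :=
    ⟨_, fun i hi => ((selz_mem _).mp hi).1, hc,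
      fun i hi => ((selz_mem _).mp hi).2⟩
  obtain ⟨J, hJ, hJc, hJr⟩ := key
  have hpos : 0 < (J.card : ℝ) := by
    refine lt_of_lt_of_le ?_ hJc
    have : 0 < I.card := hI.card_pos
    positivity
  have hne : J.Nonempty := by
    rw [← Finset.card_pos]
    exact_mod_cast hpos
  obtain ⟨i₀, hi₀⟩ := hne
  exact ⟨c, J, hJ, hJc, (hJr i₀ hi₀).1, fun i hi => (hJr i hi).2⟩

theorem pop_z {ι : Type} {N n : ℕ} {η : ℝ} (h0 : 0 < η) (h1 : η ≤ 1) (J : Finset ι)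
    (hJ : J.Nonempty) (A : ι → Finset ℕ) (hA : ∀ i ∈ J, A i ⊆ range N) {t₀ u t₁ : ℕ}
    (a2 : t₁ < N) (b2 : sep N η t₀ t₁) {c : ℤ} {p q : ℕ}
    (h : ∀ i ∈ J, GQ N η (A i) n t₀ u t₁ c p q) :
    ∃ (z : ℕ) (J' : Finset ι), J' ⊆ J ∧ η ^ 3 / 3 * J.card ≤ J'.card ∧ sep N η z t₁ ∧
      sep N η z t₀ ∧ Rel η t₀ u t₁ c p q z ∧ ∀ i ∈ J', z ∈ A i ∧ GG N η (A i) n t₁ z q := by
  classical
  obtain ⟨j₀, hj₀⟩ := hJ
  have hq : sep N η q t₁ := (h j₀ hj₀).1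
  set Z : Finset ℕ := (range N).filter fun z => sep N η z t₁ ∧ Rel η t₀ u t₁ c p q z with hZ
  have hcard : (Z.card : ℝ) ≤ 3 / η ^ 3 := by
    refine mult_z (t₀ := t₀) (u := u) (p := p) (c := (c : ℝ)) h0 h1 a2 hq b2 Z ?_
    intro z hz
    have h2 := Finset.mem_filter.mp hz
    exact ⟨Finset.mem_range.mp h2.1, h2.2.1, h2.2.2⟩
  obtain ⟨z, _, hz⟩ := popular J ⟨j₀, hj₀⟩ Z
    (fun i z => sep N η z t₁ ∧ sep N η z t₀ ∧ Rel η t₀ u t₁ c p q z ∧ z ∈ A i ∧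
      GG N η (A i) n t₁ z q)
    (a := 1) (K := 3 / η ^ 3) one_pos (by positivity) hcard
    (by
      intro i hi
      obtain ⟨_, z, hzA, c1, c2, c3, c4⟩ := h i hi
      refine Nat.one_le_cast.mpr (Finset.card_pos.mpr ⟨z, ?_⟩)
      refine (selz_mem _).mpr ⟨?_, c1, c2, c3, hzA, c4⟩
      rw [hZ, Finset.mem_filter]
      exact ⟨hA i hi hzA, c1, c3⟩)
  have hsimp : (1 : ℝ) / (3 / η ^ 3) = η ^ 3 / 3 := by
    field_simp
  rw [hsimp] at hz
  have key : ∃ J' ⊆ J, η ^ 3 / 3 * (J.card : ℝ) ≤ (J'.card : ℝ) ∧ ∀ i ∈ J', sep N η z t₁ ∧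
      sep N η z t₀ ∧ Rel η t₀ u t₁ c p q z ∧ z ∈ A i ∧ GG N η (A i) n t₁ z q :=
    ⟨_, fun i hi => ((selz_mem _).mp hi).1, hz,
      fun i hi => ((selz_mem _).mp hi).2⟩
  obtain ⟨J', hJ', hJc, hJr⟩ := key
  have hpos : 0 < (J'.card : ℝ) := by
    refine lt_of_lt_of_le ?_ hJc
    have : 0 < J.card := Finset.card_pos.mpr ⟨j₀, hj₀⟩
    positivity
  have hne : J'.Nonempty := by
    rw [← Finset.card_pos]
    exact_mod_cast hpos
  obtain ⟨i₀, hi₀⟩ := hne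
  have h3 := hJr i₀ hi₀
  exact ⟨z, J', hJ', hJc, h3.1, h3.2.1, h3.2.2.1, fun i hi => (hJr i hi).2.2.2⟩

end Pool.Agent.MPac5134.KH
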