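import Pool.Agent.Lib.MP_ac5134_an.KH.Defs
import Pool.Agent.Lib.MP_ac5134_an.Geom
import Pool.Agent.Lib.MP_ac5134_an.Shear

/-!
# KH-ShA: geometry of tubes and slabs

PROOF of `tube_axis`: the functional `φ y = y k.castSucc + 2 ω_k y_last` vanishes on the axis direction
(`θ.normal`), so `φ (x - c) = ∑ i : Fin d, ⟪f i, x - c⟫ φ (f i)` (`expand_coord`), `|φ (f i)| ≤ 3`
(`abs_coord_le_one`, `|ω_k| ≤ 1`), `|⟪f i, x - c⟫| ≤ N/2`.

PROOF of `tube_height`: `expand_coord` for the last coordinate.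

PROOF of `tube_slab`: by `tube_axis` and Fubini (`Lip`: the measurable equivalence of `Sp d` with
`(Fin d → ℝ) × ℝ`; see the uses in `SD/TubA.lean`, `AddVol.lean`, `volume_tube_inter_le` there may be exactly
what is needed), the part of a tube with last coordinate in a set `S` has volume at most
`(4 d N)^d · |S|`.
-/

open MeasureTheory

namespace Pool.Agent.MPac5134.KH

theorem tube_axis {d : ℕ} {N : ℝ} (hN : 1 ≤ N) (θ : Cap d) (c x : Sp d) (hx : x ∈ tube N θ c)
    (k : Fin d) :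
    |x k.castSucc - (c k.castSucc - 2 * θ.foot k * (x (Fin.last d) - c (Fin.last d)))| ≤
      2 * d * N := by
  have h := tube_functional (by linarith : (0:ℝ) ≤ N) θ c hx k
  have e : x k.castSucc - (c k.castSucc - 2 * θ.foot k * (x (Fin.last d) - c (Fin.last d))) =
      (x - c) k.castSucc + 2 * θ.foot k * (x - c) (Fin.last d) := by
    simp only [PiLp.sub_apply]
    ring
  rw [e]
  refine h.trans ?_
  have hd : (0:ℝ) ≤ d * N := by positivity
  linarith

theorem tube_height {d : ℕ} {N : ℝ} (hN : 1 ≤ N) (θ : Cap d) (c x : Sp d)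
    (hx : x ∈ tube N θ c) : |x (Fin.last d) - c (Fin.last d)| ≤ (d + 1) * N ^ 2 := by
  have h := tube_last hN θ c hx
  simpa only [PiLp.sub_apply] using h

theorem tube_slab {d : ℕ} : ∃ C : ℝ, 1 ≤ C ∧ ∀ (N : ℝ), 1 ≤ N → ∀ (θ : Cap d) (c : Sp d)
    (lo hi : ℝ), lo ≤ hi →
    volume (tube N θ c ∩ {x | lo ≤ x (Fin.last d) ∧ x (Fin.last d) < hi}) ≤
      ENNReal.ofReal (C * N ^ d * (hi - lo)) := by
  refine ⟨(4 * d + 1) ^ d, ?_, ?_⟩
  · apply one_le_pow₀
    have : (0:ℝ) ≤ d := Nat.cast_nonneg d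
    linarith
  · intro N hN θ c lo hi hlo
    have hN0 : (0:ℝ) ≤ N := by linarith
    set φ : ℝ → Fin d → ℝ := fun t k => c k.castSucc - 2 * θ.foot k * (t - c (Fin.last d))
      with hφ
    have hφc : Continuous φ := by
      rw [hφ]
      fun_prop
    have hsub : tube N θ c ∩ {x | lo ≤ x (Fin.last d) ∧ x (Fin.last d) < hi} ⊆
        shearBox φ lo hi (2 * d * N) := by
      rintro x ⟨hx, h1, h2⟩
      exact ⟨⟨h1, h2.le⟩, fun k => tube_axis hN θ c x hx k⟩
    refine (measure_mono hsub).trans ((volume_shearBox_le φ hφc).trans ?_)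
    have hd0 : (0:ℝ) ≤ d := Nat.cast_nonneg d
    rw [← ENNReal.ofReal_pow (by positivity), ← ENNReal.ofReal_mul (by linarith)]
    apply ENNReal.ofReal_le_ofReal
    have h3 : (2 * (2 * (d:ℝ) * N)) ^ d ≤ (4 * d + 1) ^ d * N ^ d := by
      rw [← mul_pow]
      apply pow_le_pow_left₀ (by positivity)
      nlinarith
    calc (hi - lo) * (2 * (2 * (d:ℝ) * N)) ^ d ≤ (hi - lo) * ((4 * d + 1) ^ d * N ^ d) := by
          apply mul_le_mul_of_nonneg_left h3
          linarith
      _ = (4 * d + 1) ^ d * N ^ d * (hi - lo) := by ring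

end Pool.Agent.MPac5134.KH
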