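import Pool.Agent.Lib.MP_ac5134_an.KH.ShA
import Pool.Agent.Lib.MP_ac5134_an.KH.DT

/-!
# KH-ShB: the shading theorem in one window of heights

PROOF.  `n = ⌈N⌉₊` (so `N ≤ n ≤ 2N`).  Window: last coordinate in `[h₀, h₀ + N²)`, slabs
`slab j = {h₀ + j N²/n ≤ x_last < h₀ + (j+1) N²/n}`, `j < n`.  For the tube `i` put `b i = cell N (θ i)`
(`|b| ≤ n`: `|N foot k| ≤ N`), `a i k = ⌊-c_k/(2N) + foot k (h₀ - c_last)/N⌋` so that by `tube_axis` every point `x` of the
tube in `slab j` satisfies `|-x k/(2N) - pt (a i) (b i) (j/n) k| ≤ R`, `R = d + 4` (height `h = h₀ + N² t`,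
`t - j/n ∈ [0, 1/n)`; `-x_k/(2N) = -c_k/(2N) + ω_k (h - c_last)/N + O(d) = a_real + t N ω_k + O(d)`).
`A i` = the `j < n` with `|T_i ∩ E ∩ slab j| ≥ (lam/2) N^(d+2)/n`.  As `|T_i ∩ E ∩ window| ≥ lam N^(d+2)` and each
slab contributes at most `C₁ N^(d+2)/n` (`tube_slab`), `|A i| ≥ (lam/(2 C₁)) n`.
For `j` fixed and each cell `z` of the image in `DT` choose a tube `i(z)`; the sets `T_{i(z)} ∩ E ∩ slab j`
have measure `≥ (lam/2) N^(d+2)/n` and lie in `E ∩ U ∩ slab j` (`U = ⋃ T_i`); every point lies in at most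
`(2R + 4)^d` of them (a point `x` of the set of `z` has `|-x k/(2N) - z k| ≤ R + 1`).  So
`#cells_j (lam/2) N^(d+2)/n ≤ (2R+4)^d |E ∩ U ∩ slab j|`; sum over `j` and use `DT` with `lam/(2 C₁)`, the `K`
of the hypothesis (`cell N (θ i)` is `b i`; replace `K` by `K + 1` to have `1 ≤ K`).
-/

open MeasureTheory

namespace Pool.Agent.MPac5134.KH

theorem shB_mult {β ι : Type*} [MeasurableSpace β] (μ : Measure β) (Z : Finset ι) (S : ι → Set β)
    (V : Set β) (M : ℕ) (hS : ∀ z ∈ Z, MeasurableSet (S z)) (hV : MeasurableSet V)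
    (hsub : ∀ z ∈ Z, S z ⊆ V)
    (hM : ∀ x, ∀ s : Finset ι, s ⊆ Z → (∀ z ∈ s, x ∈ S z) → s.card ≤ M) :
    ∑ z ∈ Z, μ (S z) ≤ M * μ V := by
  classical
  calc ∑ z ∈ Z, μ (S z) = ∑ z ∈ Z, ∫⁻ x, (S z).indicator 1 x ∂μ := by
        refine Finset.sum_congr rfl fun z hz => ?_
        rw [lintegral_indicator_one (hS z hz)]
    _ = ∫⁻ x, ∑ z ∈ Z, (S z).indicator 1 x ∂μ := by
        rw [lintegral_finsetSum']
        intro z hz
        exact (measurable_one.indicator (hS z hz)).aemeasurable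
    _ ≤ ∫⁻ x, V.indicator (fun _ => (M : ENNReal)) x ∂μ := by
        apply lintegral_mono
        intro x
        dsimp only
        by_cases hx : x ∈ V
        · rw [Set.indicator_of_mem hx]
          have h1 := hM x (Z.filter fun z => x ∈ S z) (Finset.filter_subset _ _)
            (fun z hz => (Finset.mem_filter.1 hz).2)
          have h2 : ∑ z ∈ Z, (S z).indicator (1 : β → ENNReal) x =
              ((Z.filter fun z => x ∈ S z).card : ENNReal) := by
            rw [Finset.card_filter]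
            push_cast
            refine Finset.sum_congr rfl fun z _ => ?_
            by_cases hz : x ∈ S z
            · simp [hz]
            · simp [hz]
          rw [h2]
          exact_mod_cast h1
        · rw [Set.indicator_of_notMem hx]
          apply le_of_eq
          refine Finset.sum_eq_zero fun z hz => ?_
          rw [Set.indicator_of_notMem]
          exact fun h => hx (hsub z hz h)
    _ = M * μ V := by
        rw [lintegral_indicator_const hV]

theorem shB_cells {d : ℕ} (R : ℕ) (y : Fin d → ℝ) (Z : Finset (Fin d → ℤ))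
    (hZ : ∀ z ∈ Z, ∀ k, |y k - (z k : ℝ)| ≤ R) : Z.card ≤ (2 * R + 1) ^ d := by
  classical
  have hsub : Z ⊆ Fintype.piFinset (fun k => Finset.Icc ⌈y k - R⌉ ⌊y k + R⌋) := by
    intro z hz
    rw [Fintype.mem_piFinset]
    intro k
    have h := abs_le.1 (hZ z hz k)
    rw [Finset.mem_Icc]
    constructor
    · rw [Int.ceil_le]
      linarith [h.2]
    · rw [Int.le_floor]
      linarith [h.1]
  refine (Finset.card_le_card hsub).trans ?_
  rw [Fintype.card_piFinset]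
  calc ∏ k : Fin d, (Finset.Icc ⌈y k - R⌉ ⌊y k + R⌋).card ≤ ∏ _k : Fin d, (2 * R + 1) := by
        refine Finset.prod_le_prod' fun k _ => ?_
        rw [Int.card_Icc]
        have h1 : (⌊y k + R⌋ : ℤ) + 1 - ⌈y k - R⌉ ≤ 2 * R + 1 := by
          have h2 : (⌊y k + R⌋ : ℝ) ≤ y k + R := Int.floor_le _
          have h3 : y k - R ≤ (⌈y k - R⌉ : ℝ) := Int.le_ceil _
          have h4 : ((⌊y k + R⌋ : ℤ) : ℝ) - ⌈y k - R⌉ ≤ 2 * R := by linarith
          have h5 : (⌊y k + R⌋ : ℤ) - ⌈y k - R⌉ ≤ 2 * R := by exact_mod_cast h4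
          linarith
        omega
    _ = (2 * R + 1) ^ d := by simp

/-- the integer starting point of the tube -/
noncomputable def shA0 {d : ℕ} (N h₀ : ℝ) (θ : Cap d) (c : Sp d) : Fin d → ℤ := fun k =>
  ⌊-(c k.castSucc) / (2 * N) + θ.foot k * (h₀ - c (Fin.last d)) / N⌋

theorem shB_foot {d : ℕ} (θ : Cap d) (k : Fin d) : |θ.foot k| ≤ 1 := by
  have h := θ.foot_mem
  have h1 : θ.foot k ^ 2 ≤ ∑ i, θ.foot i ^ 2 :=
    Finset.single_le_sum (f := fun i => θ.foot i ^ 2) (fun i _ => sq_nonneg _) (Finset.mem_univ k)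
  rw [abs_le]
  constructor <;> nlinarith

theorem shB_close {d : ℕ} {N : ℝ} (hN : 1 ≤ N) {n : ℕ} (hn : N ≤ n) (θ : Cap d) (c x : Sp d)
    (hx : x ∈ tube N θ c) (h₀ : ℝ) (j : ℕ) (hj : j < n) (h1 : h₀ + j * (N ^ 2 / n) ≤ x (Fin.last d))
    (h2 : x (Fin.last d) < h₀ + (j + 1) * (N ^ 2 / n)) (k : Fin d) :
    |-(x k.castSucc) / (2 * N) - pt (shA0 N h₀ θ c) (cell N θ) ((j : ℝ) / n) k| ≤ d + 3 := by
  have hN0 : 0 < N := by linarith
  have hn0 : (0:ℝ) < n := by linarith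
  have hf := shB_foot θ k
  have ht := tube_axis hN θ c x hx k
  set f := θ.foot k
  set xk := x k.castSucc
  set ck := c k.castSucc
  set xl := x (Fin.last d)
  set cl := c (Fin.last d)
  unfold pt shA0 cell
  set u : ℝ := -ck / (2 * N) + f * (h₀ - cl) / N with hu
  -- rounding errors
  have e1 : |u - (⌊u⌋ : ℝ)| ≤ 1 := by
    have h3 := Int.floor_le u
    have h4 := Int.lt_floor_add_one u
    rw [abs_le]
    constructor <;> linarith
  have e2 : |N * f - (⌊N * f⌋ : ℝ)| ≤ 1 := by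
    have h3 := Int.floor_le (N * f)
    have h4 := Int.lt_floor_add_one (N * f)
    rw [abs_le]
    constructor <;> linarith
  have hj1 : |(j:ℝ) / n| ≤ 1 := by
    rw [abs_of_nonneg (by positivity), div_le_one hn0]
    exact_mod_cast hj.le
  have e3 : |(j:ℝ) / n * (N * f - (⌊N * f⌋ : ℝ))| ≤ 1 := by
    rw [abs_mul]
    calc |(j:ℝ) / n| * |N * f - (⌊N * f⌋ : ℝ)| ≤ 1 * 1 :=
          mul_le_mul hj1 e2 (abs_nonneg _) (by norm_num)
      _ = 1 := by norm_num
  -- the height error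
  have hr : |(xl - h₀) / N - j * (N / n)| ≤ 1 := by
    have h3 : (xl - h₀) / N - j * (N / n) = (xl - h₀ - j * (N ^ 2 / n)) / N := by
      field_simp
    rw [h3, abs_of_nonneg (by apply div_nonneg _ hN0.le; linarith), div_le_one hN0]
    have h4 : N ^ 2 / n ≤ N := by
      rw [div_le_iff₀ hn0]
      nlinarith
    nlinarith
  have e4 : |f * ((xl - h₀) / N - j * (N / n))| ≤ 1 := by
    rw [abs_mul]
    calc |f| * |(xl - h₀) / N - j * (N / n)| ≤ 1 * 1 :=
          mul_le_mul hf hr (abs_nonneg _) (by norm_num)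
      _ = 1 := by norm_num
  have e5 : |(-(xk - (ck - 2 * f * (xl - cl)))) / (2 * N)| ≤ d := by
    rw [abs_div, abs_neg, abs_of_pos (by linarith : (0:ℝ) < 2 * N), div_le_iff₀ (by linarith)]
    calc |xk - (ck - 2 * f * (xl - cl))| ≤ 2 * d * N := ht
      _ = d * (2 * N) := by ring
  have key : -xk / (2 * N) - ((⌊u⌋ : ℝ) + (j:ℝ) / n * (⌊N * f⌋ : ℝ)) =
      (-(xk - (ck - 2 * f * (xl - cl)))) / (2 * N) + (u - (⌊u⌋ : ℝ)) +
      (j:ℝ) / n * (N * f - (⌊N * f⌋ : ℝ)) + f * ((xl - h₀) / N - j * (N / n)) := by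
    rw [hu]
    field_simp
    ring
  rw [key]
  refine (abs_add_le _ _).trans ?_
  refine (add_le_add (abs_add_le _ _) e4).trans ?_
  refine (add_le_add (add_le_add (abs_add_le _ _) e3) le_rfl).trans ?_
  linarith

/-- slab number `j` of the window -/
def slab (d : ℕ) (h₀ s : ℝ) (j : ℕ) : Set (Sp d) :=
  {x | h₀ + j * s ≤ x (Fin.last d) ∧ x (Fin.last d) < h₀ + (j + 1) * s}

theorem measurableSet_slab (d : ℕ) (h₀ s : ℝ) (j : ℕ) : MeasurableSet (slab d h₀ s j) := by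
  have h : Measurable (fun x : Sp d => x (Fin.last d)) := by
    apply Continuous.measurable
    fun_prop
  exact (measurableSet_le measurable_const h).inter (measurableSet_lt h measurable_const)

theorem window_eq {d : ℕ} {h₀ N : ℝ} (hN : 0 < N) {n : ℕ} (hn : 0 < n) :
    {x : Sp d | h₀ ≤ x (Fin.last d) ∧ x (Fin.last d) < h₀ + N ^ 2} =
      ⋃ j ∈ Finset.range n, slab d h₀ (N ^ 2 / n) j := by
  have hn0 : (0:ℝ) < n := by exact_mod_cast hn
  have hs : 0 < N ^ 2 / (n:ℝ) := by positivity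
  have hsn : (n:ℝ) * (N ^ 2 / n) = N ^ 2 := by field_simp
  ext x
  simp only [Set.mem_ofPred_eq, Set.mem_iUnion, Finset.mem_range, slab, exists_prop]
  constructor
  · rintro ⟨h1, h2⟩
    set s := N ^ 2 / (n:ℝ)
    have h3 : 0 ≤ (x (Fin.last d) - h₀) / s := div_nonneg (by linarith) hs.le
    refine ⟨⌊(x (Fin.last d) - h₀) / s⌋₊, ?_, ?_, ?_⟩
    · rw [Nat.floor_lt h3, div_lt_iff₀ hs, hsn]
      linarith
    · have h4 := Nat.floor_le h3
      rw [le_div_iff₀ hs] at h4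
      linarith
    · have h4 := Nat.lt_floor_add_one ((x (Fin.last d) - h₀) / s)
      rw [div_lt_iff₀ hs] at h4
      linarith
  · rintro ⟨j, hj, h1, h2⟩
    set s := N ^ 2 / (n:ℝ)
    have hj' : (j:ℝ) + 1 ≤ n := by exact_mod_cast hj
    constructor
    · have : 0 ≤ (j:ℝ) * s := by positivity
      linarith
    · have : ((j:ℝ) + 1) * s ≤ n * s := mul_le_mul_of_nonneg_right hj' hs.le
      linarith

theorem slab_disjoint {d : ℕ} {h₀ s : ℝ} (hs : 0 < s) {i j : ℕ} (hij : i ≠ j) :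
    Disjoint (slab d h₀ s i) (slab d h₀ s j) := by
  rw [Set.disjoint_left]
  rintro x ⟨h1, h2⟩ ⟨h3, h4⟩
  rcases lt_or_gt_of_ne hij with h | h
  · have h5 : (i:ℝ) + 1 ≤ j := by exact_mod_cast h
    have : ((i:ℝ) + 1) * s ≤ j * s := mul_le_mul_of_nonneg_right h5 hs.le
    linarith
  · have h5 : (j:ℝ) + 1 ≤ i := by exact_mod_cast h
    have : ((j:ℝ) + 1) * s ≤ i * s := mul_le_mul_of_nonneg_right h5 hs.le
    linarith

open Classical in
/-- the dense slabs of a tube -/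
noncomputable def shB_A {d : ℕ} (N lam h₀ : ℝ) (n : ℕ) (E : Set (Sp d)) (θ : Cap d) (c : Sp d) :
    Finset ℕ :=
  (Finset.range n).filter fun j => ENNReal.ofReal (lam / 2 * N ^ (d + 2) / n) ≤
    volume (tube N θ c ∩ E ∩ slab d h₀ (N ^ 2 / n) j)

theorem shB_dense {d : ℕ} {C₁ : ℝ} (hC₁ : 1 ≤ C₁)
    (hslab : ∀ (N : ℝ), 1 ≤ N → ∀ (θ : Cap d) (c : Sp d) (lo hi : ℝ), lo ≤ hi →
      volume (tube N θ c ∩ {x | lo ≤ x (Fin.last d) ∧ x (Fin.last d) < hi}) ≤
        ENNReal.ofReal (C₁ * N ^ d * (hi - lo)))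
    {N lam : ℝ} (hN : 1 ≤ N) (hlam : 0 < lam) {n : ℕ} (hn : N ≤ n) (E : Set (Sp d)) (θ : Cap d)
    (c : Sp d) (h₀ : ℝ)
    (hv : ENNReal.ofReal (lam * N ^ (d + 2)) ≤ volume (tube N θ c ∩ E ∩
        {x | h₀ ≤ x (Fin.last d) ∧ x (Fin.last d) < h₀ + N ^ 2})) :
    lam / (2 * C₁) * n ≤ (shB_A N lam h₀ n E θ c).card := by
  classical
  have hN0 : 0 < N := by linarith
  have hn0 : (0:ℝ) < n := by linarith
  have hnn : 0 < n := by exact_mod_cast hn0
  have hC0 : 0 < C₁ := by linarith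
  set A := shB_A N lam h₀ n E θ c with hA
  have hAsub : A ⊆ Finset.range n := Finset.filter_subset _ _
  set s : ℝ := N ^ 2 / n with hs
  have hs0 : 0 < s := by positivity
  have h1 : volume (tube N θ c ∩ E ∩
        {x | h₀ ≤ x (Fin.last d) ∧ x (Fin.last d) < h₀ + N ^ 2}) ≤
      ∑ j ∈ Finset.range n, volume (tube N θ c ∩ E ∩ slab d h₀ s j) := by
    rw [window_eq hN0 hnn, Set.inter_iUnion₂]
    exact measure_biUnion_finset_le _ _
  have h2 : ∀ j ∈ Finset.range n, volume (tube N θ c ∩ E ∩ slab d h₀ s j) ≤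
      ENNReal.ofReal ((if j ∈ A then C₁ * N ^ (d + 2) / n else 0) + lam / 2 * N ^ (d + 2) / n) := by
    intro j hj
    by_cases hjA : j ∈ A
    · rw [if_pos hjA]
      have h3 := hslab N hN θ c (h₀ + j * s) (h₀ + (j + 1) * s) (by nlinarith)
      refine (measure_mono ?_).trans (h3.trans ?_)
      · rintro x ⟨⟨h4, h5⟩, h6⟩
        exact ⟨h4, h6⟩
      · apply ENNReal.ofReal_le_ofReal
        have h4 : C₁ * N ^ d * (h₀ + (j + 1) * s - (h₀ + j * s)) = C₁ * N ^ (d + 2) / n := by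
          rw [hs]
          field_simp
          ring
        rw [h4]
        have : 0 ≤ lam / 2 * N ^ (d + 2) / n := by positivity
        linarith
    · rw [if_neg hjA, zero_add]
      have h3 : ¬ ENNReal.ofReal (lam / 2 * N ^ (d + 2) / n) ≤
          volume (tube N θ c ∩ E ∩ slab d h₀ s j) := by
        intro h4
        exact hjA (Finset.mem_filter.2 ⟨hj, h4⟩)
      exact (not_le.1 h3).le
  have h3 : ENNReal.ofReal (lam * N ^ (d + 2)) ≤ ENNReal.ofReal (∑ j ∈ Finset.range n,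
      ((if j ∈ A then C₁ * N ^ (d + 2) / n else 0) + lam / 2 * N ^ (d + 2) / n)) := by
    rw [ENNReal.ofReal_sum_of_nonneg]
    · exact hv.trans (h1.trans (Finset.sum_le_sum h2))
    · intro j _
      have h4 : 0 ≤ lam / 2 * N ^ (d + 2) / n := by positivity
      have h5 : 0 ≤ C₁ * N ^ (d + 2) / n := by positivity
      split_ifs <;> linarith
  have h4 : (∑ j ∈ Finset.range n,
      ((if j ∈ A then C₁ * N ^ (d + 2) / n else 0) + lam / 2 * N ^ (d + 2) / n)) =
      A.card * (C₁ * N ^ (d + 2) / n) + lam / 2 * N ^ (d + 2) := by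
    rw [Finset.sum_add_distrib, ← Finset.sum_filter, Finset.filter_mem_eq_inter,
      Finset.inter_eq_right.2 hAsub, Finset.sum_const, Finset.sum_const, Finset.card_range,
      nsmul_eq_mul, nsmul_eq_mul]
    congr 1
    field_simp
  rw [h4] at h3
  have hpos : 0 ≤ A.card * (C₁ * N ^ (d + 2) / n) + lam / 2 * N ^ (d + 2) := by positivity
  have h5 := (ENNReal.ofReal_le_ofReal_iff hpos).1 h3
  have hNp : 0 < N ^ (d + 2) := by positivity
  have h6 : lam / 2 * N ^ (d + 2) ≤ (A.card * C₁ / n) * N ^ (d + 2) := by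
    have h7 : A.card * (C₁ * N ^ (d + 2) / n) = (A.card * C₁ / n) * N ^ (d + 2) := by ring
    rw [h7] at h5
    linarith
  have h7 := le_of_mul_le_mul_right h6 hNp
  rw [le_div_iff₀ hn0] at h7
  calc lam / (2 * C₁) * n = (lam / 2 * n) / C₁ := by field_simp
    _ ≤ A.card := by
      rw [div_le_iff₀ hC0]
      exact h7

theorem shB_row {d : ℕ} {N lam : ℝ} (hN : 1 ≤ N) {n : ℕ} (hn : N ≤ n) {ι : Type} [Fintype ι]
    (θ : ι → Cap d) (c : ι → Sp d) (E : Set (Sp d)) (hE : MeasurableSet E) (h₀ : ℝ) (j : ℕ)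
    (hj : j < n) (A : ι → Finset ℕ) (hA : ∀ i, A i = shB_A N lam h₀ n E (θ i) (c i)) :
    ((Finset.image (fun i => fl (pt (shA0 N h₀ (θ i) (c i)) (cell N (θ i)) ((j : ℝ) / n)))
      (Finset.univ.filter fun i => j ∈ A i)).card : ENNReal) *
        ENNReal.ofReal (lam / 2 * N ^ (d + 2) / n) ≤
      ((2 * (d + 4) + 1) ^ d : ℕ) *
        volume (E ∩ (⋃ i, tube N (θ i) (c i)) ∩ slab d h₀ (N ^ 2 / n) j) := by
  classical
  set s : ℝ := N ^ 2 / n with hs
  set P : ι → Fin d → ℤ := fun i =>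
    fl (pt (shA0 N h₀ (θ i) (c i)) (cell N (θ i)) ((j : ℝ) / n)) with hP
  set Z := Finset.image P (Finset.univ.filter fun i => j ∈ A i) with hZ
  by_cases hne : Nonempty ι
  swap
  · have : Z = ∅ := by
      rw [Finset.eq_empty_iff_forall_notMem]
      intro z hz
      obtain ⟨i, _⟩ := Finset.mem_image.1 hz
      exact hne ⟨i⟩
    rw [this]
    simp
  have hch : ∀ z, ∃ i : ι, z ∈ Z → (j ∈ A i ∧ P i = z) := by
    intro z
    by_cases hz : z ∈ Z
    · obtain ⟨i, hi, hi2⟩ := Finset.mem_image.1 hz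
      exact ⟨i, fun _ => ⟨(Finset.mem_filter.1 hi).2, hi2⟩⟩
    · exact ⟨hne.some, fun h => absurd h hz⟩
  choose I hI using hch
  have hmeasU : MeasurableSet (⋃ i, tube N (θ i) (c i)) :=
    MeasurableSet.iUnion fun i => measurableSet_tube N (θ i) (c i)
  have h1 : ∑ z ∈ Z, volume (tube N (θ (I z)) (c (I z)) ∩ E ∩ slab d h₀ s j) ≤
      ((2 * (d + 4) + 1) ^ d : ℕ) * volume (E ∩ (⋃ i, tube N (θ i) (c i)) ∩ slab d h₀ s j) := by
    apply shB_mult
    · intro z _
      exact ((measurableSet_tube N _ _).inter hE).inter (measurableSet_slab _ _ _ _)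
    · exact (hE.inter hmeasU).inter (measurableSet_slab _ _ _ _)
    · rintro z _ x ⟨⟨h2, h3⟩, h4⟩
      exact ⟨⟨h3, Set.mem_iUnion.2 ⟨_, h2⟩⟩, h4⟩
    · intro x t ht htx
      apply shB_cells (d + 4) (fun k => -(x k.castSucc) / (2 * N)) t
      intro z hz k
      obtain ⟨⟨h2, _⟩, h4⟩ := htx z hz
      have h5 := shB_close hN hn (θ (I z)) (c (I z)) x h2 h₀ j hj h4.1 h4.2 k
      have h6 := (hI z (ht hz)).2
      have h7 : z k = ⌊pt (shA0 N h₀ (θ (I z)) (c (I z))) (cell N (θ (I z))) ((j : ℝ) / n) k⌋ := by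
        have h8 := congrFun h6 k
        exact h8.symm
      rw [h7]
      set y := pt (shA0 N h₀ (θ (I z)) (c (I z))) (cell N (θ (I z))) ((j : ℝ) / n) k
      have h8 := Int.floor_le y
      have h9 := Int.lt_floor_add_one y
      rw [abs_le] at h5 ⊢
      push_cast
      constructor
      · linarith [h5.1]
      · linarith [h5.2]
  have h2 : ∑ z ∈ Z, ENNReal.ofReal (lam / 2 * N ^ (d + 2) / n) ≤
      ∑ z ∈ Z, volume (tube N (θ (I z)) (c (I z)) ∩ E ∩ slab d h₀ s j) := by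
    refine Finset.sum_le_sum fun z hz => ?_
    have h3 := (hI z hz).1
    rw [hA] at h3
    exact (Finset.mem_filter.1 h3).2
  rw [Finset.sum_const, nsmul_eq_mul] at h2
  exact h2.trans h1

theorem shade_win {d : ℕ} {α : ℝ} (hα : 1 ≤ α) (hF : Flex d α) (K : ℕ) : ∃ C : ℕ, 1 ≤ C ∧
    ∀ (N lam : ℝ), 1 ≤ N → 0 < lam → lam ≤ 1 → ∀ (ι : Type) [Fintype ι] (θ : ι → Cap d)
      (c : ι → Sp d) (E : Set (Sp d)) (h₀ : ℝ), MeasurableSet E →
      (∀ z : Fin d → ℤ, ∀ s : Finset ι, (∀ i ∈ s, cell N (θ i) = z) → s.card ≤ K) →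
      (∀ i, ENNReal.ofReal (lam * N ^ (d + 2)) ≤ volume (tube N (θ i) (c i) ∩ E ∩
        {x | h₀ ≤ x (Fin.last d) ∧ x (Fin.last d) < h₀ + N ^ 2})) →
      ENNReal.ofReal (lam ^ C * (Fintype.card ι : ℝ) ^ (1 / α) * N ^ (d + 2)) ≤
        ENNReal.ofReal C * volume (E ∩ (⋃ i, tube N (θ i) (c i)) ∩
          {x | h₀ ≤ x (Fin.last d) ∧ x (Fin.last d) < h₀ + N ^ 2}) := by
  classical
  obtain ⟨C₀, hDT⟩ := DT hα hF
  obtain ⟨C₁, hC₁, hslab⟩ := tube_slab (d := d)
  have hC0 : 0 < C₁ := by linarith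
  set M : ℕ := (2 * (d + 4) + 1) ^ d with hM
  set K' : ℕ := K + 1 with hK'
  have hK0 : (0:ℝ) < K' := by rw [hK']; positivity
  set D : ℝ := 2 * (4 * C₁ * K') ^ C₀ with hD
  have hD0 : 0 < D := by positivity
  set C : ℕ := C₀ + 1 + ⌈D * M⌉₊ with hC
  refine ⟨C, by omega, ?_⟩
  intro N lam hN hlam hlam1 ι _ θ c E h₀ hE hK hvol
  have hN0 : 0 < N := by linarith
  set n : ℕ := ⌈N⌉₊ with hn
  have hNn : N ≤ n := Nat.le_ceil N
  have hn0 : (0:ℝ) < n := by linarith
  have hnn : 0 < n := by exact_mod_cast hn0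
  set A : ι → Finset ℕ := fun i => shB_A N lam h₀ n E (θ i) (c i) with hA
  set s : ℝ := N ^ 2 / n with hs
  have hs0 : 0 < s := by positivity
  have hlam' : 0 < lam / (2 * C₁) := by positivity
  have hlam'1 : lam / (2 * C₁) ≤ 1 := by
    rw [div_le_one (by linarith)]
    linarith
  have hb : ∀ i k, |((cell N (θ i) k : ℤ) : ℝ)| ≤ n := by
    intro i k
    have hf := abs_le.1 (shB_foot (θ i) k)
    unfold cell
    rw [← Int.cast_abs]
    have h1 : |⌊N * (θ i).foot k⌋| ≤ (n : ℤ) := by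
      rw [abs_le]
      constructor
      · rw [Int.le_floor]
        push_cast
        nlinarith [hf.1]
      · have h2 : (⌊N * (θ i).foot k⌋ : ℝ) ≤ N * (θ i).foot k := Int.floor_le _
        have h3 : (⌊N * (θ i).foot k⌋ : ℝ) ≤ (n : ℝ) := by nlinarith [hf.2]
        exact_mod_cast h3
    exact_mod_cast h1
  have hdt := hDT n (lam / (2 * C₁)) K' ι (fun i => shA0 N h₀ (θ i) (c i)) (fun i => cell N (θ i))
    A hnn hlam' hlam'1 (by omega) hb
    (fun v t ht => (hK v t ht).trans (by omega))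
    (fun i => Finset.filter_subset _ _)
    (fun i => shB_dense hC₁ hslab hN hlam hNn E (θ i) (c i) h₀ (hvol i))
  set Zc : ℕ → ℕ := fun j => ((Finset.image (fun i => fl (pt (shA0 N h₀ (θ i) (c i))
    (cell N (θ i)) ((j : ℝ) / n))) (Finset.univ.filter fun i => j ∈ A i)).card) with hZc
  set U : Set (Sp d) := ⋃ i, tube N (θ i) (c i) with hU
  have hmeasU : MeasurableSet U :=
    MeasurableSet.iUnion fun i => measurableSet_tube N (θ i) (c i)
  set q : ℝ := lam / 2 * N ^ (d + 2) / n with hq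
  have hq0 : 0 < q := by positivity
  have hrow : ∀ j ∈ Finset.range n, (Zc j : ENNReal) * ENNReal.ofReal q ≤
      (M : ENNReal) * volume (E ∩ U ∩ slab d h₀ s j) := by
    intro j hj
    exact shB_row hN hNn θ c E hE h₀ j (Finset.mem_range.1 hj) A (fun i => rfl)
  have hsumV : ∑ j ∈ Finset.range n, volume (E ∩ U ∩ slab d h₀ s j) =
      volume (E ∩ U ∩ {x | h₀ ≤ x (Fin.last d) ∧ x (Fin.last d) < h₀ + N ^ 2}) := by
    rw [window_eq hN0 hnn, Set.inter_iUnion₂, measure_biUnion_finset]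
    · intro i _ j _ hij
      exact (slab_disjoint hs0 hij).mono Set.inter_subset_right Set.inter_subset_right
    · intro j _
      exact (hE.inter hmeasU).inter (measurableSet_slab _ _ _ _)
  set V := volume (E ∩ U ∩ {x | h₀ ≤ x (Fin.last d) ∧ x (Fin.last d) < h₀ + N ^ 2}) with hV
  have htot : ENNReal.ofReal ((∑ j ∈ Finset.range n, (Zc j : ℝ)) * q) ≤ (M : ENNReal) * V := by
    rw [← hsumV, Finset.mul_sum]
    refine le_trans (le_of_eq ?_) (Finset.sum_le_sum hrow)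
    rw [← Finset.sum_mul, ENNReal.ofReal_mul (Finset.sum_nonneg fun j _ => Nat.cast_nonneg _),
      ENNReal.ofReal_sum_of_nonneg (fun j _ => Nat.cast_nonneg _)]
    simp
  have hreal : lam ^ C * (Fintype.card ι : ℝ) ^ (1 / α) * N ^ (d + 2) ≤
      D * ((∑ j ∈ Finset.range n, (Zc j : ℝ)) * q) := by
    set m : ℝ := (Fintype.card ι : ℝ) ^ (1 / α) with hm
    have hm0 : 0 ≤ m := by positivity
    have h1 : (lam / (2 * C₁) / (2 * K')) ^ C₀ * n * m ≤ ∑ j ∈ Finset.range n, (Zc j : ℝ) := hdt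
    have h2 : D * (((lam / (2 * C₁) / (2 * K')) ^ C₀ * n * m) * q) =
        lam ^ (C₀ + 1) * m * N ^ (d + 2) := by
      have h3 : (lam / (2 * C₁) / (2 * K')) ^ C₀ = lam ^ C₀ / (4 * C₁ * K') ^ C₀ := by
        rw [← div_pow]
        congr 1
        field_simp
        ring
      rw [h3, hD, hq]
      have h4 : (4 * C₁ * K') ^ C₀ ≠ 0 := by positivity
      field_simp
      ring
    calc lam ^ C * m * N ^ (d + 2) ≤ lam ^ (C₀ + 1) * m * N ^ (d + 2) := by
          apply mul_le_mul_of_nonneg_right _ (by positivity)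
          apply mul_le_mul_of_nonneg_right _ hm0
          exact pow_le_pow_of_le_one hlam.le hlam1 (by omega)
      _ = D * (((lam / (2 * C₁) / (2 * K')) ^ C₀ * n * m) * q) := h2.symm
      _ ≤ D * ((∑ j ∈ Finset.range n, (Zc j : ℝ)) * q) := by
          apply mul_le_mul_of_nonneg_left _ hD0.le
          exact mul_le_mul_of_nonneg_right h1 hq0.le
  calc ENNReal.ofReal (lam ^ C * (Fintype.card ι : ℝ) ^ (1 / α) * N ^ (d + 2)) ≤
      ENNReal.ofReal (D * ((∑ j ∈ Finset.range n, (Zc j : ℝ)) * q)) :=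
        ENNReal.ofReal_le_ofReal hreal
    _ = ENNReal.ofReal D * ENNReal.ofReal ((∑ j ∈ Finset.range n, (Zc j : ℝ)) * q) :=
        ENNReal.ofReal_mul hD0.le
    _ ≤ ENNReal.ofReal D * ((M : ENNReal) * V) := by gcongr
    _ = ENNReal.ofReal (D * M) * V := by
        rw [← mul_assoc, ENNReal.ofReal_mul hD0.le, ENNReal.ofReal_natCast]
    _ ≤ ENNReal.ofReal C * V := by
        gcongr
        have h1 : D * M ≤ (⌈D * M⌉₊ : ℝ) := Nat.le_ceil _
        rw [hC]
        push_cast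
        have h2 : (0:ℝ) ≤ C₀ := Nat.cast_nonneg _
        linarith

end Pool.Agent.MPac5134.KH
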